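import Pool.Agent.Helper58.Nivat.OneD

/-!
The action of `ℤ[X]` on two-sided integer sequences by the shift.
-/

open Polynomial

namespace Pool.Agent.Helper58.Nivat

/-- The shift by `q`. -/
def sh (q : ℤ) : Module.End ℤ (ℤ → ℤ) := LinearMap.funLeft ℤ ℤ (fun i => i + q)

theorem sh_apply (q : ℤ) (r : ℤ → ℤ) (i : ℤ) : sh q r i = r (i + q) := rfl

theorem sh_pow_apply (q : ℤ) (t : ℕ) (r : ℤ → ℤ) (i : ℤ) : ((sh q) ^ t) r i = r (i + t * q) := by
  induction t generalizing r i with
  | zero => simp
  | succ t ih =>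
    rw [pow_succ, Module.End.mul_apply, ih, sh_apply]
    congr 1
    push_cast
    ring

/-- The action of a polynomial. -/
noncomputable def act (f : ℤ[X]) : Module.End ℤ (ℤ → ℤ) := aeval (sh 1) f

theorem act_mul (f g : ℤ[X]) (r : ℤ → ℤ) : act (f * g) r = act f (act g r) := by
  unfold act
  rw [map_mul, Module.End.mul_apply]

theorem act_comm (f g : ℤ[X]) (r : ℤ → ℤ) : act f (act g r) = act g (act f r) := by
  rw [← act_mul, mul_comm, act_mul]

theorem act_add (f g : ℤ[X]) (r : ℤ → ℤ) : act (f + g) r = act f r + act g r := by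
  unfold act
  rw [map_add, LinearMap.add_apply]

theorem act_sub (f g : ℤ[X]) (r : ℤ → ℤ) : act (f - g) r = act f r - act g r := by
  unfold act
  rw [map_sub, LinearMap.sub_apply]

theorem aeval_sh_apply (q : ℤ) (f : ℤ[X]) (r : ℤ → ℤ) (i : ℤ) :
    (aeval (sh q) f) r i = ∑ t ∈ Finset.range (f.natDegree + 1), f.coeff t * r (i + t * q) := by
  rw [aeval_eq_sum_range, LinearMap.sum_apply, Finset.sum_apply]
  refine Finset.sum_congr rfl fun t _ => ?_
  rw [LinearMap.smul_apply, Pi.smul_apply, sh_pow_apply, smul_eq_mul]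

theorem act_apply (f : ℤ[X]) (r : ℤ → ℤ) (i : ℤ) :
    act f r i = ∑ t ∈ Finset.range (f.natDegree + 1), f.coeff t * r (i + t) := by
  unfold act
  rw [aeval_sh_apply]
  simp

theorem act_apply_lt (f : ℤ[X]) {n : ℕ} (hn : f.natDegree < n) (r : ℤ → ℤ) (i : ℤ) :
    act f r i = ∑ t ∈ Finset.range n, f.coeff t * r (i + t) := by
  rw [act_apply]
  apply Finset.sum_subset
  · intro t ht
    rw [Finset.mem_range] at *
    omega
  · intro t _ ht
    rw [Finset.mem_range, not_lt] at ht
    rw [coeff_eq_zero_of_natDegree_lt (by omega), zero_mul]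

theorem act_const (f : ℤ[X]) (κ : ℤ) : act f (fun _ => κ) = fun _ => f.eval 1 * κ := by
  funext i
  rw [act_apply, eval_eq_sum_range, Finset.sum_mul]
  simp

theorem act_shift (f : ℤ[X]) (q : ℤ) (r : ℤ → ℤ) (i : ℤ) :
    act f (fun i => r (i + q)) i = act f r (i + q) := by
  rw [act_apply, act_apply]
  refine Finset.sum_congr rfl fun t _ => ?_
  congr 2
  ring

theorem act_X_sub_one (r : ℤ → ℤ) (i : ℤ) : act (X - 1) r i = r (i + 1) - r i := by
  rw [act_sub]
  unfold act
  rw [aeval_X, map_one]
  rfl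

theorem act_expand_eq (p : ℕ) (f : ℤ[X]) : act (expand ℤ p f) = aeval (sh p) f := by
  unfold act
  rw [expand_aeval]
  have : sh 1 ^ p = sh p := by
    refine LinearMap.ext fun r => ?_
    funext i
    rw [sh_pow_apply, sh_apply]
    simp
  rw [this]

/-- The `ℓ¹`-norm of the coefficients. -/
noncomputable def nrm (f : ℤ[X]) : ℤ := ∑ t ∈ Finset.range (f.natDegree + 1), |f.coeff t|

theorem act_expand_bound (p : ℕ) (f : ℤ[X]) {r : ℤ → ℤ} {B : ℤ} (hr : ∀ i, |r i| ≤ B) (i : ℤ) :
    |act (expand ℤ p f) r i| ≤ nrm f * B := by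
  rw [act_expand_eq, aeval_sh_apply]
  refine (Finset.abs_sum_le_sum_abs _ _).trans ?_
  unfold nrm
  rw [Finset.sum_mul]
  refine Finset.sum_le_sum fun t _ => ?_
  rw [abs_mul]
  exact mul_le_mul_of_nonneg_left (hr _) (abs_nonneg _)

/-- Frobenius. -/
theorem exists_frob (p : ℕ) [hp : Fact p.Prime] (f : ℤ[X]) :
    ∃ q : ℤ[X], f ^ p = expand ℤ p f + C (p : ℤ) * q := by
  have h : C (p : ℤ) ∣ f ^ p - expand ℤ p f := by
    rw [C_dvd_iff_dvd_coeff]
    intro i
    rw [← ZMod.intCast_zmod_eq_zero_iff_dvd]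
    have : (map (Int.castRingHom (ZMod p)) (f ^ p - expand ℤ p f)).coeff i = 0 := by
      rw [Polynomial.map_sub, Polynomial.map_pow, map_expand, ZMod.expand_card, sub_self, coeff_zero]
    rw [coeff_map] at this
    exact this
  obtain ⟨q, hq⟩ := h
  exact ⟨q, by rw [← hq]; ring⟩

theorem act_C_mul (a : ℤ) (q : ℤ[X]) (r : ℤ → ℤ) (i : ℤ) : act (C a * q) r i = a * act q r i := by
  rw [act_mul]
  unfold act
  rw [aeval_C]
  rfl

/-- A linear recurrence satisfied by sequences with values in a bounded set has a common period. -/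
theorem recur_periodic (f : ℤ[X]) (hf : f ≠ 0) (B : ℤ) :
    ∃ L : ℕ, 0 < L ∧ ∀ r : ℤ → ℤ, (∀ i, |r i| ≤ B) → act f r = 0 → ∀ i, r (i + L) = r i := by
  classical
  set N := f.natDegree with hN
  set S : Set (Fin (N + 1) → ℤ) := {w | ∀ t, w t ∈ Set.Icc (-B) B} with hS
  have hSf : S.Finite := Set.Finite.pi' fun _ => Set.finite_Icc _ _
  obtain ⟨L, hL, h⟩ := det_periodic S hSf
  refine ⟨L, hL, fun r hr hact i => ?_⟩
  have h1 := h (fun i => fun t : Fin (N + 1) => r (i + t)) (fun i t => by
      have := hr (i + t)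
      rw [abs_le] at this
      exact ⟨this.1, this.2⟩) (fun i i' hii => by
    have hw : ∀ t : ℕ, t < N + 1 → r (i + t) = r (i' + t) := fun t ht => congrFun hii ⟨t, ht⟩
    have hlast : r (i + 1 + N) = r (i' + 1 + N) := by
      have e1 := congrFun hact (i + 1)
      have e2 := congrFun hact (i' + 1)
      rw [act_apply, Finset.sum_range_succ] at e1 e2
      have e3 : ∑ t ∈ Finset.range f.natDegree, f.coeff t * r (i + 1 + t) =
          ∑ t ∈ Finset.range f.natDegree, f.coeff t * r (i' + 1 + t) := by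
        refine Finset.sum_congr rfl fun t ht => ?_
        rw [Finset.mem_range] at ht
        have := hw (t + 1) (by omega)
        push_cast at this
        have e4 : i + 1 + (t : ℤ) = i + (t + 1) := by ring
        have e5 : i' + 1 + (t : ℤ) = i' + (t + 1) := by ring
        rw [e4, e5, this]
      rw [Pi.zero_apply] at e1 e2
      rw [e3, ← e2] at e1
      have e6 : f.coeff f.natDegree * r (i + 1 + f.natDegree) =
          f.coeff f.natDegree * r (i' + 1 + f.natDegree) := by
        have := add_left_cancel e1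
        exact this
      exact mul_left_cancel₀ (by
        have := leadingCoeff_ne_zero.2 hf
        exact this) e6
    funext t
    show r (i + 1 + t) = r (i' + 1 + t)
    by_cases ht : (t : ℕ) = N
    · rw [ht]; exact hlast
    · have := hw (t + 1) (by omega)
      push_cast at this
      have e4 : i + 1 + ((t : ℕ) : ℤ) = i + (t + 1) := by ring
      have e5 : i' + 1 + ((t : ℕ) : ℤ) = i' + (t + 1) := by ring
      rw [e4, e5, this]) i
  have h2 := congrFun h1 0
  simpa using h2

/-- A bounded solution of a linear recurrence which vanishes on a long interval is zero. -/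
theorem recur_zero (f : ℤ[X]) (hf : f ≠ 0) {B : ℤ} {r : ℤ → ℤ} (hr : ∀ i, |r i| ≤ B)
    (hact : act f r = 0) {n : ℕ} (hn : f.natDegree ≤ n) (i0 : ℤ)
    (hz : ∀ t : ℕ, t < n → r (i0 + t) = 0) : r = 0 := by
  have hfor : ∀ t : ℕ, r (i0 + t) = 0 := by
    intro t
    induction t using Nat.strong_induction_on with
    | _ t ih =>
      by_cases ht : t < n
      · exact hz t ht
      · have e1 := congrFun hact (i0 + (t - f.natDegree : ℕ))
        rw [act_apply, Finset.sum_range_succ] at e1
        have e3 : ∑ s ∈ Finset.range f.natDegree,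
            f.coeff s * r (i0 + (t - f.natDegree : ℕ) + s) = 0 := by
          refine Finset.sum_eq_zero fun s hs => ?_
          rw [Finset.mem_range] at hs
          have := ih (t - f.natDegree + s) (by omega)
          push_cast at this
          rw [add_assoc, this, mul_zero]
        rw [e3, zero_add] at e1
        have e4 : i0 + ((t - f.natDegree : ℕ) : ℤ) + f.natDegree = i0 + t := by
          push_cast [Nat.cast_sub (show f.natDegree ≤ t by omega)]
          ring
        rw [e4] at e1
        rcases mul_eq_zero.1 e1 with h | h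
        · exact absurd (leadingCoeff_eq_zero.1 h) hf
        · exact h
  obtain ⟨L, hL, hper⟩ := recur_periodic f hf B
  have hper' := hper r hr hact
  have hmul : ∀ (n : ℕ) (i : ℤ), r (i + n * L) = r i := by
    intro n
    induction n with
    | zero => intro i; simp
    | succ n ih =>
      intro i
      have : i + ((n + 1 : ℕ) : ℤ) * L = (i + n * L) + L := by push_cast; ring
      rw [this, hper', ih]
  funext i
  have h1 := hmul (i0 - i).toNat i
  have h2 : i0 ≤ i + ((i0 - i).toNat : ℤ) * L := by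
    have h3 : (i0 - i) ≤ ((i0 - i).toNat : ℤ) := Int.self_le_toNat _
    have h4 : (1 : ℤ) ≤ L := by exact_mod_cast hL
    have h5 : (0 : ℤ) ≤ ((i0 - i).toNat : ℤ) := Int.natCast_nonneg _
    nlinarith
  have h3 := hfor (i + ((i0 - i).toNat : ℤ) * L - i0).toNat
  rw [Int.toNat_of_nonneg (by omega)] at h3
  have e : i0 + (i + ((i0 - i).toNat : ℤ) * L - i0) = i + ((i0 - i).toNat : ℤ) * L := by ring
  rw [e, h1] at h3
  exact h3

end Pool.Agent.Helper58.Nivat
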