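import Mathlib

/-!
The polynomial identity `g(X^p) h(X)^p = h(X^p) g(X)^p` forces `h = ± X^k g` or `g = ± X^k h`.
-/

open Polynomial

namespace Pool.Agent.Helper58.Nivat

theorem expand_isCoprime {f g : ℚ[X]} (h : IsCoprime f g) (p : ℕ) :
    IsCoprime (expand ℚ p f) (expand ℚ p g) := by
  obtain ⟨a, b, hab⟩ := h
  exact ⟨expand ℚ p a, expand ℚ p b, by rw [← map_mul, ← map_mul, ← map_add, hab, map_one]⟩

/-- A polynomial with `g ^ p = c g(X^p)` is a monomial. -/
theorem monomial_of_pow {g : ℚ[X]} (hg : g ≠ 0) {p : ℕ} (hp : g.natDegree + 1 < p) {c : ℚ}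
    (h : g ^ p = C c * expand ℚ p g) : ∃ (a : ℚ) (m : ℕ), a ≠ 0 ∧ g = C a * X ^ m := by
  obtain ⟨g2, hg2, hnd⟩ := exists_eq_pow_rootMultiplicity_mul_and_not_dvd g hg 0
  rw [C_0, sub_zero] at hg2 hnd
  set m := rootMultiplicity 0 g with hm
  have hX : (X : ℚ[X]) ≠ 0 := X_ne_zero
  have hg20 : g2 ≠ 0 := by rintro rfl; exact hnd (dvd_zero _)
  have h1 : g2 ^ p = C c * expand ℚ p g2 := by
    rw [hg2, mul_pow, map_mul, map_pow, expand_X, ← pow_mul, ← pow_mul, mul_comm m p] at h
    have h2 : X ^ (p * m) * g2 ^ p = X ^ (p * m) * (C c * expand ℚ p g2) := by rw [h]; ring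
    exact mul_left_cancel₀ (pow_ne_zero _ hX) h2
  have h3 := congrArg derivative h1
  rw [derivative_pow, derivative_C_mul, derivative_expand] at h3
  have hp0 : (p : ℚ[X]) ≠ 0 := by
    have : p ≠ 0 := by omega
    exact_mod_cast this
  have h4 : X ^ (p - 1) ∣ g2 ^ (p - 1) * derivative g2 := by
    refine ⟨C c * expand ℚ p (derivative g2), ?_⟩
    apply mul_left_cancel₀ hp0
    have h5 : (C (p : ℚ) : ℚ[X]) = (p : ℚ[X]) := by simp
    rw [h5] at h3
    rw [← mul_assoc, h3]
    ring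
  have hcop : IsCoprime (X ^ (p - 1)) (g2 ^ (p - 1)) := by
    apply IsCoprime.pow
    exact (Prime.coprime_iff_not_dvd prime_X).2 hnd
  have h6 : X ^ (p - 1) ∣ derivative g2 := hcop.dvd_of_dvd_mul_left h4
  have hdeg2 : g2.natDegree ≤ g.natDegree := by
    rw [hg2, natDegree_mul (pow_ne_zero _ hX) hg20]
    omega
  have h7 : derivative g2 = 0 := by
    by_contra hne
    have h8 := natDegree_le_of_dvd h6 hne
    rw [natDegree_X_pow] at h8
    have h9 := natDegree_derivative_le g2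
    omega
  obtain ⟨a, ha⟩ : ∃ a, g2 = C a :=
    ⟨g2.coeff 0, eq_C_of_natDegree_eq_zero (derivative_eq_zero.1 h7)⟩
  refine ⟨a, m, ?_, ?_⟩
  · rintro rfl
    rw [C_0] at ha
    exact hg20 ha
  · rw [hg2, ha]; ring

theorem shift_of_identity {g h : ℤ[X]} (hg : g ≠ 0) (hh : h ≠ 0) {p : ℕ}
    (hpg : g.natDegree + 1 < p) (hph : h.natDegree + 1 < p)
    (hid : expand ℤ p g * h ^ p = expand ℤ p h * g ^ p) :
    ∃ (k : ℕ) (ε : ℤ), (ε = 1 ∨ ε = -1) ∧ (h = C ε * X ^ k * g ∨ g = C ε * X ^ k * h) := by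
  have hp1 : 1 < p := by omega
  have hp0 : p ≠ 0 := by omega
  -- leading coefficients
  have hlc : |g.leadingCoeff| = |h.leadingCoeff| := by
    have h1 := congrArg leadingCoeff hid
    rw [leadingCoeff_mul, leadingCoeff_mul, leadingCoeff_pow, leadingCoeff_pow,
      leadingCoeff_expand (by omega), leadingCoeff_expand (by omega)] at h1
    have hg' := leadingCoeff_ne_zero.2 hg
    have hh' := leadingCoeff_ne_zero.2 hh
    obtain ⟨q, rfl⟩ : ∃ q, p = q + 1 := ⟨p - 1, by omega⟩
    rw [pow_succ, pow_succ] at h1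
    have h2 : h.leadingCoeff ^ q = g.leadingCoeff ^ q := by
      have h3 : (g.leadingCoeff * h.leadingCoeff) * h.leadingCoeff ^ q =
          (g.leadingCoeff * h.leadingCoeff) * g.leadingCoeff ^ q := by
        rw [show (g.leadingCoeff * h.leadingCoeff) * h.leadingCoeff ^ q =
          g.leadingCoeff * (h.leadingCoeff ^ q * h.leadingCoeff) by ring, h1]
        ring
      exact mul_left_cancel₀ (mul_ne_zero hg' hh') h3
    have h4 := congrArg abs h2
    rw [abs_pow, abs_pow] at h4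
    exact ((pow_left_inj₀ (abs_nonneg _) (abs_nonneg _) (by omega)).1 h4).symm
  set φ := Int.castRingHom ℚ with hφ
  have hφinj : Function.Injective φ := Int.cast_injective
  set G := g.map φ with hG
  set H := h.map φ with hH
  have hG0 : G ≠ 0 := (Polynomial.map_ne_zero_iff hφinj).2 hg
  have hH0 : H ≠ 0 := (Polynomial.map_ne_zero_iff hφinj).2 hh
  have hGd : G.natDegree = g.natDegree := natDegree_map_eq_of_injective hφinj g
  have hHd : H.natDegree = h.natDegree := natDegree_map_eq_of_injective hφinj h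
  have hid' : expand ℚ p G * H ^ p = expand ℚ p H * G ^ p := by
    have := congrArg (Polynomial.map φ) hid
    rwa [Polynomial.map_mul, Polynomial.map_mul, Polynomial.map_pow, Polynomial.map_pow, map_expand,
      map_expand] at this
  set d := GCDMonoid.gcd G H with hd
  have hd0 : d ≠ 0 := fun h0 => hG0 ((gcd_eq_zero_iff G H).1 h0).1
  obtain ⟨G1, hG1⟩ := GCDMonoid.gcd_dvd_left G H
  obtain ⟨H1, hH1⟩ := GCDMonoid.gcd_dvd_right G H
  rw [← hd] at hG1 hH1
  have hG10 : G1 ≠ 0 := by rintro rfl; rw [mul_zero] at hG1; exact hG0 hG1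
  have hH10 : H1 ≠ 0 := by rintro rfl; rw [mul_zero] at hH1; exact hH0 hH1
  have hcop : IsCoprime G1 H1 := by
    have h1 := isCoprime_div_gcd_div_gcd (p := G) (q := H) hH0
    rw [← hd] at h1
    have h2 : G / d = G1 := by
      conv_lhs => rw [hG1]
      exact mul_div_cancel_left₀ _ hd0
    have h3 : H / d = H1 := by
      conv_lhs => rw [hH1]
      exact mul_div_cancel_left₀ _ hd0
    rwa [h2, h3] at h1
  have hid1 : expand ℚ p G1 * H1 ^ p = expand ℚ p H1 * G1 ^ p := by
    have hc0 : expand ℚ p d * d ^ p ≠ 0 :=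
      mul_ne_zero ((expand_ne_zero (by omega)).2 hd0) (pow_ne_zero _ hd0)
    apply mul_left_cancel₀ hc0
    rw [hG1, hH1, map_mul, map_mul, mul_pow, mul_pow] at hid'
    calc expand ℚ p d * d ^ p * (expand ℚ p G1 * H1 ^ p)
        = expand ℚ p d * expand ℚ p G1 * (d ^ p * H1 ^ p) := by ring
      _ = expand ℚ p d * expand ℚ p H1 * (d ^ p * G1 ^ p) := hid'
      _ = _ := by ring
  have hcopp : IsCoprime (G1 ^ p) (H1 ^ p) := hcop.pow
  have hcope := expand_isCoprime hcop p
  have hGdeg : G1.natDegree ≤ g.natDegree := by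
    rw [← hGd, hG1, natDegree_mul hd0 hG10]; omega
  have hHdeg : H1.natDegree ≤ h.natDegree := by
    rw [← hHd, hH1, natDegree_mul hd0 hH10]; omega
  -- both are monomials
  have key : ∀ {A B : ℚ[X]}, A ≠ 0 → A.natDegree + 1 < p → IsCoprime (A ^ p) (B ^ p) →
      IsCoprime (expand ℚ p A) (expand ℚ p B) →
      expand ℚ p A * B ^ p = expand ℚ p B * A ^ p → ∃ (a : ℚ) (m : ℕ), a ≠ 0 ∧ A = C a * X ^ m := by
    intro A B hA0 hAd c1 c2 he
    have d1 : A ^ p ∣ expand ℚ p A := by
      apply c1.dvd_of_dvd_mul_right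
      rw [he]
      exact dvd_mul_left _ _
    have d2 : expand ℚ p A ∣ A ^ p := by
      apply c2.dvd_of_dvd_mul_left
      rw [← he]
      exact dvd_mul_right _ _
    obtain ⟨u, hu⟩ := associated_of_dvd_dvd d2 d1
    obtain ⟨c, _, hcu⟩ := Polynomial.isUnit_iff.1 u.isUnit
    refine monomial_of_pow (c := c) hA0 hAd ?_
    rw [← hu, ← hcu, mul_comm]
  obtain ⟨a, m, ha, hGm⟩ := key hG10 (by omega) hcopp hcope hid1
  obtain ⟨b, n, hb, hHn⟩ := key hH10 (by omega) hcopp.symm hcope.symm hid1.symm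
  have hrel : C b * X ^ n * G = C a * X ^ m * H := by
    rw [hG1, hH1, hGm, hHn]; ring
  have hab : |a| = |b| := by
    have h1 := congrArg leadingCoeff hrel
    rw [leadingCoeff_mul, leadingCoeff_mul, leadingCoeff_mul, leadingCoeff_mul, leadingCoeff_C,
      leadingCoeff_C, leadingCoeff_X_pow, leadingCoeff_X_pow, mul_one, mul_one, hG, hH,
      leadingCoeff_map_of_injective hφinj, leadingCoeff_map_of_injective hφinj] at h1
    have h2 := congrArg abs h1
    rw [abs_mul, abs_mul] at h2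
    have h3 : |φ g.leadingCoeff| = |φ h.leadingCoeff| := by
      show |((g.leadingCoeff : ℤ) : ℚ)| = |((h.leadingCoeff : ℤ) : ℚ)|
      rw [← Int.cast_abs, ← Int.cast_abs, hlc]
    rw [h3] at h2
    have h4 : |φ h.leadingCoeff| ≠ 0 := by
      rw [abs_ne_zero]
      exact (map_ne_zero_iff φ hφinj).2 (leadingCoeff_ne_zero.2 hh)
    exact (mul_right_cancel₀ h4 h2).symm
  obtain ⟨ε, hε, hrel'⟩ : ∃ ε : ℤ, (ε = 1 ∨ ε = -1) ∧ X ^ n * g = C ε * X ^ m * h := by
    rcases abs_eq_abs.1 hab with h1 | h1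
    · refine ⟨1, Or.inl rfl, ?_⟩
      apply Polynomial.map_injective φ hφinj
      rw [Polynomial.map_mul, Polynomial.map_mul, Polynomial.map_mul, Polynomial.map_pow,
        Polynomial.map_pow, Polynomial.map_X, Polynomial.map_C, map_one, C_1, one_mul]
      apply mul_left_cancel₀ (C_ne_zero.2 hb)
      rw [← mul_assoc, hrel, h1, mul_assoc]
    · refine ⟨-1, Or.inr rfl, ?_⟩
      apply Polynomial.map_injective φ hφinj
      rw [Polynomial.map_mul, Polynomial.map_mul, Polynomial.map_mul, Polynomial.map_pow,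
        Polynomial.map_pow, Polynomial.map_X, Polynomial.map_C, map_neg, map_one, C_neg, C_1]
      apply mul_left_cancel₀ (C_ne_zero.2 hb)
      rw [← mul_assoc, hrel, h1, C_neg]
      ring
  rcases le_total n m with hnm | hnm
  · refine ⟨m - n, ε, hε, Or.inr ?_⟩
    apply mul_left_cancel₀ (pow_ne_zero n (X_ne_zero (R := ℤ)))
    rw [hrel', show (X : ℤ[X]) ^ m = X ^ n * X ^ (m - n) by rw [← pow_add]; congr 1; omega]
    ring
  · refine ⟨n - m, ε, hε, Or.inl ?_⟩
    apply mul_left_cancel₀ (pow_ne_zero m (X_ne_zero (R := ℤ)))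
    have hεε : (C ε : ℤ[X]) * C ε = 1 := by
      rw [← C_mul]
      rcases hε with rfl | rfl <;> simp
    calc X ^ m * h = (C ε * C ε) * (X ^ m * h) := by rw [hεε, one_mul]
      _ = C ε * (C ε * X ^ m * h) := by ring
      _ = C ε * (X ^ n * g) := by rw [hrel']
      _ = X ^ m * (C ε * X ^ (n - m) * g) := by
        rw [show (X : ℤ[X]) ^ n = X ^ m * X ^ (n - m) by rw [← pow_add]; congr 1; omega]
        ring

end Pool.Agent.Helper58.Nivat
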