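import Pool.Agent.Helper58.Nivat.Bound

/-!
Block images of sums of two periodic configurations.
-/

open AddMonoidAlgebra Module

namespace Pool.Agent.Helper58.Nivat

/-- `g` is a block image of `e`. -/
def BI (e g : ℤ × ℤ → ℚ) : Prop :=
  ∃ E : Finset (ℤ × ℤ), ∀ t t' : ℤ × ℤ, (∀ d ∈ E, e (t + d) = e (t' + d)) → g t = g t'

theorem BI.Ac {e g : ℤ × ℤ → ℚ} (h : BI e g) (χ : GR ℚ) : BI e (Ac ℚ χ g) := by
  classical
  obtain ⟨E, hE⟩ := h
  refine ⟨(χ.coeff.support ×ˢ E).image (fun p => p.1 + p.2), fun t t' htt => ?_⟩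
  rw [Ac_apply, Ac_apply]
  refine Finset.sum_congr rfl fun s hs => ?_
  congr 1
  apply hE
  intro d hd
  have h1 := htt (s + d) (Finset.mem_image.2 ⟨(s, d), Finset.mem_product.2 ⟨hs, hd⟩, rfl⟩)
  rw [add_assoc, add_assoc]
  exact h1

theorem DP.of_transversal {g : ℤ × ℤ → ℚ} {a b : ℤ × ℤ} (hdet : a.1 * b.2 - a.2 * b.1 ≠ 0)
    (ha : ∀ z, g (z + a) = g z) (hb : ∀ z, g (z + b) = g z) : DP g := by
  refine ⟨(a.1 * b.2 - a.2 * b.1).natAbs, Int.natAbs_pos.2 hdet, fun v z => ?_⟩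
  have pa : Function.Periodic g a := ha
  have pb : Function.Periodic g b := hb
  have h1 : ∀ z, g (z + (a.1 * b.2 - a.2 * b.1) • v) = g z := by
    intro z
    have e : z + (a.1 * b.2 - a.2 * b.1) • v =
        z + (v.1 * b.2 - v.2 * b.1) • a + (a.1 * v.2 - a.2 * v.1) • b := by
      apply Prod.ext
      · show z.1 + (a.1 * b.2 - a.2 * b.1) * v.1 =
          z.1 + (v.1 * b.2 - v.2 * b.1) * a.1 + (a.1 * v.2 - a.2 * v.1) * b.1
        ring
      · show z.2 + (a.1 * b.2 - a.2 * b.1) * v.2 =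
          z.2 + (v.1 * b.2 - v.2 * b.1) * a.2 + (a.1 * v.2 - a.2 * v.1) * b.2
        ring
    rw [e, pb.zsmul, pa.zsmul]
  rw [← natCast_zsmul]
  rcases Int.natAbs_eq (a.1 * b.2 - a.2 * b.1) with h | h
  · rw [← h]; exact h1 z
  · have h2 : (((a.1 * b.2 - a.2 * b.1).natAbs : ℕ) : ℤ) = -(a.1 * b.2 - a.2 * b.1) := by omega
    rw [h2, neg_smul]
    have h3 := h1 (z + -((a.1 * b.2 - a.2 * b.1) • v))
    rw [neg_add_cancel_right] at h3
    exact h3.symm

/-- A block image of a sum of two periodic configurations which is periodic in a third direction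
is doubly periodic. -/
theorem BI.dp {e g : ℤ × ℤ → ℚ} (he : (Set.range e).Finite) {u w v : ℤ × ℤ}
    (huv : u.1 * v.2 - u.2 * v.1 ≠ 0)
    (hvw : v.1 * w.2 - v.2 * w.1 ≠ 0) (hk : Pool.Agent.Helper58.Nivat.Ac ℚ (dl ℚ u * dl ℚ w) e = 0)
    (hbi : BI e g) (hv : ∀ z, g (z + v) = g z) : DP g := by
  classical
  obtain ⟨E, hE⟩ := hbi
  -- additivity
  have hδ : Function.Periodic (Pool.Agent.Helper58.Nivat.Ac ℚ (dl ℚ u) e) w := by
    rw [mul_comm, Ac_mul, Ac_dl_eq_zero] at hk
    exact hk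
  have hadd : ∀ (t : ℤ × ℤ) (x y : ℤ),
      e (t + x • u + y • w) = e (t + x • u) + e (t + y • w) - e t := by
    intro t x y
    have hper : Function.Periodic (fun t => e (t + y • w) - e t) u := by
      intro t
      have h1 := hδ.zsmul y t
      rw [Ac_dl, Ac_dl] at h1
      have e1 : t + u + y • w = t + y • w + u := by abel
      show e (t + u + y • w) - e (t + u) = e (t + y • w) - e t
      rw [e1]
      linarith
    have h1 : e (t + x • u + y • w) - e (t + x • u) = e (t + y • w) - e t := hper.zsmul x t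
    linarith
  set p : ℤ := v.1 * w.2 - v.2 * w.1 with hp
  set q : ℤ := u.1 * v.2 - u.2 * v.1 with hq
  have hpq : Function.Periodic g (p • u + q • w) := by
    have pv : Function.Periodic g v := hv
    have h1 := pv.zsmul (u.1 * w.2 - u.2 * w.1)
    have e1 : (u.1 * w.2 - u.2 * w.1) • v = p • u + q • w := by
      apply Prod.ext
      · show (u.1 * w.2 - u.2 * w.1) * v.1 = p * u.1 + q * w.1
        rw [hp, hq]; ring
      · show (u.1 * w.2 - u.2 * w.1) * v.2 = p * u.2 + q * w.2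
        rw [hp, hq]; ring
    rwa [e1] at h1
  have hfin : (patSet e E).Finite := patSetQ_finite he E
  set K : ℕ := (patSet e E).ncard with hK
  -- a period in the direction `w`
  have hw : ∀ t : ℤ × ℤ, g (t + ((K.factorial : ℤ) * q) • w) = g t := by
    intro t
    have hcard : (hfin.toFinset).card < (Finset.range (K + 1)).card := by
      rw [Finset.card_range, ← Set.ncard_eq_toFinset_card _ hfin]
      omega
    obtain ⟨m, hm, m', hm', hne, heq⟩ := Finset.exists_ne_map_eq_of_card_lt_of_maps_to hcard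
      (f := fun n : ℕ => fun d : E => e ((t + ((n : ℤ) * p) • u) + (d : ℤ × ℤ))) (fun n _ => by
        rw [Finset.mem_coe, Set.Finite.mem_toFinset]; exact ⟨_, rfl⟩)
    rw [Finset.mem_range] at hm hm'
    have hrow : ∀ (n n' : ℕ), (fun d : E => e ((t + ((n : ℤ) * p) • u) + (d : ℤ × ℤ))) =
        (fun d : E => e ((t + ((n' : ℤ) * p) • u) + (d : ℤ × ℤ))) → ∀ y : ℤ,
        g (t + (y - n * q) • w) = g (t + (y - n' * q) • w) := by
      intro n n' h y
      have h1 : g (t + ((n : ℤ) * p) • u + y • w) = g (t + ((n' : ℤ) * p) • u + y • w) := by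
        apply hE
        intro d hd
        have h2 := congrFun h ⟨d, hd⟩
        have e1 : t + ((n : ℤ) * p) • u + y • w + d = (t + d) + ((n : ℤ) * p) • u + y • w := by abel
        have e2 : t + ((n' : ℤ) * p) • u + y • w + d = (t + d) + ((n' : ℤ) * p) • u + y • w := by
          abel
        have e3 : t + ((n : ℤ) * p) • u + d = (t + d) + ((n : ℤ) * p) • u := by abel
        have e4 : t + ((n' : ℤ) * p) • u + d = (t + d) + ((n' : ℤ) * p) • u := by abel
        simp only [e3, e4] at h2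
        rw [e1, e2, hadd, hadd, h2]
      have h3 := hpq.zsmul (n : ℤ) (t + (y - n * q) • w)
      have h4 := hpq.zsmul (n' : ℤ) (t + (y - n' * q) • w)
      have e5 : t + (y - (n : ℤ) * q) • w + (n : ℤ) • (p • u + q • w) =
          t + ((n : ℤ) * p) • u + y • w := by
        rw [smul_add, smul_smul, smul_smul, sub_smul]; abel
      have e6 : t + (y - (n' : ℤ) * q) • w + (n' : ℤ) • (p • u + q • w) =
          t + ((n' : ℤ) * p) • u + y • w := by
        rw [smul_add, smul_smul, smul_smul, sub_smul]; abel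
      rw [e5] at h3
      rw [e6] at h4
      rw [← h3, ← h4, h1]
    obtain ⟨δ, hδ0, hδK, hδper⟩ : ∃ δ : ℕ, 0 < δ ∧ δ ≤ K ∧
        Function.Periodic (fun j : ℤ => g (t + j • w)) ((δ : ℤ) * q) := by
      rcases lt_or_gt_of_ne hne with hlt | hlt
      · refine ⟨m' - m, by omega, by omega, fun j => ?_⟩
        have h1 := hrow m m' heq (j + m' * q)
        have e1 : j + (m' : ℤ) * q - m * q = j + ((m' - m : ℕ) : ℤ) * q := by
          rw [Nat.cast_sub hlt.le]; ring
        have e2 : j + (m' : ℤ) * q - m' * q = j := by ring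
        rw [e1, e2] at h1
        exact h1
      · refine ⟨m - m', by omega, by omega, fun j => ?_⟩
        have h1 := hrow m' m heq.symm (j + m * q)
        have e1 : j + (m : ℤ) * q - m' * q = j + ((m - m' : ℕ) : ℤ) * q := by
          rw [Nat.cast_sub hlt.le]; ring
        have e2 : j + (m : ℤ) * q - m * q = j := by ring
        rw [e1, e2] at h1
        exact h1
    obtain ⟨κ, hκ⟩ : δ ∣ K.factorial := Nat.dvd_factorial hδ0 hδK
    have h1 := hδper.zsmul (κ : ℤ) 0
    simp only [zero_smul, add_zero, zero_add] at h1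
    have e1 : (κ : ℤ) • ((δ : ℤ) * q) = (K.factorial : ℤ) * q := by
      rw [hκ, smul_eq_mul]; push_cast; ring
    rw [e1] at h1
    exact h1
  refine DP.of_transversal (a := v) (b := ((K.factorial : ℤ) * q) • w) ?_ hv hw
  have e1 : v.1 * (((K.factorial : ℤ) * q) • w).2 - v.2 * (((K.factorial : ℤ) * q) • w).1 =
      ((K.factorial : ℤ) * q) * p := by
    show v.1 * (((K.factorial : ℤ) * q) * w.2) - v.2 * (((K.factorial : ℤ) * q) * w.1) = _
    rw [hp]; ring
  rw [e1]
  refine mul_ne_zero (mul_ne_zero ?_ huv) hvw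
  exact_mod_cast Nat.factorial_ne_zero K

/-- Divisibility in a general direction. -/
theorem dvd_dir {e : ℤ × ℤ → ℚ} (he : (Set.range e).Finite) {v : ℤ × ℤ}
    (Φ : (ℤ × ℤ) ≃+ (ℤ × ℤ)) (hΦ : Φ (1, 0) = v) {N : ℕ} (hN : 0 < N)
    (hper : ∀ z, e (z + N • v) = e z) {π : Polynomial ℚ} (hπ : Irreducible π)
    (hD : Pool.Agent.Helper58.Nivat.Ac ℚ (pol v π) e = 0) (hnd : ¬ DP e) {g : GR ℚ}
    (hg : DP (Pool.Agent.Helper58.Nivat.Ac ℚ g e)) : pol v π ∣ g := by
  classical
  set e1 : ℤ × ℤ → ℚ := fun z => e (Φ z) with he1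
  have he1f : (Set.range e1).Finite := he.subset (by
    rintro _ ⟨z, rfl⟩; exact ⟨Φ z, rfl⟩)
  have hper1 : ∀ z, e1 (z + ((N : ℤ), 0)) = e1 z := by
    intro z
    show e (Φ (z + ((N : ℤ), 0))) = e (Φ z)
    have e2 : ((N : ℤ), (0 : ℤ)) = N • ((1, 0) : ℤ × ℤ) := by
      apply Prod.ext <;> simp
    rw [map_add, e2, map_nsmul, hΦ]
    exact hper (Φ z)
  have htr : ∀ {a : ℤ × ℤ → ℚ}, DP a → DP (fun z => a (Φ z)) := by
    rintro a ⟨M, hM, h⟩
    refine ⟨M, hM, fun v z => ?_⟩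
    show a (Φ (z + M • v)) = a (Φ z)
    rw [map_add, map_nsmul]
    exact h _ _
  have hnd1 : ¬ DP e1 := by
    rintro ⟨M, hM, h⟩
    apply hnd
    refine ⟨M, hM, fun v z => ?_⟩
    have := h (Φ.symm v) (Φ.symm z)
    simp only [he1, map_add, map_nsmul, AddEquiv.apply_symm_apply] at this
    exact this
  have hD1 : Pool.Agent.Helper58.Nivat.Ac ℚ (pol (1, 0) π) e1 = 0 := by
    funext z
    have h2 := Ac_trm Φ.toAddMonoidHom (pol (1, 0) π) e z
    rw [trm_pol] at h2
    have e2 : Φ.toAddMonoidHom (1, 0) = v := hΦ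
    rw [e2, hD] at h2
    exact h2.symm
  have hg1 : DP (Pool.Agent.Helper58.Nivat.Ac ℚ (trm Φ.symm.toAddMonoidHom g) e1) := by
    have h1 : Pool.Agent.Helper58.Nivat.Ac ℚ (trm Φ.symm.toAddMonoidHom g) e1 =
        fun z => Pool.Agent.Helper58.Nivat.Ac ℚ g e (Φ z) := by
      funext z
      have h2 := Ac_trm Φ.toAddMonoidHom (trm Φ.symm.toAddMonoidHom g) e z
      rw [trm_symm] at h2
      exact h2.symm
    rw [h1]
    exact htr hg
  have h3 := dvd_of_dp he1f hN hper1 hπ (by rw [hD1]; exact DP.zero) hnd1 hg1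
  have h4 := map_dvd (trm Φ.toAddMonoidHom) h3
  rw [trm_symm, trm_pol] at h4
  have e2 : Φ.toAddMonoidHom (1, 0) = v := hΦ
  rw [e2] at h4
  exact h4

/-! ### Lists of line polynomials -/

/-- The product. -/
noncomputable def PS (S : List ((ℤ × ℤ) × Polynomial ℚ)) : GR ℚ :=
  (S.map fun s => pol s.1 s.2).prod

theorem PS_nil : PS [] = 1 := rfl

theorem PS_cons (s : (ℤ × ℤ) × Polynomial ℚ) (S : List ((ℤ × ℤ) × Polynomial ℚ)) :
    PS (s :: S) = pol s.1 s.2 * PS S := by
  unfold PS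
  rw [List.map_cons, List.prod_cons]

theorem PS_append (S T : List ((ℤ × ℤ) × Polynomial ℚ)) : PS (S ++ T) = PS S * PS T := by
  unfold PS
  rw [List.map_append, List.prod_append]

/-- The erosion of a window. -/
def er : List ((ℤ × ℤ) × Polynomial ℚ) → Finset (ℤ × ℤ) → Finset (ℤ × ℤ)
  | [], D => D
  | s :: S, D => er S (D.filter fun z => z + s.2.natDegree • s.1 ∈ D)

theorem er_convex (S : List ((ℤ × ℤ) × Polynomial ℚ)) : ∀ {D : Finset (ℤ × ℤ)}, LatConvex D →
    LatConvex (er S D) := by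
  induction S with
  | nil => intro D hD; exact hD
  | cons s S ih => intro D hD; exact ih (erode_convex hD _ _)

theorem er_pat (S : List ((ℤ × ℤ) × Polynomial ℚ)) (hS : ∀ s ∈ S, s.1 ≠ 0) :
    ∀ (c : ℤ × ℤ → ℚ) {D : Finset (ℤ × ℤ)}, LatConvex D → ∀ t t' : ℤ × ℤ,
      (∀ d ∈ D, c (t + d) = c (t' + d)) →
      ∀ d ∈ er S D, Ac ℚ (PS S) c (t + d) = Ac ℚ (PS S) c (t' + d) := by
  induction S with
  | nil =>
    intro c D hD t t' h d hd
    rw [PS_nil, Ac_one]
    exact h d hd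
  | cons s S ih =>
    intro c D hD t t' h d hd
    rw [PS_cons, mul_comm, Ac_mul]
    refine ih (fun s' hs' => hS s' (List.mem_cons_of_mem _ hs')) (Ac ℚ (pol s.1 s.2) c)
      (erode_convex hD s.2.natDegree s.1) t t' ?_ d hd
    intro z hz
    rw [Finset.mem_filter] at hz
    rw [Ac_pol, Ac_pol]
    refine Finset.sum_congr rfl fun i hi => ?_
    rw [Finset.mem_range] at hi
    have h1 := h _ (segment_mem hD (hS s List.mem_cons_self) hz.1 hz.2 (i := i) (by omega))
    rw [add_assoc, add_assoc, h1]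

theorem er_supp (S : List ((ℤ × ℤ) × Polynomial ℚ))
    (hS : ∀ s ∈ S, s.1 ≠ 0 ∧ s.2.coeff 0 ≠ 0) :
    ∀ {D : Finset (ℤ × ℤ)}, LatConvex D → ∀ g : GR ℚ,
      (∀ z, (PS S * g).coeff z ≠ 0 → z ∈ D) → ∀ z, g.coeff z ≠ 0 → z ∈ er S D := by
  induction S with
  | nil =>
    intro D hD g h z hz
    rw [PS_nil, one_mul] at h
    exact h z hz
  | cons s S ih =>
    intro D hD g h z hz
    refine ih (fun s' hs' => hS s' (List.mem_cons_of_mem _ hs'))
      (erode_convex hD s.2.natDegree s.1) g ?_ z hz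
    intro z' hz'
    rw [Finset.mem_filter]
    rw [PS_cons, mul_assoc] at h
    exact line_mink hD (hS s List.mem_cons_self).1 (hS s List.mem_cons_self).2 h hz'

end Pool.Agent.Helper58.Nivat
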