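import Pool.Agent.Helper58.Nivat.Half

/-!
Relations supported in a window, and the half bound.
-/

open AddMonoidAlgebra Module

namespace Pool.Agent.Helper58.Nivat

/-- The affine relations supported in `D`. -/
noncomputable def Rel (c : ℤ × ℤ → ℚ) (D : Finset (ℤ × ℤ)) : Submodule ℚ (GR ℚ) where
  carrier := {f | (∀ s, f.coeff s ≠ 0 → s ∈ D) ∧ ∃ κ, ∀ z, Ac ℚ f c z = κ}
  add_mem' := by
    rintro f g ⟨hf, κ, hκ⟩ ⟨hg, κ', hκ'⟩
    refine ⟨fun s hs => ?_, κ + κ', fun z => ?_⟩
    · by_contra hcon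
      apply hs
      rw [coeff_add, Finsupp.add_apply]
      have h1 : f.coeff s = 0 := by
        by_contra h; exact hcon (hf s h)
      have h2 : g.coeff s = 0 := by
        by_contra h; exact hcon (hg s h)
      rw [h1, h2, add_zero]
    · rw [Ac_add, Pi.add_apply, hκ, hκ']
  zero_mem' := by
    refine ⟨fun s hs => absurd ?_ hs, 0, fun z => ?_⟩
    · rw [coeff_zero]; rfl
    · rw [Ac_zero]; rfl
  smul_mem' := by
    rintro a f ⟨hf, κ, hκ⟩
    refine ⟨fun s hs => ?_, a * κ, fun z => ?_⟩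
    · apply hf
      intro h
      apply hs
      rw [coeff_smul, Finsupp.smul_apply, h, smul_zero]
    · rw [Ac_smul, Pi.smul_apply, hκ, smul_eq_mul]

theorem mem_Rel {c : ℤ × ℤ → ℚ} {D : Finset (ℤ × ℤ)} {f : GR ℚ} :
    f ∈ Rel c D ↔ (∀ s, f.coeff s ≠ 0 → s ∈ D) ∧ ∃ κ, ∀ z, Ac ℚ f c z = κ := Iff.rfl

/-- Evaluation of the coefficients. -/
def evD (c : ℤ × ℤ → ℚ) (D : Finset (ℤ × ℤ)) : Rel c D →ₗ[ℚ] (D → ℚ) where
  toFun f := fun d => f.1.coeff d
  map_add' := by
    intro f g
    funext d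
    rfl
  map_smul' := by
    intro a f
    funext d
    rfl

theorem evD_injective (c : ℤ × ℤ → ℚ) (D : Finset (ℤ × ℤ)) : Function.Injective (evD c D) := by
  rw [← LinearMap.ker_eq_bot, LinearMap.ker_eq_bot']
  rintro ⟨f, hf⟩ h
  apply Subtype.ext
  show f = 0
  rw [← coeff_eq_zero]
  ext s
  rw [Finsupp.zero_apply]
  by_contra hne
  have hs := (mem_Rel.1 hf).1 s hne
  exact hne (congrFun h ⟨s, hs⟩)

instance rel_finite (c : ℤ × ℤ → ℚ) (D : Finset (ℤ × ℤ)) : Module.Finite ℚ (Rel c D) :=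
  Module.Finite.of_injective (evD c D) (evD_injective c D)

theorem finrank_rel_le (c : ℤ × ℤ → ℚ) (D : Finset (ℤ × ℤ)) : finrank ℚ (Rel c D) ≤ D.card := by
  have h := LinearMap.finrank_le_finrank_of_injective (evD_injective c D)
  rw [finrank_fintype_fun_eq_card, Fintype.card_coe] at h
  exact h

theorem patSetQ_finite {c : ℤ × ℤ → ℚ} (hc : (Set.range c).Finite) (D : Finset (ℤ × ℤ)) :
    (patSet c D).Finite := by
  refine (Set.Finite.pi' fun _ : D => hc).subset ?_
  rintro _ ⟨t, rfl⟩ d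
  exact ⟨_, rfl⟩

/-- Many relations. -/
theorem rel_lower {c : ℤ × ℤ → ℚ} (hc : (Set.range c).Finite) (D : Finset (ℤ × ℤ)) :
    D.card + 1 ≤ finrank ℚ (Rel c D) + (patSet c D).ncard := by
  classical
  have hfin := patSetQ_finite hc D
  have : Fintype (patSet c D) := hfin.fintype
  set Λ : ((D → ℚ) × ℚ) →ₗ[ℚ] (patSet c D → ℚ) :=
    { toFun := fun x w => ∑ d : D, x.1 d * w.1 d + x.2
      map_add' := by
        intro x y
        funext w
        show ∑ d : D, (x.1 d + y.1 d) * w.1 d + (x.2 + y.2) =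
          (∑ d : D, x.1 d * w.1 d + x.2) + (∑ d : D, y.1 d * w.1 d + y.2)
        simp only [add_mul, Finset.sum_add_distrib]
        ring
      map_smul' := by
        intro a x
        funext w
        show ∑ d : D, (a * x.1 d) * w.1 d + (a * x.2) = a * (∑ d : D, x.1 d * w.1 d + x.2)
        rw [mul_add, Finset.mul_sum]
        congr 1
        exact Finset.sum_congr rfl fun d _ => by ring } with hΛ
  have hΛ_apply : ∀ x w, Λ x w = ∑ d : D, x.1 d * w.1 d + x.2 := fun x w => rfl
  have h1 := LinearMap.finrank_range_add_finrank_ker Λ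
  have h2 : finrank ℚ ((D → ℚ) × ℚ) = D.card + 1 := by
    rw [finrank_prod, finrank_fintype_fun_eq_card, Fintype.card_coe, finrank_self]
  have h3 : finrank ℚ (LinearMap.range Λ) ≤ (patSet c D).ncard := by
    have := Submodule.finrank_le (LinearMap.range Λ)
    rw [finrank_fintype_fun_eq_card] at this
    rwa [Set.ncard_eq_toFinset_card', Set.toFinset_card]
  -- the kernel embeds into the relations
  set Ψ : ((D → ℚ) × ℚ) →ₗ[ℚ] GR ℚ :=
    { toFun := fun x => ∑ d : D, single (d : ℤ × ℤ) (x.1 d)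
      map_add' := by
        intro x y
        rw [← Finset.sum_add_distrib]
        refine Finset.sum_congr rfl fun d _ => ?_
        rw [← single_add]
        rfl
      map_smul' := by
        intro a x
        rw [RingHom.id_apply, Finset.smul_sum]
        refine Finset.sum_congr rfl fun d _ => ?_
        rw [smul_single]
        rfl } with hΨ
  have hΨ_apply : ∀ x, Ψ x = ∑ d : D, single (d : ℤ × ℤ) (x.1 d) := fun x => rfl
  have hΨ_coeff : ∀ x (s : ℤ × ℤ), (Ψ x).coeff s = ∑ d : D, if (d : ℤ × ℤ) = s then x.1 d else 0 := by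
    intro x s
    rw [hΨ_apply, coeff_sum, Finsupp.finsetSum_apply]
    refine Finset.sum_congr rfl fun d _ => ?_
    rw [coeff_single, Finsupp.single_apply]
  have hΨ_coeff' : ∀ x (d : D), (Ψ x).coeff d = x.1 d := by
    intro x d
    rw [hΨ_coeff, Finset.sum_eq_single d]
    · rw [if_pos rfl]
    · intro b _ hb
      rw [if_neg]
      intro h
      exact hb (Subtype.ext h)
    · intro h; exact absurd (Finset.mem_univ d) h
  have hmem : ∀ x ∈ LinearMap.ker Λ, Ψ x ∈ Rel c D := by
    intro x hx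
    rw [mem_Rel]
    refine ⟨fun s hs => ?_, -x.2, fun z => ?_⟩
    · by_contra hcon
      apply hs
      rw [hΨ_coeff]
      refine Finset.sum_eq_zero fun d _ => ?_
      rw [if_neg]
      rintro rfl
      exact hcon d.2
    · have h4 := congrFun (LinearMap.mem_ker.1 hx) ⟨_, ⟨z, rfl⟩⟩
      rw [hΛ_apply] at h4
      rw [hΨ_apply, Ac_sum, Finset.sum_apply]
      have h5 : ∑ d : D, Ac ℚ (single (d : ℤ × ℤ) (x.1 d)) c z = ∑ d : D, x.1 d * c (z + d) :=
        Finset.sum_congr rfl fun d _ => Ac_single _ _ _ _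
      rw [h5]
      have h6 : ∑ d : D, x.1 d * c (z + d) + x.2 = 0 := h4
      linarith
  set Θ : LinearMap.ker Λ →ₗ[ℚ] Rel c D :=
    (Ψ.domRestrict (LinearMap.ker Λ)).codRestrict (Rel c D) (fun x => hmem x.1 x.2) with hΘ
  have hinj : Function.Injective Θ := by
    rw [← LinearMap.ker_eq_bot, LinearMap.ker_eq_bot']
    rintro ⟨x, hx⟩ h
    have h4 : Ψ x = 0 := congrArg Subtype.val h
    have h5 : x.1 = 0 := by
      funext d
      rw [← hΨ_coeff' x d, h4, coeff_zero]
      rfl
    have h6 : x.2 = 0 := by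
      have h7 := congrFun (LinearMap.mem_ker.1 hx) ⟨_, ⟨0, rfl⟩⟩
      rw [hΛ_apply, h5] at h7
      simpa using h7
    apply Subtype.ext
    exact Prod.ext h5 h6
  have h4 := LinearMap.finrank_le_finrank_of_injective hinj
  omega

theorem patSet_comp {A B : Type*} (e : A → B) (he : Function.Injective e) (c : ℤ × ℤ → A)
    (D : Finset (ℤ × ℤ)) : (patSet (fun z => e (c z)) D).ncard = (patSet c D).ncard := by
  have h : patSet (fun z => e (c z)) D = (fun w : D → A => fun d => e (w d)) '' patSet c D := by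
    ext w
    constructor
    · rintro ⟨t, rfl⟩; exact ⟨_, ⟨t, rfl⟩, rfl⟩
    · rintro ⟨_, ⟨t, rfl⟩, rfl⟩; exact ⟨t, rfl⟩
  rw [h]
  apply Set.ncard_image_of_injective
  intro w w' hww
  funext d
  exact he (congrFun hww d)

/-- The case of two difference operators. -/
theorem rat_two {c : ℤ × ℤ → ℚ} (hc : (Set.range c).Finite) (hn : ¬ Per c) {u w : ℤ × ℤ}
    (h : MinKill c (u ::ₘ w ::ₘ 0)) {D : Finset (ℤ × ℤ)} (hD : LatConvex D) :
    D.card + 1 ≤ (patSet c D).ncard := by
  by_contra hcon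
  have hk := h.kill
  rw [dp_cons, dp_cons, dp_zero, mul_one] at hk
  have hu : u ≠ 0 := h.ne u (by simp)
  have hw : w ≠ 0 := h.ne w (by simp)
  obtain ⟨c₁, c₂, hsum, h1, h2⟩ := two_periodic (h.det_ne hc) hk
  have : Finite (Set.range c) := hc
  have hpat := patSet_comp (A := Set.range c) Subtype.val Subtype.val_injective
    (fun z => ⟨c z, z, rfl⟩) D
  have hp := sum_of_two (A := Set.range c) (fun z => ⟨c z, z, rfl⟩) Subtype.val
    Subtype.val_injective c₁ c₂ hsum ⟨u, hu, h1⟩ ⟨w, hw, h2⟩ D hD (by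
      rw [← hpat]
      show (patSet c D).ncard ≤ D.card
      omega)
  obtain ⟨p, hp0, hp1⟩ := hp
  exact hn ⟨p, hp0, fun x => congrArg Subtype.val (hp1 x)⟩

/-- Erosion by a line polynomial. -/
theorem erode_convex {D : Finset (ℤ × ℤ)} (hD : LatConvex D) (n : ℕ) (v : ℤ × ℤ) :
    LatConvex (D.filter fun z => z + n • v ∈ D) := by
  obtain ⟨K, hK, hDK⟩ := hD
  refine ⟨K ∩ ((fun w : ℝ × ℝ => w + ((n : ℝ) * v.1, (n : ℝ) * v.2)) ⁻¹' K),
    hK.inter (hK.translate_preimage_left _), fun z => ?_⟩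
  rw [Finset.mem_filter, hDK, hDK, Set.mem_inter_iff, Set.mem_preimage]
  have e : (((z + n • v).1 : ℝ), ((z + n • v).2 : ℝ)) =
      (((z.1 : ℝ), (z.2 : ℝ)) + ((n : ℝ) * v.1, (n : ℝ) * v.2) : ℝ × ℝ) := by
    apply Prod.ext
    · simp only [Prod.fst_add, Prod.smul_fst]
      simp only [nsmul_eq_mul]
      push_cast
      ring
    · simp only [Prod.snd_add, Prod.smul_snd]
      simp only [nsmul_eq_mul]
      push_cast
      ring
  rw [e]

theorem erode_card {D : Finset (ℤ × ℤ)} (hne : D.Nonempty) {n : ℕ} (hn : 1 ≤ n) {v : ℤ × ℤ}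
    (hv : v ≠ 0) : (D.filter fun z => z + n • v ∈ D).card < D.card := by
  apply Finset.card_lt_card
  rw [Finset.filter_ssubset]
  obtain ⟨z, hz, hmax⟩ := Finset.exists_max_image D (fun z => z.1 * v.1 + z.2 * v.2) hne
  refine ⟨z, hz, fun hmem => ?_⟩
  have h1 := hmax _ hmem
  have e1 : (z + n • v).1 = z.1 + n * v.1 := by
    simp only [Prod.fst_add, Prod.smul_fst]
    simp only [nsmul_eq_mul]
  have e2 : (z + n • v).2 = z.2 + n * v.2 := by
    simp only [Prod.snd_add, Prod.smul_snd]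
    simp only [nsmul_eq_mul]
  rw [e1, e2] at h1
  have hpos : 0 < v.1 * v.1 + v.2 * v.2 := by
    rcases lt_or_eq_of_le (add_nonneg (mul_self_nonneg v.1) (mul_self_nonneg v.2)) with h | h
    · exact h
    · exfalso
      have a1 := mul_self_nonneg v.1
      have a2 := mul_self_nonneg v.2
      apply hv
      apply Prod.ext
      · exact mul_self_eq_zero.1 (by linarith)
      · exact mul_self_eq_zero.1 (by linarith)
  have hn' : (1 : ℤ) ≤ n := by exact_mod_cast hn
  nlinarith

theorem erode_pat {c : ℤ × ℤ → ℚ} (hc : (Set.range c).Finite) {D : Finset (ℤ × ℤ)}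
    (hD : LatConvex D) {v : ℤ × ℤ} (hv : v ≠ 0) (π : Polynomial ℚ) :
    (patSet (Ac ℚ (pol v π) c) (D.filter fun z => z + π.natDegree • v ∈ D)).ncard ≤
      (patSet c D).ncard := by
  classical
  set D' := D.filter fun z => z + π.natDegree • v ∈ D with hD'
  set Ψ : (D → ℚ) → (D' → ℚ) := fun w z => ∑ i ∈ Finset.range (π.natDegree + 1),
    π.coeff i * (if h : (z : ℤ × ℤ) + i • v ∈ D then w ⟨_, h⟩ else 0) with hΨ
  have hfin := patSetQ_finite hc D
  refine (Set.ncard_le_ncard ?_ (hfin.image Ψ)).trans (Set.ncard_image_le hfin)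
  rintro _ ⟨t, rfl⟩
  refine ⟨_, ⟨t, rfl⟩, ?_⟩
  funext z
  have hz := Finset.mem_filter.1 z.2
  show ∑ i ∈ Finset.range (π.natDegree + 1), π.coeff i *
    (if h : (z : ℤ × ℤ) + i • v ∈ D then c (t + ((z : ℤ × ℤ) + i • v)) else 0) =
      Ac ℚ (pol v π) c (t + z)
  rw [Ac_pol]
  refine Finset.sum_congr rfl fun i hi => ?_
  rw [Finset.mem_range] at hi
  rw [dif_pos (segment_mem hD hv hz.1 hz.2 (by omega)), add_assoc]

theorem erode_rel {c : ℤ × ℤ → ℚ} {D : Finset (ℤ × ℤ)}
    (hD : LatConvex D) {v : ℤ × ℤ} (hv : v ≠ 0) {π : Polynomial ℚ} (h0 : π.coeff 0 ≠ 0)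
    (hdvd : ∀ f ∈ Rel c D, pol v π ∣ f) :
    finrank ℚ (Rel c D) ≤
      finrank ℚ (Rel (Ac ℚ (pol v π) c) (D.filter fun z => z + π.natDegree • v ∈ D)) := by
  classical
  have hle : Rel c D ≤ (Rel (Ac ℚ (pol v π) c) (D.filter fun z => z + π.natDegree • v ∈ D)).map
      (LinearMap.mulLeft ℚ (pol v π)) := by
    intro f hf
    obtain ⟨g, rfl⟩ := hdvd f hf
    rw [mem_Rel] at hf
    refine ⟨g, ?_, rfl⟩
    refine ⟨fun s hs => ?_, ?_⟩
    · rw [Finset.mem_filter]
      exact line_mink hD hv h0 hf.1 hs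
    · obtain ⟨κ, hκ⟩ := hf.2
      refine ⟨κ, fun z => ?_⟩
      rw [← Ac_mul, mul_comm]
      exact hκ z
  exact (Submodule.finrank_mono hle).trans (Submodule.finrank_map_le _ _)

/-- The main bound. -/
theorem rel_bound (n : ℕ) : ∀ c : ℤ × ℤ → ℚ, (Set.range c).Finite → ¬ Per c →
    ∀ D : Finset (ℤ × ℤ), LatConvex D → D.card = n →
      finrank ℚ (Rel c D) + 1 ≤ (patSet c D).ncard := by
  classical
  induction n using Nat.strong_induction_on with
  | _ n IH =>
    intro c hc hn D hD hcard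
    have hpos : 1 ≤ (patSet c D).ncard := by
      have h1 : (patSet c D).Nonempty := Set.range_nonempty _
      have h2 := (Set.ncard_pos (patSetQ_finite hc D)).2 h1
      omega
    by_cases hbot : Rel c D = ⊥
    · rw [hbot, finrank_bot]
      omega
    obtain ⟨f, hf, hf0⟩ := Submodule.exists_mem_ne_zero_of_ne_bot hbot
    obtain ⟨hfs, κ, hκ⟩ := mem_Rel.1 hf
    -- an annihilator
    have hdl : dl ℚ (1, 0) ≠ 0 := by
      intro h0
      have h1 := congrArg (fun g : GR ℚ => g.coeff (0 : ℤ × ℤ)) h0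
      simp only [dl] at h1
      rw [coeff_sub, one_def, coeff_single, coeff_single, Finsupp.sub_apply,
        Finsupp.single_apply, Finsupp.single_apply, coeff_zero] at h1
      simp at h1
    have hkill1 : ∀ (u : ℤ × ℤ) (g : GR ℚ) (κ : ℚ), (∀ z, Ac ℚ g c z = κ) →
        Ac ℚ (dl ℚ u * g) c = 0 := by
      intro u g κ h
      rw [Ac_mul, Ac_dl_eq_zero]
      intro z
      rw [h, h]
    obtain ⟨L, hL⟩ := exists_minKill (ks_rat (dl ℚ (1, 0) * f) (mul_ne_zero hdl hf0) hc
      (hkill1 _ f κ hκ))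
    have hL2 := hL.two_le hn
    obtain ⟨u, L1, rfl⟩ : ∃ u L1, L = u ::ₘ L1 := by
      obtain ⟨u, hu⟩ := Multiset.card_pos_iff_exists_mem.1 (by omega : 0 < L.card)
      exact ⟨u, L.erase u, (Multiset.cons_erase hu).symm⟩
    rw [Multiset.card_cons] at hL2
    obtain ⟨w, L2, rfl⟩ : ∃ w L2, L1 = w ::ₘ L2 := by
      obtain ⟨w, hw⟩ := Multiset.card_pos_iff_exists_mem.1 (by omega : 0 < L1.card)
      exact ⟨w, L1.erase w, (Multiset.cons_erase hw).symm⟩
    rcases Nat.eq_zero_or_pos L2.card with hL0 | hL3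
    · rw [Multiset.card_eq_zero] at hL0
      subst hL0
      have := rat_two hc hn hL hD
      have := finrank_rel_le c D
      omega
    · -- at least three difference operators
      have hu : u ≠ 0 := hL.ne u (by simp)
      set e := Ac ℚ (dp ℚ (w ::ₘ L2)) c with he
      have hek : Ac ℚ (dl ℚ u) e = 0 := by
        rw [he, ← Ac_mul, ← dp_cons]
        exact hL.kill
      obtain ⟨v, π, hv, hdeg, h0, hdvdu, hdvd⟩ :=
        exists_factor (Ac_finite_range _ hc) hu hek (hL.not_dp hc)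
      have hdvd' : ∀ f ∈ Rel c D, pol v π ∣ f := by
        intro f hf
        obtain ⟨_, κ, hκ⟩ := mem_Rel.1 hf
        apply hdvd
        rw [← Ac_mul, dp_cons]
        have : f * (dl ℚ w * dp ℚ L2) = dp ℚ L2 * (dl ℚ w * f) := by ring
        rw [this, Ac_mul, hkill1 w f κ hκ, map_zero]
      have hDne : D.Nonempty := by
        rw [Finset.nonempty_iff_ne_empty]
        rintro rfl
        apply hf0
        rw [← coeff_eq_zero]
        ext s
        rw [Finsupp.zero_apply]
        by_contra h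
        exact absurd (hfs s h) (Finset.notMem_empty s)
      have hn' : ¬ Per (Ac ℚ (pol v π) c) := by
        rintro ⟨p, hp, hper⟩
        have h1 : Ac ℚ (dl ℚ p * pol v π) c = 0 := by
          rw [Ac_mul, Ac_dl_eq_zero]
          exact hper
        have h2 : Ac ℚ (dl ℚ p * dl ℚ u) c = 0 :=
          Ac_kill_of_dvd (mul_dvd_mul_left _ hdvdu) h1
        have h3 := hL.min (p ::ₘ u ::ₘ 0) (by
          intro x hx
          simp only [Multiset.mem_cons, Multiset.notMem_zero, or_false] at hx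
          rcases hx with rfl | rfl
          · exact hp
          · exact hu) (by rw [dp_cons, dp_cons, dp_zero, mul_one]; exact h2)
        simp only [Multiset.card_cons, Multiset.card_zero] at h3
        omega
      have h1 := IH _ (by rw [← hcard]; exact erode_card hDne hdeg hv) (Ac ℚ (pol v π) c)
        (Ac_finite_range _ hc) hn' _ (erode_convex hD π.natDegree v) rfl
      have h2 := erode_pat hc hD hv π
      have h3 := erode_rel hD hv h0 hdvd'
      omega

/-- The half bound for all convex windows. -/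
theorem half_bound {A : Type*} [Finite A] (c : ℤ × ℤ → A) (D : Finset (ℤ × ℤ)) (hD : LatConvex D)
    (hc : 2 * (patSet c D).ncard ≤ D.card + 1) : Per c := by
  by_contra hn
  obtain ⟨e, he⟩ : ∃ e : A → ℚ, Function.Injective e := by
    obtain ⟨n, ⟨e⟩⟩ := Finite.exists_equiv_fin A
    refine ⟨fun a => ((e a : ℕ) : ℚ), fun a b hab => e.injective (Fin.ext ?_)⟩
    have hab' : ((e a : ℕ) : ℚ) = ((e b : ℕ) : ℚ) := hab
    exact_mod_cast hab'
  have hfin : (Set.range fun z => e (c z)).Finite :=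
    (Set.finite_range e).subset (by rintro _ ⟨z, rfl⟩; exact ⟨c z, rfl⟩)
  have hn' : ¬ Per (fun z => e (c z)) := by
    rintro ⟨p, hp, h⟩
    exact hn ⟨p, hp, fun x => he (h x)⟩
  have hpat := patSet_comp e he c D
  have h1 := rel_bound D.card (fun z => e (c z)) hfin hn' D hD rfl
  have h2 := rel_lower hfin D
  omega

end Pool.Agent.Helper58.Nivat
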