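import Mathlib

/-!
Windows, patterns and changes of coordinates.
-/

namespace Pool.Agent.Helper58.Nivat

/-- The set of `D`-patterns of `c`. -/
def patSet {A : Type*} (c : ℤ × ℤ → A) (D : Finset (ℤ × ℤ)) : Set (D → A) :=
  Set.range fun t : ℤ × ℤ => fun d : D => c (t + (d : ℤ × ℤ))

/-- A window which is the set of the integer points of a convex set. -/
def LatConvex (D : Finset (ℤ × ℤ)) : Prop :=
  ∃ K : Set (ℝ × ℝ), Convex ℝ K ∧ ∀ z : ℤ × ℤ, z ∈ D ↔ ((z.1 : ℝ), (z.2 : ℝ)) ∈ K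

section Pat

variable {A : Type*} [Finite A]

theorem patSet_finite (c : ℤ × ℤ → A) (D : Finset (ℤ × ℤ)) : (patSet c D).Finite := Set.toFinite _

omit [Finite A] in
theorem patSet_image (c : ℤ × ℤ → A) {E D : Finset (ℤ × ℤ)} (h : E ⊆ D) :
    (fun w : D → A => fun e : E => w ⟨e, h e.2⟩) '' patSet c D = patSet c E := by
  ext w
  constructor
  · rintro ⟨_, ⟨t, rfl⟩, rfl⟩; exact ⟨t, rfl⟩
  · rintro ⟨t, rfl⟩; exact ⟨_, ⟨t, rfl⟩, rfl⟩

/-- Unique extension. -/
theorem unique_ext (c : ℤ × ℤ → A) {E D : Finset (ℤ × ℤ)} (h : E ⊆ D)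
    (hcard : (patSet c D).ncard ≤ (patSet c E).ncard) (z z' : ℤ × ℤ)
    (hzz : ∀ e ∈ E, c (z + e) = c (z' + e)) : ∀ d ∈ D, c (z + d) = c (z' + d) := by
  have hinj : Set.InjOn (fun w : D → A => fun e : E => w ⟨e, h e.2⟩) (patSet c D) := by
    rw [← Set.ncard_image_iff (patSet_finite c D), patSet_image c h]
    refine le_antisymm ?_ hcard
    rw [← patSet_image c h]
    exact Set.ncard_image_le (patSet_finite c D)
  intro d hd
  have m1 : (fun d : D => c (z + (d : ℤ × ℤ))) ∈ patSet c D := ⟨z, rfl⟩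
  have m2 : (fun d : D => c (z' + (d : ℤ × ℤ))) ∈ patSet c D := ⟨z', rfl⟩
  have h1 := hinj m1 m2 (by funext e; exact hzz e e.2)
  exact congrFun h1 ⟨d, hd⟩

/-- Counting of extensions. -/
theorem count_ext {α β : Type*} {S : Set β} (hS : S.Finite) (f : β → α) {E : Set α}
    (hE : ∀ w ∈ E, ∃ p1 ∈ S, ∃ p2 ∈ S, f p1 = w ∧ f p2 = w ∧ p1 ≠ p2) :
    (f '' S).ncard + E.ncard ≤ S.ncard := by
  classical
  rcases S.eq_empty_or_nonempty with rfl | ⟨s0, hs0⟩
  · have : E = ∅ := by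
      rw [Set.eq_empty_iff_forall_notMem]
      intro w hw
      obtain ⟨p, hp, _⟩ := hE w hw
      exact hp
    simp [this]
  have : Nonempty β := ⟨s0⟩
  have h1 : ∀ w ∈ f '' S, ∃ p ∈ S, f p = w := fun w hw => hw
  choose! s hs hfs using h1
  have h2 : ∀ w ∈ E, ∃ p ∈ S, f p = w ∧ p ≠ s w := by
    intro w hw
    obtain ⟨p1, hp1, p2, hp2, e1, e2, hne⟩ := hE w hw
    by_cases h : p1 = s w
    · exact ⟨p2, hp2, e2, fun h' => hne (h.trans h'.symm)⟩
    · exact ⟨p1, hp1, e1, h⟩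
  choose! s' hs' hfs' hne using h2
  have i1 : Set.InjOn s (f '' S) := fun x hx y hy hxy => by rw [← hfs x hx, hxy, hfs y hy]
  have i2 : Set.InjOn s' E := fun x hx y hy hxy => by rw [← hfs' x hx, hxy, hfs' y hy]
  have hd : Disjoint (s '' (f '' S)) (s' '' E) := by
    rw [Set.disjoint_left]
    rintro _ ⟨x, hx, rfl⟩ ⟨y, hy, hxy⟩
    have : y = x := by rw [← hfs' y hy, hxy, hfs x hx]
    subst this
    exact hne y hy hxy
  have s1 : s '' (f '' S) ⊆ S := by rintro _ ⟨x, hx, rfl⟩; exact hs x hx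
  have s2 : s' '' E ⊆ S := by rintro _ ⟨x, hx, rfl⟩; exact hs' x hx
  calc (f '' S).ncard + E.ncard = (s '' (f '' S)).ncard + (s' '' E).ncard := by
        rw [i1.ncard_image, i2.ncard_image]
    _ = (s '' (f '' S) ∪ s' '' E).ncard :=
        (Set.ncard_union_eq hd (hS.subset s1) (hS.subset s2)).symm
    _ ≤ S.ncard := Set.ncard_le_ncard (Set.union_subset s1 s2) hS

omit [Finite A] in
/-- Invariance of the number of patterns under automorphisms of the lattice. -/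
theorem patSet_transport (c : ℤ × ℤ → A) (Φ : (ℤ × ℤ) ≃+ (ℤ × ℤ)) {D D' : Finset (ℤ × ℤ)}
    (hD : ∀ z, z ∈ D' ↔ Φ z ∈ D) :
    (patSet (fun z => c (Φ z)) D').ncard = (patSet c D).ncard := by
  classical
  let e : D' → D := fun d => ⟨Φ d, (hD d).1 d.2⟩
  have he : Function.Surjective e := by
    intro d
    refine ⟨⟨Φ.symm d, (hD _).2 (by simp)⟩, ?_⟩
    apply Subtype.ext
    simp [e]
  have himg : (fun w : D → A => fun d : D' => w (e d)) '' patSet c D =
      patSet (fun z => c (Φ z)) D' := by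
    ext w
    constructor
    · rintro ⟨_, ⟨t, rfl⟩, rfl⟩
      refine ⟨Φ.symm t, ?_⟩
      funext d
      simp [e]
    · rintro ⟨t, rfl⟩
      refine ⟨_, ⟨Φ t, rfl⟩, ?_⟩
      funext d
      simp [e]
  rw [← himg]
  apply Set.ncard_image_of_injective
  intro w w' h
  funext d
  obtain ⟨d', rfl⟩ := he d
  exact congrFun h d'

end Pat

/-- Convexity is invariant under automorphisms of the lattice. -/
theorem LatConvex.transport (Φ : (ℤ × ℤ) ≃+ (ℤ × ℤ)) {D D' : Finset (ℤ × ℤ)}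
    (hD : ∀ z, z ∈ D' ↔ Φ z ∈ D) (h : LatConvex D) : LatConvex D' := by
  obtain ⟨K, hK, hDK⟩ := h
  set L : ℝ × ℝ →ₗ[ℝ] ℝ × ℝ :=
    { toFun := fun w => (((Φ (1, 0)).1 : ℝ) * w.1 + ((Φ (0, 1)).1 : ℝ) * w.2,
        ((Φ (1, 0)).2 : ℝ) * w.1 + ((Φ (0, 1)).2 : ℝ) * w.2)
      map_add' := by
        intro x y
        apply Prod.ext <;> simp <;> ring
      map_smul' := by
        intro a x
        apply Prod.ext <;> simp <;> ring } with hL
  refine ⟨L ⁻¹' K, hK.linear_preimage L, fun z => ?_⟩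
  rw [hD, hDK]
  have h1 : Φ z = z.1 • Φ (1, 0) + z.2 • Φ (0, 1) := by
    rw [← map_zsmul, ← map_zsmul, ← map_add]
    congr 1
    apply Prod.ext <;> simp
  have h2 : (((Φ z).1 : ℝ), ((Φ z).2 : ℝ)) = L ((z.1 : ℝ), (z.2 : ℝ)) := by
    rw [h1]
    apply Prod.ext
    · simp [hL]; ring
    · simp [hL]; ring
  rw [h2]
  rfl

/-- The window cut by a convex set. -/
theorem LatConvex.filter {D : Finset (ℤ × ℤ)} (h : LatConvex D) {H : Set (ℝ × ℝ)}
    (hH : Convex ℝ H) {E : Finset (ℤ × ℤ)}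
    (hE : ∀ z : ℤ × ℤ, z ∈ E ↔ z ∈ D ∧ ((z.1 : ℝ), (z.2 : ℝ)) ∈ H) : LatConvex E := by
  obtain ⟨K, hK, hDK⟩ := h
  refine ⟨K ∩ H, hK.inter hH, fun z => ?_⟩
  rw [hE, hDK]
  rfl

/-- Lexicographic half-planes are convex. -/
theorem convex_lex (a b : ℝ) : Convex ℝ {w : ℝ × ℝ | w.2 < b ∨ (w.2 = b ∧ w.1 < a)} := by
  intro x hx y hy s t hs ht hst
  simp only [Set.mem_ofPred_eq] at *
  simp only [Prod.fst_add, Prod.snd_add, Prod.smul_fst, Prod.smul_snd, smul_eq_mul]
  rcases eq_or_lt_of_le hs with hs0 | hs0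
  · have : t = 1 := by linarith
    subst this
    rw [← hs0]
    simpa using hy
  rcases eq_or_lt_of_le ht with ht0 | ht0
  · have : s = 1 := by linarith
    subst this
    rw [← ht0]
    simpa using hx
  rcases hx with hx | ⟨hx, hx'⟩
  · left
    have hy' : y.2 ≤ b := by
      rcases hy with hy | ⟨hy, _⟩
      · exact hy.le
      · exact hy.le
    have h1 : s * x.2 < s * b := mul_lt_mul_of_pos_left hx hs0
    have h2 : t * y.2 ≤ t * b := mul_le_mul_of_nonneg_left hy' ht0.le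
    have h3 : s * b + t * b = b := by rw [← add_mul, hst, one_mul]
    linarith
  · rcases hy with hy | ⟨hy, hy'⟩
    · left
      have h1 : t * y.2 < t * b := mul_lt_mul_of_pos_left hy ht0
      have h3 : s * b + t * b = b := by rw [← add_mul, hst, one_mul]
      rw [hx]
      linarith
    · right
      constructor
      · rw [hx, hy, ← add_mul, hst, one_mul]
      · have h1 : s * x.1 < s * a := mul_lt_mul_of_pos_left hx' hs0
        have h2 : t * y.1 < t * a := mul_lt_mul_of_pos_left hy' ht0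
        have h3 : s * a + t * a = a := by rw [← add_mul, hst, one_mul]
        linarith

theorem convex_lex' (a b : ℝ) : Convex ℝ {w : ℝ × ℝ | w.2 < b ∨ (w.2 = b ∧ a < w.1)} := by
  have h := convex_lex (-a) b
  set L : ℝ × ℝ →ₗ[ℝ] ℝ × ℝ :=
    { toFun := fun w => (-w.1, w.2)
      map_add' := by
        intro x y
        apply Prod.ext
        · simp; ring
        · simp
      map_smul' := by
        intro a x
        apply Prod.ext
        · simp
        · simp } with hL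
  have h2 := h.linear_preimage L
  have e : {w : ℝ × ℝ | w.2 < b ∨ (w.2 = b ∧ a < w.1)} =
      L ⁻¹' {w : ℝ × ℝ | w.2 < b ∨ (w.2 = b ∧ w.1 < -a)} := by
    refine Set.ext fun w => ?_
    have e1 : w ∈ L ⁻¹' {w : ℝ × ℝ | w.2 < b ∨ (w.2 = b ∧ w.1 < -a)} ↔
      (w.2 < b ∨ (w.2 = b ∧ -w.1 < -a)) := Iff.rfl
    rw [e1, Set.mem_ofPred_eq, neg_lt_neg_iff]
  rw [e]
  exact h2

end Pool.Agent.Helper58.Nivat
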