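import Pool.Agent.Helper58.Nivat.Shear

/-!
The induction step.
-/

open Polynomial

namespace Pool.Agent.Helper58.Nivat

theorem row_interval {D : Finset (ℤ × ℤ)} (hD : LatConvex D) (y : ℤ) :
    ∃ (α : ℤ) (a : ℕ), ∀ t : ℤ, (t, y) ∈ D ↔ α ≤ t ∧ t < α + a := by
  obtain ⟨K, hK, hDK⟩ := hD
  obtain ⟨α, a, h⟩ := line_interval D K hK hDK (p := 0) (q := 1) (Or.inr one_ne_zero) (0, y)
  refine ⟨α, a, fun t => ?_⟩
  have := h t
  simpa using this

/-- Intermediate rows of a convex window are long. -/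
theorem row_cells {D : Finset (ℤ × ℤ)} (hD : LatConvex D) {y0 y1 y xb xl : ℤ} {t : ℕ} (ht : 2 ≤ t)
    (h0 : y0 ≤ y) (h1 : y < y1) (hb0 : (xb, y0) ∈ D) (hb1 : (xb + (t - 1 : ℕ), y0) ∈ D)
    (hl0 : (xl, y1) ∈ D) (hl1 : (xl + (t - 1 : ℕ), y1) ∈ D) :
    ∃ x : ℤ, ∀ s : ℕ, s < t - 1 → (x + s, y) ∈ D := by
  obtain ⟨K, hK, hDK⟩ := hD
  rw [hDK] at hb0 hb1 hl0 hl1
  have h01 : (0 : ℝ) < (y1 : ℝ) - y0 := by
    have : (y0 : ℝ) < y1 := by exact_mod_cast h0.trans_lt h1
    linarith
  have ht1 : (0 : ℝ) < ((t - 1 : ℕ) : ℝ) := by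
    have : 0 < t - 1 := by omega
    exact_mod_cast this
  set lam : ℝ := ((y : ℝ) - y0) / (y1 - y0) with hlam
  have hlam0 : 0 ≤ lam := by
    apply div_nonneg _ h01.le
    have : (y0 : ℝ) ≤ y := by exact_mod_cast h0
    linarith
  have hlam1 : lam ≤ 1 := by
    rw [hlam, div_le_one h01]
    have : (y : ℝ) ≤ y1 := by exact_mod_cast h1.le
    linarith
  set l : ℝ := (1 - lam) * xb + lam * xl with hl
  refine ⟨⌈l⌉, fun s hs => ?_⟩
  rw [hDK]
  have hc1 : l ≤ (⌈l⌉ : ℝ) := Int.le_ceil l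
  have hc2 : (⌈l⌉ : ℝ) < l + 1 := Int.ceil_lt_add_one l
  have hs' : (s : ℝ) + 1 ≤ ((t - 1 : ℕ) : ℝ) := by exact_mod_cast hs
  set mu : ℝ := ((⌈l⌉ : ℝ) + s - l) / ((t - 1 : ℕ) : ℝ) with hmu
  have hmu0 : 0 ≤ mu := by
    apply div_nonneg _ ht1.le
    have : (0 : ℝ) ≤ s := Nat.cast_nonneg s
    linarith
  have hmu1 : mu ≤ 1 := by
    rw [hmu, div_le_one ht1]
    linarith
  have hmut : mu * ((t - 1 : ℕ) : ℝ) = (⌈l⌉ : ℝ) + s - l := by
    rw [hmu]; field_simp
  have hlamy : lam * ((y1 : ℝ) - y0) = (y : ℝ) - y0 := by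
    rw [hlam]; field_simp
  have pb := hK hb0 hb1 (a := 1 - mu) (b := mu) (by linarith) hmu0 (by ring)
  have pv := hK hl0 hl1 (a := 1 - mu) (b := mu) (by linarith) hmu0 (by ring)
  have pp := hK pb pv (a := 1 - lam) (b := lam) (by linarith) hlam0 (by ring)
  convert pp using 1
  apply Prod.ext
  · simp only [Prod.smul_mk, Prod.mk_add_mk, smul_eq_mul]
    push_cast at hmut ⊢
    have e : (1 - lam) * ((1 - mu) * (xb : ℝ) + mu * ((xb : ℝ) + ((t - 1 : ℕ) : ℝ))) +
        lam * ((1 - mu) * (xl : ℝ) + mu * ((xl : ℝ) + ((t - 1 : ℕ) : ℝ))) =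
        l + mu * ((t - 1 : ℕ) : ℝ) := by
      rw [hl]; ring
    rw [e, hmut]
    ring
  · simp only [Prod.smul_mk, Prod.mk_add_mk, smul_eq_mul]
    have e : (1 - lam) * ((1 - mu) * (y0 : ℝ) + mu * (y0 : ℝ)) +
        lam * ((1 - mu) * (y1 : ℝ) + mu * (y1 : ℝ)) = y0 + lam * ((y1 : ℝ) - y0) := by ring
    rw [e, hlamy]
    ring

/-- The rows of a relation. -/
theorem rows_relation (D : Finset (ℤ × ℤ)) (f : ℤ × ℤ → ℤ) (κ : ℤ) (r : ℤ × ℤ → ℤ)
    (hne : ∃ d ∈ D, f d ≠ 0) (hrel : ∀ z, ∑ d ∈ D, f d * r (z + d) + κ = 0) (y0 : ℤ) (h : ℕ)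
    (hy : ∀ d ∈ D, y0 ≤ d.2 ∧ d.2 ≤ y0 + h) :
    ∃ F : ℕ → ℤ[X], (∃ s ≤ h, F s ≠ 0) ∧
      ∀ i j : ℤ, ∑ s ∈ Finset.range (h + 1), act (F s) (fun i => r (i, j + s)) i + κ = 0 := by
  classical
  obtain ⟨x0, hx0⟩ : ∃ x0 : ℤ, ∀ d ∈ D, x0 ≤ d.1 := by
    obtain ⟨d, hd, hne⟩ := hne
    have hneI : (D.image Prod.fst).Nonempty := ⟨d.1, Finset.mem_image_of_mem _ hd⟩
    exact ⟨(D.image Prod.fst).min' hneI, fun d hd => Finset.min'_le _ _ (Finset.mem_image_of_mem _ hd)⟩
  set F : ℕ → ℤ[X] := fun s =>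
    ∑ d ∈ D.filter (fun d => d.2 = y0 + s), C (f d) * X ^ (d.1 - x0).toNat with hF
  have hact : ∀ (s : ℕ) (ρ : ℤ → ℤ) (i : ℤ), act (F s) ρ i =
      ∑ d ∈ D.filter (fun d => d.2 = y0 + s), f d * ρ (i + (d.1 - x0)) := by
    intro s ρ i
    rw [hF]
    unfold act
    rw [map_sum, LinearMap.sum_apply, Finset.sum_apply]
    refine Finset.sum_congr rfl fun d hd => ?_
    rw [map_mul, map_pow, aeval_X, aeval_C, Module.End.mul_apply]
    show (f d) * ((sh 1 ^ (d.1 - x0).toNat) ρ i) = _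
    rw [sh_pow_apply, Int.toNat_of_nonneg (by
      have := hx0 d (Finset.mem_filter.1 hd).1
      omega), mul_one]
  refine ⟨F, ?_, ?_⟩
  · obtain ⟨d, hd, hfd⟩ := hne
    have h1 := hy d hd
    refine ⟨(d.2 - y0).toNat, by omega, ?_⟩
    intro h0
    apply hfd
    have h2 := congrArg (fun g : ℤ[X] => g.coeff (d.1 - x0).toNat) h0
    simp only [hF, finsetSum_coeff, coeff_C_mul, coeff_X_pow, coeff_zero] at h2
    rw [Finset.sum_eq_single d] at h2
    · simpa using h2
    · intro d' hd' hne'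
      rw [if_neg, mul_zero]
      intro h3
      apply hne'
      rw [Finset.mem_filter] at hd'
      have h4 := hx0 d hd
      have h5 := hx0 d' hd'.1
      apply Prod.ext
      · omega
      · have := hd'.2
        omega
    · intro hnot
      exact absurd (Finset.mem_filter.2 ⟨hd, by omega⟩) hnot
  · intro i j
    have h1 := hrel (i - x0, j - y0)
    rw [← h1]
    congr 1
    simp only [hact]
    rw [← Finset.sum_fiberwise_of_maps_to (s := D) (t := Finset.range (h + 1))
      (g := fun d => (d.2 - y0).toNat) (fun d hd => by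
        have := hy d hd
        rw [Finset.mem_range]
        omega)]
    refine Finset.sum_congr rfl fun s hs => ?_
    have hfil : D.filter (fun d => d.2 = y0 + s) = D.filter (fun d => (d.2 - y0).toNat = s) := by
      apply Finset.filter_congr
      intro d hd
      have := hy d hd
      constructor
      · intro h; omega
      · intro h; omega
    rw [hfil]
    refine Finset.sum_congr rfl fun d hd => ?_
    rw [Finset.mem_filter] at hd
    have h2 := hy d hd.1
    congr 2
    apply Prod.ext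
    · show i + (d.1 - x0) = (i - x0) + d.1
      ring
    · show j + (s : ℤ) = (j - y0) + d.2
      have := hd.2
      omega

/-- If sufficiently many consecutive rows are periodic, and the window has low complexity, then the
sheared configuration is periodic. -/
theorem per_of_relation {A : Type*} [Finite A] (c : ℤ × ℤ → A) (hs : Sheared c)
    (D : Finset (ℤ × ℤ)) (hP : (patSet c D).ncard ≤ D.card) (y0 : ℤ) (h : ℕ)
    (hy : ∀ d ∈ D, y0 ≤ d.2 ∧ d.2 ≤ y0 + h) (j0 : ℤ)
    (hper : ∀ s : ℕ, s < h → ∃ T : ℕ, 0 < T ∧ ∀ i, c (i + T, j0 + s) = c (i, j0 + s)) :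
    Per c := by
  classical
  obtain ⟨e, he⟩ : ∃ e : A → ℤ, Function.Injective e := by
    obtain ⟨n, ⟨e⟩⟩ := Finite.exists_equiv_fin A
    refine ⟨fun a => ((e a : ℕ) : ℤ), fun a b hab => e.injective (Fin.ext ?_)⟩
    have hab' : ((e a : ℕ) : ℤ) = ((e b : ℕ) : ℤ) := hab
    exact_mod_cast hab'
  obtain ⟨B, hB⟩ : ∃ B : ℤ, ∀ a, |e a| ≤ B := by
    have hfin : (Set.range fun a => |e a|).Finite := Set.finite_range _
    obtain ⟨B, hB⟩ := hfin.bddAbove
    exact ⟨B, fun a => hB ⟨a, rfl⟩⟩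
  obtain ⟨f, κ, hne, hrel⟩ := exists_relation2 c e D hP
  obtain ⟨F, hF, hrel'⟩ := rows_relation D f κ (fun z => e (c z)) hne hrel y0 h hy
  have hall := rows_of_relation (ρ := fun j i => e (c (i, j))) (B := B) (fun j i => hB _) hF hrel' j0
    (fun s hs => by
      obtain ⟨T, hT, h⟩ := hper s hs
      exact ⟨T, hT, fun i => congrArg e (h i)⟩)
  apply per_of_rows c hs
  intro j
  obtain ⟨T, hT, h⟩ := hall j
  exact ⟨T, hT, fun i => he (h i)⟩

theorem core_step {A : Type*} [Finite A] (c : ℤ × ℤ → A) (hs : Sheared c) (hn : ¬ Per c)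
    (D : Finset (ℤ × ℤ)) (hD : LatConvex D)
    (IH : ∀ E : Finset (ℤ × ℤ), LatConvex E → E.card < D.card → E.card + 1 ≤ (patSet c E).ncard)
    (y0 y1 xb xl : ℤ) (b t : ℕ) (htop : ∀ x, (x, y1) ∈ D ↔ xl ≤ x ∧ x < xl + t)
    (hbot : ∀ x, (x, y0) ∈ D ↔ xb ≤ x ∧ x < xb + b) (hy : ∀ z ∈ D, y0 ≤ z.2 ∧ z.2 ≤ y1)
    (ht : 0 < t) (htb : t ≤ b) : D.card + 1 ≤ (patSet c D).ncard := by
  classical
  by_contra hcon
  have hle : (patSet c D).ncard ≤ D.card := by omega
  have htl : (xl, y1) ∈ D := (htop _).2 ⟨le_rfl, by omega⟩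
  have htr : (xl + (t - 1 : ℕ), y1) ∈ D := (htop _).2 ⟨by omega, by omega⟩
  have h01 : y0 ≤ y1 := (hy _ htl).1
  obtain ⟨h, hh⟩ : ∃ h : ℕ, y1 = y0 + h := ⟨(y1 - y0).toNat, by omega⟩
  obtain ⟨j, j', a, hrows, i0, hi0⟩ := exists_nondet c hs hn h
  -- the three smaller windows
  have hEr : LatConvex (D.erase (xl + (t - 1 : ℕ), y1)) := by
    refine hD.filter (convex_lex ((xl + (t - 1 : ℕ) : ℤ) : ℝ) (y1 : ℝ)) fun z => ?_
    rw [Finset.mem_erase, Set.mem_ofPred_eq]
    simp only [Int.cast_lt, Int.cast_inj]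
    constructor
    · rintro ⟨h1, h2⟩
      refine ⟨h2, ?_⟩
      have h3 := (hy z h2).2
      rcases eq_or_lt_of_le h3 with h4 | h4
      · right
        refine ⟨h4, ?_⟩
        have h5 : (z.1, y1) ∈ D := by rw [← h4]; exact h2
        have h6 := (htop _).1 h5
        have h7 : z.1 ≠ xl + (t - 1 : ℕ) := fun h => h1 (Prod.ext h h4)
        omega
      · left; exact h4
    · rintro ⟨h1, h2⟩
      refine ⟨?_, h1⟩
      rintro rfl
      rcases h2 with h2 | ⟨_, h2⟩
      · exact lt_irrefl _ h2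
      · exact lt_irrefl _ h2
  have hEl : LatConvex (D.erase (xl, y1)) := by
    refine hD.filter (convex_lex' ((xl : ℤ) : ℝ) (y1 : ℝ)) fun z => ?_
    rw [Finset.mem_erase, Set.mem_ofPred_eq]
    simp only [Int.cast_lt, Int.cast_inj]
    constructor
    · rintro ⟨h1, h2⟩
      refine ⟨h2, ?_⟩
      have h3 := (hy z h2).2
      rcases eq_or_lt_of_le h3 with h4 | h4
      · right
        refine ⟨h4, ?_⟩
        have h5 : (z.1, y1) ∈ D := by rw [← h4]; exact h2
        have h6 := (htop _).1 h5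
        have h7 : z.1 ≠ xl := fun h => h1 (Prod.ext h h4)
        omega
      · left; exact h4
    · rintro ⟨h1, h2⟩
      refine ⟨?_, h1⟩
      rintro rfl
      rcases h2 with h2 | ⟨_, h2⟩
      · exact lt_irrefl _ h2
      · exact lt_irrefl _ h2
  set Dm := D.filter (fun z => z.2 < y1) with hDm
  have hDmc : LatConvex Dm := by
    have hconv : Convex ℝ {w : ℝ × ℝ | w.2 < (y1 : ℝ)} := by
      intro x hx y hy' s t' hs' ht' hst
      simp only [Set.mem_ofPred_eq] at *
      simp only [Prod.snd_add, Prod.smul_snd, smul_eq_mul]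
      rcases eq_or_lt_of_le hs' with hs0 | hs0
      · have : t' = 1 := by linarith
        subst this
        rw [← hs0]
        linarith
      · have h1 : s * x.2 < s * (y1 : ℝ) := mul_lt_mul_of_pos_left hx hs0
        have h2 : t' * y.2 ≤ t' * (y1 : ℝ) := mul_le_mul_of_nonneg_left hy'.le ht'
        have h3 : s * (y1 : ℝ) + t' * (y1 : ℝ) = y1 := by rw [← add_mul, hst, one_mul]
        linarith
    refine hD.filter hconv fun z => ?_
    rw [hDm, Finset.mem_filter, Set.mem_ofPred_eq]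
    simp only [Int.cast_lt]
  have hcr : (D.erase (xl + (t - 1 : ℕ), y1)).card = D.card - 1 := Finset.card_erase_of_mem htr
  have hcl : (D.erase (xl, y1)).card = D.card - 1 := Finset.card_erase_of_mem htl
  have hDpos : 0 < D.card := Finset.card_pos.2 ⟨_, htl⟩
  have ir := IH _ hEr (by omega)
  have il := IH _ hEl (by omega)
  have extr := unique_ext c (Finset.erase_subset (xl + ((t - 1 : ℕ) : ℤ), y1) D) (by omega)
  have extl := unique_ext c (Finset.erase_subset (xl, y1) D) (by omega)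
  -- comparison of the two strips
  have hlow : ∀ (k : ℤ) (d : ℤ × ℤ), d ∈ D → d.2 < y1 →
      c ((k + a, j - y0) + d) = c ((k, j' - y0) + d) := by
    intro k d hd hd1
    have h1 := (hy d hd).1
    have h2 := hrows (d.2 - y0).toNat (by omega) (k + d.1)
    have e1 : ((k + a, j - y0) + d : ℤ × ℤ) = (k + d.1 + a, j + ((d.2 - y0).toNat : ℤ)) := by
      apply Prod.ext
      · show k + a + d.1 = k + d.1 + a
        ring
      · show j - y0 + d.2 = j + ((d.2 - y0).toNat : ℤ)
        omega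
    have e2 : ((k, j' - y0) + d : ℤ × ℤ) = (k + d.1, j' + ((d.2 - y0).toNat : ℤ)) := by
      apply Prod.ext
      · rfl
      · show j' - y0 + d.2 = j' + ((d.2 - y0).toNat : ℤ)
        omega
    rw [e1, e2]
    exact h2
  have hup : ∀ (k x : ℤ), (c ((k + a, j - y0) + (x, y1)) = c ((k, j' - y0) + (x, y1))) ↔
      c (k + x + a, j + h) = c (k + x, j' + h) := by
    intro k x
    have e1 : ((k + a, j - y0) + (x, y1) : ℤ × ℤ) = (k + x + a, j + h) := by
      apply Prod.ext
      · show k + a + x = k + x + a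
        ring
      · show j - y0 + y1 = j + h
        omega
    have e2 : ((k, j' - y0) + (x, y1) : ℤ × ℤ) = (k + x, j' + h) := by
      apply Prod.ext
      · rfl
      · show j' - y0 + y1 = j' + h
        omega
    rw [e1, e2]
  have cr : ∀ m : ℤ, (∀ s : ℕ, s < t - 1 → c (m + s + a, j + h) = c (m + s, j' + h)) →
      c (m + (t - 1 : ℕ) + a, j + h) = c (m + (t - 1 : ℕ), j' + h) := by
    intro m hm
    have h1 := extr (m - xl + a, j - y0) (m - xl, j' - y0) (by
      intro e he
      rw [Finset.mem_erase] at he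
      have h3 := (hy e he.2).2
      rcases eq_or_lt_of_le h3 with h4 | h4
      · have h5 : (e.1, y1) ∈ D := by rw [← h4]; exact he.2
        have h6 := (htop _).1 h5
        have h7 : e.1 ≠ xl + (t - 1 : ℕ) := fun h => he.1 (Prod.ext h h4)
        have h8 : e = (e.1, y1) := Prod.ext rfl h4
        rw [h8, hup]
        have h9 := hm (e.1 - xl).toNat (by omega)
        have e3 : m + ((e.1 - xl).toNat : ℤ) = m - xl + e.1 := by omega
        rw [e3] at h9
        exact h9
      · exact hlow _ _ he.2 h4) _ htr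
    rw [hup] at h1
    have e3 : m - xl + (xl + ((t - 1 : ℕ) : ℤ)) = m + ((t - 1 : ℕ) : ℤ) := by ring
    rw [e3] at h1
    exact h1
  have cl : ∀ m : ℤ, (∀ s : ℕ, s < t - 1 → c (m + s + a, j + h) = c (m + s, j' + h)) →
      c (m - 1 + a, j + h) = c (m - 1, j' + h) := by
    intro m hm
    have h1 := extl (m - 1 - xl + a, j - y0) (m - 1 - xl, j' - y0) (by
      intro e he
      rw [Finset.mem_erase] at he
      have h3 := (hy e he.2).2
      rcases eq_or_lt_of_le h3 with h4 | h4
      · have h5 : (e.1, y1) ∈ D := by rw [← h4]; exact he.2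
        have h6 := (htop _).1 h5
        have h7 : e.1 ≠ xl := fun h => he.1 (Prod.ext h h4)
        have h8 : e = (e.1, y1) := Prod.ext rfl h4
        rw [h8, hup]
        have h9 := hm (e.1 - xl - 1).toNat (by omega)
        have e3 : m + ((e.1 - xl - 1).toNat : ℤ) = m - 1 - xl + e.1 := by omega
        rw [e3] at h9
        exact h9
      · exact hlow _ _ he.2 h4) _ htl
    rw [hup] at h1
    have e3 : m - 1 - xl + xl = m - 1 := by ring
    rw [e3] at h1
    exact h1
  have hG : ∀ m : ℤ, ¬ ∀ s : ℕ, s < t - 1 → c (m + s + a, j + h) = c (m + s, j' + h) := by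
    intro m0 hm0
    have hall := int_two_sided
      (P := fun m : ℤ => ∀ s : ℕ, s < t - 1 → c (m + s + a, j + h) = c (m + s, j' + h)) m0 hm0
      (fun m hm s hs => by
        by_cases h1 : s + 1 < t - 1
        · have := hm (s + 1) h1
          have e : m + ((s + 1 : ℕ) : ℤ) = m + 1 + s := by push_cast; ring
          rw [e] at this
          exact this
        · have := cr m hm
          have e : m + ((t - 1 : ℕ) : ℤ) = m + 1 + s := by omega
          rw [e] at this
          exact this)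
      (fun m hm s hs => by
        rcases Nat.eq_zero_or_pos s with rfl | h1
        · have := cl m hm
          simpa using this
        · have := hm (s - 1) (by omega)
          have e : m + ((s - 1 : ℕ) : ℤ) = m - 1 + s := by omega
          rw [e] at this
          exact this)
    apply hi0
    have := cr (i0 - (t - 1 : ℕ)) (hall _)
    rw [sub_add_cancel] at this
    exact this
  have ht2 : 2 ≤ t := by
    by_contra hlt
    exact hG 0 (fun s hs => by omega)
  -- the patterns in the strip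
  set E : Set (Dm → A) := Set.range fun k : ℤ => fun d : Dm => c ((k + a, j - y0) + (d : ℤ × ℤ))
    with hE
  have hsub : Dm ⊆ D := Finset.filter_subset _ _
  have hcount := count_ext (patSet_finite c D)
    (fun w : D → A => fun e : Dm => w ⟨e, hsub e.2⟩) (E := E) (by
      rintro _ ⟨k, rfl⟩
      refine ⟨_, ⟨(k + a, j - y0), rfl⟩, _, ⟨(k, j' - y0), rfl⟩, rfl, ?_, ?_⟩
      · funext d
        exact (hlow k d (hsub d.2) (Finset.mem_filter.1 d.2).2).symm
      · intro hEq
        apply hG (k + xl)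
        intro s hs
        have hmem : (xl + (s : ℤ), y1) ∈ D := (htop _).2 ⟨by omega, by omega⟩
        have h1 := congrFun hEq ⟨_, hmem⟩
        have h2 := (hup k (xl + s)).1 h1
        have e3 : k + (xl + (s : ℤ)) = k + xl + s := by ring
        rw [e3] at h2
        exact h2)
  rw [patSet_image c hsub] at hcount
  have hcardD : D.card = Dm.card + t := by
    have h1 : Dm.card + (D.filter (fun z => ¬ z.2 < y1)).card = D.card :=
      Finset.card_filter_add_card_filter_not (s := D) (fun z : ℤ × ℤ => z.2 < y1)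
    have h2 : (D.filter (fun z => ¬ z.2 < y1)) =
        (Finset.Ico xl (xl + t)).image (fun x => (x, y1)) := by
      ext z
      rw [Finset.mem_filter, Finset.mem_image]
      constructor
      · rintro ⟨hz, hz1⟩
        have h3 := (hy z hz).2
        have h4 : z.2 = y1 := by omega
        have h5 : (z.1, y1) ∈ D := by rw [← h4]; exact hz
        exact ⟨z.1, Finset.mem_Ico.2 ((htop _).1 h5), Prod.ext rfl h4.symm⟩
      · rintro ⟨x, hx, rfl⟩
        exact ⟨(htop _).2 (Finset.mem_Ico.1 hx), lt_irrefl _⟩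
    have h3 : (D.filter (fun z => ¬ z.2 < y1)).card = t := by
      rw [h2, Finset.card_image_of_injective _ (fun x y hxy => congrArg Prod.fst hxy), Int.card_Ico]
      omega
    omega
  have hIm := IH Dm hDmc (by omega)
  have hEcard : E.ncard ≤ t - 1 := by omega
  -- the rows of the strip are periodic
  have hrowper : ∀ s : ℕ, s < h → ∃ T : ℕ, 0 < T ∧ ∀ i, c (i + T, j + s) = c (i, j + s) := by
    intro s hs
    by_contra hnot
    have hmh := morse_hedlund_one (fun i => c (i, j + s)) hnot (t - 1)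
    obtain ⟨x, hx⟩ := row_cells hD (y := y0 + s) ht2 (by omega) (by omega)
      ((hbot xb).2 ⟨le_rfl, by omega⟩) ((hbot _).2 ⟨by omega, by omega⟩) htl htr
    have hx' : ∀ τ : Fin (t - 1), (x + ((τ : ℕ) : ℤ), y0 + (s : ℤ)) ∈ Dm := by
      intro τ
      rw [hDm, Finset.mem_filter]
      refine ⟨hx τ τ.2, ?_⟩
      show y0 + (s : ℤ) < y1
      omega
    have hEf : E.Finite := Set.toFinite _
    have hsub2 : (Set.range fun i : ℤ => fun τ : Fin (t - 1) => c (i + ((τ : ℕ) : ℤ), j + s)) ⊆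
        (fun w : Dm → A => fun τ : Fin (t - 1) => w ⟨_, hx' τ⟩) '' E := by
      rintro _ ⟨i, rfl⟩
      refine ⟨_, ⟨i - a - x, rfl⟩, ?_⟩
      funext τ
      show c ((i - a - x + a, j - y0) + (x + ((τ : ℕ) : ℤ), y0 + (s : ℤ))) = _
      congr 1
      apply Prod.ext
      · show i - a - x + a + (x + ((τ : ℕ) : ℤ)) = i + ((τ : ℕ) : ℤ)
        ring
      · show j - y0 + (y0 + (s : ℤ)) = j + s
        ring
    have h1 := Set.ncard_le_ncard hsub2 (hEf.image _)
    have h2 := Set.ncard_image_le (f := fun w : Dm → A => fun τ : Fin (t - 1) => w ⟨_, hx' τ⟩) hEf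
    omega
  exact hn (per_of_relation c hs D hle y0 h (fun d hd => by
    have := hy d hd
    omega) j hrowper)

end Pool.Agent.Helper58.Nivat
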