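import Pool.Agent.Helper58.Nivat.Core

/-!
Sums of two periodic configurations.
-/

namespace Pool.Agent.Helper58.Nivat

/-- Sheared configurations which are not periodic have high complexity with respect to every convex
window. -/
theorem sheared_high {A : Type*} [Finite A] (n : ℕ) : ∀ (c : ℤ × ℤ → A), Sheared c → ¬ Per c →
    ∀ D : Finset (ℤ × ℤ), LatConvex D → D.card = n → D.card + 1 ≤ (patSet c D).ncard := by
  classical
  induction n using Nat.strong_induction_on with
  | _ n IH =>
    intro c hs hn D hD hc
    rcases D.eq_empty_or_nonempty with rfl | hne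
    · have h1 : (patSet c ∅).Nonempty := Set.range_nonempty _
      have h2 := (Set.ncard_pos (patSet_finite c ∅)).2 h1
      rw [Finset.card_empty]
      omega
    -- the top and the bottom row
    have hneI : (D.image Prod.snd).Nonempty := hne.image _
    obtain ⟨z1, hz1, e1⟩ := Finset.mem_image.1 (Finset.max'_mem _ hneI)
    obtain ⟨z0, hz0, e0⟩ := Finset.mem_image.1 (Finset.min'_mem _ hneI)
    have hy : ∀ z ∈ D, z0.2 ≤ z.2 ∧ z.2 ≤ z1.2 := fun z hz => by
      rw [e0, e1]
      exact ⟨Finset.min'_le _ _ (Finset.mem_image_of_mem _ hz),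
        Finset.le_max' _ _ (Finset.mem_image_of_mem _ hz)⟩
    obtain ⟨xl, t, htop⟩ := row_interval hD z1.2
    obtain ⟨xb, b, hbot⟩ := row_interval hD z0.2
    have ht : 0 < t := by
      have := (htop z1.1).1 hz1
      omega
    have hb : 0 < b := by
      have := (hbot z0.1).1 hz0
      omega
    by_cases htb : t ≤ b
    · exact core_step c hs hn D hD (fun E hE hcard => IH E.card (by omega) c hs hn E hE rfl)
        z0.2 z1.2 xb xl b t htop hbot hy ht htb
    · -- reflection
      set D' : Finset (ℤ × ℤ) := D.map (Equiv.neg (ℤ × ℤ)).toEmbedding with hD'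
      have hmem : ∀ z, z ∈ D' ↔ -z ∈ D := by
        intro z
        rw [hD', Finset.mem_map_equiv]
        rfl
      have hcard : D'.card = D.card := Finset.card_map _
      have hpat : (patSet (fun z => c (-z)) D').ncard = (patSet c D).ncard :=
        patSet_transport c (AddEquiv.neg (ℤ × ℤ)) hmem
      have hconv : LatConvex D' := LatConvex.transport (AddEquiv.neg (ℤ × ℤ)) hmem hD
      have hn' : ¬ Per (fun z => c (-z)) := by
        rintro ⟨v, hv, hper⟩
        apply hn
        refine ⟨-v, neg_ne_zero.2 hv, fun x => ?_⟩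
        have := hper (-x)
        have e3 : -(-x + v) = x + -v := by rw [neg_add, neg_neg]
        simp only [e3, neg_neg] at this
        exact this
      have := core_step (fun z => c (-z)) hs.neg hn' D' hconv
        (fun E hE hcard' => IH E.card (by omega) _ hs.neg hn' E hE rfl)
        (-z1.2) (-z0.2) (-xl - t + 1) (-xb - b + 1) t b
        (fun x => by
          rw [hmem]
          have e3 : (-(x, -z0.2) : ℤ × ℤ) = (-x, z0.2) := by
            apply Prod.ext
            · rfl
            · exact neg_neg _
          rw [e3, hbot]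
          constructor <;> rintro ⟨h1, h2⟩ <;> constructor <;> omega)
        (fun x => by
          rw [hmem]
          have e3 : (-(x, -z1.2) : ℤ × ℤ) = (-x, z1.2) := by
            apply Prod.ext
            · rfl
            · exact neg_neg _
          rw [e3, htop]
          constructor <;> rintro ⟨h1, h2⟩ <;> constructor <;> omega)
        (fun z hz => by
          rw [hmem] at hz
          have h1 := hy _ hz
          have e3 : (-z).2 = -z.2 := rfl
          rw [e3] at h1
          constructor <;> omega)
        hb (by omega)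
      omega

theorem per_transport {A : Type*} {c : ℤ × ℤ → A} (Φ : (ℤ × ℤ) ≃+ (ℤ × ℤ))
    (h : Per fun z => c (Φ z)) : Per c := by
  obtain ⟨v, hv, hper⟩ := h
  refine ⟨Φ v, ?_, fun x => ?_⟩
  · intro h0
    apply hv
    rwa [map_eq_zero_iff _ Φ.injective] at h0
  · have := hper (Φ.symm x)
    simpa using this

theorem finite_range_of_factor {X Y T : Type*} [Finite T] (R : X → Y) (f : X → T)
    (h : ∀ x x', f x = f x' → R x = R x') : (Set.range R).Finite := by
  classical
  rcases isEmpty_or_nonempty X with hX | ⟨⟨x0⟩⟩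
  · have : Set.range R = ∅ := Set.range_eq_empty R
    rw [this]; exact Set.finite_empty
  · refine (Set.finite_range (fun t : T => if h : ∃ x, f x = t then R h.choose else R x0)).subset ?_
    rintro _ ⟨x, rfl⟩
    have hex : ∃ x', f x' = f x := ⟨x, rfl⟩
    refine ⟨f x, ?_⟩
    show (if h : ∃ x', f x' = f x then R h.choose else R x0) = R x
    rw [dif_pos hex]
    exact h _ _ hex.choose_spec

/-- Sums of two configurations with periods in the horizontal direction and in another one. -/
theorem sheared_of_sum {A G : Type*} [Finite A] [AddCommGroup G] (c : ℤ × ℤ → A) (e : A → G)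
    (he : Function.Injective e) (c₁ c₂ : ℤ × ℤ → G) (hsum : ∀ z, e (c z) = c₁ z + c₂ z)
    {N : ℕ} (hN : 0 < N) {σ P : ℤ} (hP : 0 < P) (h₁ : ∀ z, c₁ (z + ((N : ℤ), 0)) = c₁ z)
    (h₂ : ∀ z, c₂ (z + (σ, P)) = c₂ z) : Sheared c := by
  refine ⟨σ, P, hP, ?_⟩
  have hr : ∀ j : ℤ, (j % P).toNat < P.toNat := by
    intro j
    have h1 : 0 ≤ j % P := Int.emod_nonneg _ hP.ne'
    have h2 : j % P < P := Int.emod_lt_of_pos _ hP
    omega
  refine finite_range_of_factor _ (fun j : ℤ => ((⟨(j % P).toNat, hr j⟩ : Fin P.toNat),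
    fun i : Fin N => c ((i : ℕ) + σ * (j / P), j))) ?_
  intro j j' hjj
  have h1 : (j % P).toNat = (j' % P).toNat := congrArg (fun x => ((Prod.fst x : Fin P.toNat) : ℕ)) hjj
  have h2 := congrArg Prod.snd hjj
  have h1' : j % P = j' % P := by
    have h3 : 0 ≤ j % P := Int.emod_nonneg _ hP.ne'
    have h4 : 0 ≤ j' % P := Int.emod_nonneg _ hP.ne'
    omega
  -- the second summand
  have hc₂ : ∀ (i k : ℤ), c₂ (i + σ * (k / P), k) = c₂ (i, k % P) := by
    intro i k
    have hp : Function.Periodic c₂ (σ, P) := h₂
    have := hp.zsmul (k / P) (i, k % P)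
    rw [← this]
    congr 1
    apply Prod.ext
    · show i + σ * (k / P) = i + (k / P) * σ
      ring
    · show k = k % P + (k / P) * P
      have := Int.emod_add_mul_ediv k P
      linarith [mul_comm P (k / P)]
  -- the first summand
  have hc₁ : ∀ (k i m : ℤ), c₁ (i + m * N, k) = c₁ (i, k) := by
    intro k i m
    have hp : Function.Periodic c₁ ((N : ℤ), 0) := h₁
    have := hp.zsmul m (i, k)
    rw [← this]
    congr 1
    apply Prod.ext
    · rfl
    · show k = k + m * 0
      ring
  funext i
  apply he
  show e (c (i + σ * (j / P), j)) = e (c (i + σ * (j' / P), j'))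
  have hN' : (0 : ℤ) < N := by exact_mod_cast hN
  have hi : i = (i % N) + (i / N) * N := by
    have := Int.emod_add_mul_ediv i N
    linarith [mul_comm (N : ℤ) (i / N)]
  have h5 := congrFun h2 ⟨(i % N).toNat, by
    have h3 : 0 ≤ i % N := Int.emod_nonneg _ hN'.ne'
    have h4 : i % N < N := Int.emod_lt_of_pos _ hN'
    omega⟩
  have e5 : ((((i % (N : ℤ)).toNat : ℕ)) : ℤ) = i % N := Int.toNat_of_nonneg (Int.emod_nonneg _ hN'.ne')
  simp only [e5] at h5
  have h6 := congrArg e h5
  rw [hsum, hsum, hc₂, hc₂, h1'] at h6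
  have h7 := add_right_cancel h6
  rw [hsum, hsum, hc₂, hc₂, h1']
  congr 1
  have e6 : i + σ * (j / P) = (i % N + σ * (j / P)) + (i / N) * N := by linarith
  have e7 : i + σ * (j' / P) = (i % N + σ * (j' / P)) + (i / N) * N := by linarith
  rw [e6, e7, hc₁, hc₁]
  exact h7

/-- Sums of two periodic configurations satisfy the Sander–Tijdeman conjecture. -/
theorem sum_of_two {A G : Type*} [Finite A] [AddCommGroup G] (c : ℤ × ℤ → A) (e : A → G)
    (he : Function.Injective e) (c₁ c₂ : ℤ × ℤ → G) (hsum : ∀ z, e (c z) = c₁ z + c₂ z)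
    (h₁ : Per c₁) (h₂ : Per c₂) (D : Finset (ℤ × ℤ)) (hD : LatConvex D)
    (hc : (patSet c D).ncard ≤ D.card) : Per c := by
  classical
  obtain ⟨u, hu, hpu⟩ := h₁
  obtain ⟨w, hw, hpw⟩ := h₂
  have hpu' : Function.Periodic c₁ u := hpu
  have hpw' : Function.Periodic c₂ w := hpw
  by_cases hdet : u.1 * w.2 - u.2 * w.1 = 0
  · -- parallel periods
    have hcommon : ∀ (m n : ℤ), m • u = n • w → m • u ≠ 0 → Per c := by
      intro m n hmn hne
      refine ⟨m • u, hne, fun x => he ?_⟩
      rw [hsum, hsum, hpu'.zsmul m x]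
      rw [hmn, hpw'.zsmul n x]
    by_cases h0 : w.1 • u = 0
    · have hw1 : w.1 = 0 := by
        by_contra hne
        apply hu
        rcases smul_eq_zero.1 h0 with h | h
        · exact absurd h hne
        · exact h
      have hw2 : w.2 ≠ 0 := fun h => hw (Prod.ext hw1 h)
      apply hcommon w.2 u.2
      · apply Prod.ext
        · show w.2 * u.1 = u.2 * w.1
          linarith [mul_comm w.2 u.1]
        · show w.2 * u.2 = u.2 * w.2
          ring
      · intro h
        rcases smul_eq_zero.1 h with h | h
        · exact hw2 h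
        · exact hu h
    · apply hcommon w.1 u.1
      · apply Prod.ext
        · show w.1 * u.1 = u.1 * w.1
          ring
        · show w.1 * u.2 = u.1 * w.2
          linarith [mul_comm w.1 u.2]
      · exact h0
  · -- transversal periods
    have hg : 0 < Int.gcd u.1 u.2 := by
      rw [Int.gcd_pos_iff]
      by_contra hcon
      push Not at hcon
      exact hu (Prod.ext hcon.1 hcon.2)
    obtain ⟨a, ha⟩ := Int.gcd_dvd_left u.1 u.2
    obtain ⟨b, hb⟩ := Int.gcd_dvd_right u.1 u.2
    set g : ℤ := (Int.gcd u.1 u.2 : ℤ) with hgdef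
    have hg' : 0 < g := Int.natCast_pos.2 hg
    obtain ⟨α, β, hαβ⟩ : ∃ α β : ℤ, a * α + b * β = 1 := by
      refine ⟨Int.gcdA u.1 u.2, Int.gcdB u.1 u.2, ?_⟩
      have h1 := Int.gcd_eq_gcd_ab u.1 u.2
      apply mul_left_cancel₀ hg'.ne'
      calc g * (a * Int.gcdA u.1 u.2 + b * Int.gcdB u.1 u.2)
          = (g * a) * Int.gcdA u.1 u.2 + (g * b) * Int.gcdB u.1 u.2 := by ring
        _ = u.1 * Int.gcdA u.1 u.2 + u.2 * Int.gcdB u.1 u.2 := by rw [← ha, ← hb]
        _ = g := h1.symm
        _ = g * 1 := by ring
    let Φ : (ℤ × ℤ) ≃+ (ℤ × ℤ) :=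
      { toFun := fun z => (a * z.1 - β * z.2, b * z.1 + α * z.2)
        invFun := fun z => (α * z.1 + β * z.2, -b * z.1 + a * z.2)
        left_inv := by
          intro z
          apply Prod.ext
          · show α * (a * z.1 - β * z.2) + β * (b * z.1 + α * z.2) = z.1
            linear_combination z.1 * hαβ
          · show -b * (a * z.1 - β * z.2) + a * (b * z.1 + α * z.2) = z.2
            linear_combination z.2 * hαβ
        right_inv := by
          intro z
          apply Prod.ext
          · show a * (α * z.1 + β * z.2) - β * (-b * z.1 + a * z.2) = z.1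
            linear_combination z.1 * hαβ
          · show b * (α * z.1 + β * z.2) + α * (-b * z.1 + a * z.2) = z.2
            linear_combination z.2 * hαβ
        map_add' := by
          intro x y
          apply Prod.ext
          · show a * (x.1 + y.1) - β * (x.2 + y.2) = (a * x.1 - β * x.2) + (a * y.1 - β * y.2)
            ring
          · show b * (x.1 + y.1) + α * (x.2 + y.2) = (b * x.1 + α * x.2) + (b * y.1 + α * y.2)
            ring }
    apply per_transport Φ
    set D' : Finset (ℤ × ℤ) := D.map Φ.symm.toEquiv.toEmbedding with hD'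
    have hmem : ∀ z, z ∈ D' ↔ Φ z ∈ D := by
      intro z
      rw [hD', Finset.mem_map_equiv]
      rfl
    have hcard : D'.card = D.card := Finset.card_map _
    have hpat := patSet_transport c Φ hmem
    have hconv : LatConvex D' := hD.transport Φ hmem
    by_contra hn
    have hΦu : ∀ z, Φ (z + (((Int.gcd u.1 u.2 : ℕ) : ℤ), 0)) = Φ z + u := by
      intro z
      apply Prod.ext
      · show a * (z.1 + g) - β * (z.2 + 0) = (a * z.1 - β * z.2) + u.1
        rw [ha]; ring
      · show b * (z.1 + g) + α * (z.2 + 0) = (b * z.1 + α * z.2) + u.2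
        rw [hb]; ring
    have hΦw : ∀ z, Φ (z + (α * w.1 + β * w.2, -b * w.1 + a * w.2)) = Φ z + w := by
      intro z
      apply Prod.ext
      · show a * (z.1 + (α * w.1 + β * w.2)) - β * (z.2 + (-b * w.1 + a * w.2)) =
          (a * z.1 - β * z.2) + w.1
        linear_combination w.1 * hαβ
      · show b * (z.1 + (α * w.1 + β * w.2)) + α * (z.2 + (-b * w.1 + a * w.2)) =
          (b * z.1 + α * z.2) + w.2
        linear_combination w.2 * hαβ
    have hne : -b * w.1 + a * w.2 ≠ 0 := by
      intro h0
      apply hdet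
      have : g * (-b * w.1 + a * w.2) = u.1 * w.2 - u.2 * w.1 := by rw [ha, hb]; ring
      rw [← this, h0, mul_zero]
    have hsh : Sheared fun z => c (Φ z) := by
      have k₁ : ∀ z, (fun z => c₁ (Φ z)) (z + (((Int.gcd u.1 u.2 : ℕ) : ℤ), 0)) =
          (fun z => c₁ (Φ z)) z := by
        intro z
        show c₁ (Φ (z + (((Int.gcd u.1 u.2 : ℕ) : ℤ), 0))) = c₁ (Φ z)
        rw [hΦu, hpu]
      rcases lt_or_gt_of_ne hne with hlt | hgt
      · refine sheared_of_sum (fun z => c (Φ z)) e he (fun z => c₁ (Φ z)) (fun z => c₂ (Φ z))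
          (fun z => hsum _) hg (σ := -(α * w.1 + β * w.2)) (P := -(-b * w.1 + a * w.2))
          (by omega) k₁ ?_
        intro z
        have h3 := hΦw (z + (-(α * w.1 + β * w.2), -(-b * w.1 + a * w.2)))
        have e3 : z + (-(α * w.1 + β * w.2), -(-b * w.1 + a * w.2)) +
            (α * w.1 + β * w.2, -b * w.1 + a * w.2) = z := by
          apply Prod.ext
          · show z.1 + -(α * w.1 + β * w.2) + (α * w.1 + β * w.2) = z.1
            ring
          · show z.2 + -(-b * w.1 + a * w.2) + (-b * w.1 + a * w.2) = z.2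
            ring
        rw [e3] at h3
        show c₂ (Φ _) = c₂ (Φ z)
        rw [h3, hpw]
      · refine sheared_of_sum (fun z => c (Φ z)) e he (fun z => c₁ (Φ z)) (fun z => c₂ (Φ z))
          (fun z => hsum _) hg (σ := α * w.1 + β * w.2) (P := -b * w.1 + a * w.2) hgt k₁ ?_
        intro z
        show c₂ (Φ _) = c₂ (Φ z)
        rw [hΦw, hpw]
    have := sheared_high D'.card (fun z => c (Φ z)) hsh hn D' hconv rfl
    omega

end Pool.Agent.Helper58.Nivat
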