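import Pool.Agent.Helper58.Nivat.Ring
import Pool.Agent.Helper58.Nivat.Sum

/-!
Rational configurations with finite range: annihilators which are products of difference
operators, and minimal ones.
-/

open AddMonoidAlgebra

namespace Pool.Agent.Helper58.Nivat

theorem Ac_finite_range (f : GR ℚ) {c : ℤ × ℤ → ℚ} (hc : (Set.range c).Finite) :
    (Set.range (Ac ℚ f c)).Finite := by
  induction f using AddMonoidAlgebra.induction_linear with
  | zero =>
    rw [Ac_zero]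
    refine (Set.finite_singleton (0 : ℚ)).subset ?_
    rintro _ ⟨z, rfl⟩
    rfl
  | add f g hf hg =>
    rw [Ac_add]
    refine (Set.Finite.image2 (fun a b : ℚ => a + b) hf hg).subset ?_
    rintro _ ⟨z, rfl⟩
    exact ⟨_, ⟨z, rfl⟩, _, ⟨z, rfl⟩, rfl⟩
  | single v a =>
    refine (hc.image (fun q => a * q)).subset ?_
    rintro _ ⟨z, rfl⟩
    exact ⟨_, ⟨z + v, rfl⟩, (Ac_single _ _ _ _).symm⟩

theorem cast_Ac (g : GR ℤ) (d : ℤ × ℤ → ℤ) (z : ℤ × ℤ) :
    ((Ac ℤ g d z : ℤ) : ℚ) =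
      Ac ℚ (mapRingHom (ℤ × ℤ) (Int.castRingHom ℚ) g) (fun z => (d z : ℚ)) z := by
  induction g using AddMonoidAlgebra.induction_linear with
  | zero =>
    rw [Ac_zero, map_zero (mapRingHom (ℤ × ℤ) (Int.castRingHom ℚ)), Ac_zero]
    simp
  | add f g hf hg =>
    rw [Ac_add, map_add (mapRingHom (ℤ × ℤ) (Int.castRingHom ℚ)), Ac_add, Pi.add_apply,
      Pi.add_apply, Int.cast_add, hf, hg]
  | single v a =>
    rw [mapRingHom_single, Ac_single, Ac_single, Int.cast_mul]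
    rfl

theorem common_den (S : Finset ℚ) : ∃ N : ℕ, 0 < N ∧ ∀ q ∈ S, ∃ n : ℤ, (N : ℚ) * q = n := by
  classical
  refine ⟨∏ q ∈ S, q.den, Finset.prod_pos fun q _ => q.den_pos, fun q hq => ?_⟩
  obtain ⟨M, hM⟩ := Finset.dvd_prod_of_mem (fun q : ℚ => q.den) hq
  refine ⟨M * q.num, ?_⟩
  rw [hM]
  push_cast
  have := Rat.den_mul_eq_num q
  calc ((q.den : ℚ) * M) * q = M * ((q.den : ℚ) * q) := by ring
    _ = M * q.num := by rw [this]

theorem map_dp (L : Multiset (ℤ × ℤ)) :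
    mapRingHom (ℤ × ℤ) (Int.castRingHom ℚ) (dp ℤ L) = dp ℚ L := by
  unfold dp
  rw [map_multiset_prod, Multiset.map_map]
  congr 2
  funext v
  show mapRingHom (ℤ × ℤ) (Int.castRingHom ℚ) (dl ℤ v) = dl ℚ v
  unfold dl
  rw [map_sub, map_one, mapRingHom_single, map_one]

/-- Kari–Szabados for rational configurations. -/
theorem ks_rat (f : GR ℚ) (hf : f ≠ 0) {c : ℤ × ℤ → ℚ} (hc : (Set.range c).Finite)
    (h : Ac ℚ f c = 0) : ∃ L : Multiset (ℤ × ℤ), (∀ u ∈ L, u ≠ 0) ∧ Ac ℚ (dp ℚ L) c = 0 := by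
  classical
  obtain ⟨N, hN, hN'⟩ := common_den hc.toFinset
  obtain ⟨M, hM, hM'⟩ := common_den (f.coeff.support.image f.coeff)
  have hd : ∀ z, ∃ n : ℤ, (N : ℚ) * c z = n := fun z => hN' _ (by
    rw [Set.Finite.mem_toFinset]; exact ⟨z, rfl⟩)
  choose d hd using hd
  have hg : ∀ s, ∃ n : ℤ, (M : ℚ) * f.coeff s = n := by
    intro s
    by_cases hs : s ∈ f.coeff.support
    · exact hM' _ (Finset.mem_image_of_mem _ hs)
    · exact ⟨0, by rw [Finsupp.notMem_support_iff.1 hs]; simp⟩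
  choose a ha using hg
  set g : GR ℤ := ∑ s ∈ f.coeff.support, single s (a s) with hgdef
  have hgf : mapRingHom (ℤ × ℤ) (Int.castRingHom ℚ) g = (M : ℚ) • f := by
    conv_rhs => rw [eq_sum_single f]
    rw [hgdef, map_sum, Finset.smul_sum]
    refine Finset.sum_congr rfl fun s _ => ?_
    rw [mapRingHom_single, smul_single, smul_eq_mul, ha]
    rfl
  have hdc : (fun z => (d z : ℚ)) = (N : ℚ) • c := by
    funext z
    rw [← hd]
    rfl
  have hMQ : (M : ℚ) ≠ 0 := by exact_mod_cast hM.ne'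
  have hNQ : (N : ℚ) ≠ 0 := by exact_mod_cast hN.ne'
  have hg0 : g ≠ 0 := by
    intro h0
    rw [h0, map_zero] at hgf
    rcases smul_eq_zero.1 hgf.symm with h1 | h1
    · exact hMQ h1
    · exact hf h1
  have hgd : Ac ℤ g d = 0 := by
    funext z
    have h1 := cast_Ac g d z
    rw [hgf, hdc, Ac_smul, map_smul, h, smul_zero, smul_zero, Pi.zero_apply] at h1
    rw [Pi.zero_apply]
    exact_mod_cast h1
  obtain ⟨B, hB⟩ : ∃ B : ℤ, ∀ z, |d z| ≤ B := by
    have hfin : (Set.range fun z => |d z|).Finite := by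
      have : Finite (Set.range c) := hc
      refine finite_range_of_factor (T := Set.range c) _ (fun z => ⟨c z, z, rfl⟩) ?_
      intro z z' hzz
      have h1 : c z = c z' := congrArg Subtype.val hzz
      have h2 : (d z : ℚ) = d z' := by rw [← hd, ← hd, h1]
      have h3 : d z = d z' := by exact_mod_cast h2
      rw [h3]
    obtain ⟨B, hB⟩ := hfin.bddAbove
    exact ⟨B, fun z => hB ⟨z, rfl⟩⟩
  obtain ⟨L, hL, hLd⟩ := ks_int g hg0 hB hgd
  refine ⟨L, hL, ?_⟩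
  have h1 : Ac ℚ (dp ℚ L) ((N : ℚ) • c) = 0 := by
    funext z
    have h2 := cast_Ac (dp ℤ L) d z
    rw [map_dp, hdc, hLd] at h2
    rw [← h2]
    simp
  rw [map_smul] at h1
  rcases smul_eq_zero.1 h1 with h2 | h2
  · exact absurd h2 hNQ
  · exact h2

/-- A bounded configuration with vanishing second difference has vanishing first difference. -/
theorem dd_zero {e : ℤ × ℤ → ℚ} (he : (Set.range e).Finite) (w : ℤ × ℤ)
    (h : Ac ℚ (dl ℚ w * dl ℚ w) e = 0) : Ac ℚ (dl ℚ w) e = 0 := by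
  rw [Ac_mul, Ac_dl_eq_zero] at h
  have hp : Function.Periodic (Ac ℚ (dl ℚ w) e) w := h
  have hlin : ∀ (n : ℕ) (z : ℤ × ℤ), e (z + n • w) = e z + n * Ac ℚ (dl ℚ w) e z := by
    intro n
    induction n with
    | zero => intro z; simp
    | succ n ih =>
      intro z
      have h1 := hp.nsmul n z
      rw [Ac_dl] at h1
      rw [succ_nsmul, ← add_assoc]
      have h2 : e (z + n • w + w) = e (z + n • w) + Ac ℚ (dl ℚ w) e z := by linarith
      rw [h2, ih]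
      push_cast
      ring
  obtain ⟨B, hB⟩ : ∃ B : ℚ, ∀ z, |e z| ≤ B := by
    obtain ⟨B, hB⟩ := (he.image (fun q => |q|)).bddAbove
    exact ⟨B, fun z => hB ⟨_, ⟨z, rfl⟩, rfl⟩⟩
  funext z
  rw [Pi.zero_apply]
  by_contra hne
  have hpos : 0 < |Ac ℚ (dl ℚ w) e z| := abs_pos.2 hne
  obtain ⟨n, hn⟩ := exists_nat_gt (2 * B / |Ac ℚ (dl ℚ w) e z|)
  rw [div_lt_iff₀ hpos] at hn
  have h1 := hlin n z
  have h2 : |(n : ℚ) * Ac ℚ (dl ℚ w) e z| ≤ 2 * B := by
    have h3 : (n : ℚ) * Ac ℚ (dl ℚ w) e z = e (z + n • w) - e z := by linarith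
    rw [h3]
    calc |e (z + n • w) - e z| ≤ |e (z + n • w)| + |e z| := abs_sub _ _
      _ ≤ B + B := add_le_add (hB _) (hB _)
      _ = 2 * B := by ring
  rw [abs_mul, Nat.abs_cast] at h2
  linarith

theorem dl_dvd_nsmul (w : ℤ × ℤ) (n : ℕ) : dl ℚ w ∣ dl ℚ (n • w) := by
  have h := sub_dvd_pow_sub_pow (single w 1 : GR ℚ) 1 n
  rw [single_pow, one_pow, one_pow] at h
  exact h

theorem dl_dvd_zsmul (w : ℤ × ℤ) (n : ℤ) : dl ℚ w ∣ dl ℚ (n • w) := by
  obtain ⟨m, rfl | rfl⟩ := n.eq_nat_or_neg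
  · rw [natCast_zsmul]
    exact dl_dvd_nsmul w m
  · rw [neg_smul, natCast_zsmul]
    have e : dl ℚ (-(m • w)) = -(single (-(m • w)) 1) * dl ℚ (m • w) := by
      unfold dl
      rw [mul_sub, neg_mul, single_mul_single, neg_add_cancel, mul_one, mul_one]
      rw [← one_def]
      ring
    rw [e]
    exact (dl_dvd_nsmul w m).mul_left _

/-- Doubly periodic configurations. -/
def DP (c : ℤ × ℤ → ℚ) : Prop := ∃ M : ℕ, 0 < M ∧ ∀ v z : ℤ × ℤ, c (z + M • v) = c z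

theorem Ac_kill_of_dvd {f g : GR ℚ} (h : f ∣ g) {c : ℤ × ℤ → ℚ} (hc : Ac ℚ f c = 0) :
    Ac ℚ g c = 0 := by
  obtain ⟨q, rfl⟩ := h
  rw [mul_comm, Ac_mul, hc, map_zero]

/-- Minimal annihilating products of difference operators. -/
structure MinKill (c : ℤ × ℤ → ℚ) (L : Multiset (ℤ × ℤ)) : Prop where
  ne : ∀ u ∈ L, u ≠ 0
  kill : Ac ℚ (dp ℚ L) c = 0
  min : ∀ L' : Multiset (ℤ × ℤ), (∀ u ∈ L', u ≠ 0) → Ac ℚ (dp ℚ L') c = 0 → L.card ≤ L'.card

theorem exists_minKill {c : ℤ × ℤ → ℚ} (h : ∃ L : Multiset (ℤ × ℤ), (∀ u ∈ L, u ≠ 0) ∧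
    Ac ℚ (dp ℚ L) c = 0) : ∃ L, MinKill c L := by
  classical
  have hex : ∃ n : ℕ, ∃ L : Multiset (ℤ × ℤ), L.card = n ∧ (∀ u ∈ L, u ≠ 0) ∧
      Ac ℚ (dp ℚ L) c = 0 := by
    obtain ⟨L, h1, h2⟩ := h
    exact ⟨L.card, L, rfl, h1, h2⟩
  obtain ⟨L, h1, h2, h3⟩ := Nat.find_spec hex
  refine ⟨L, h2, h3, fun L' h4 h5 => ?_⟩
  rw [h1]
  exact Nat.find_min' hex ⟨L', rfl, h4, h5⟩

theorem MinKill.not_dp {c : ℤ × ℤ → ℚ} (hc : (Set.range c).Finite) {u w : ℤ × ℤ}
    {L : Multiset (ℤ × ℤ)} (h : MinKill c (u ::ₘ w ::ₘ L)) : ¬ DP (Ac ℚ (dp ℚ (w ::ₘ L)) c) := by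
  rintro ⟨M, hM, hper⟩
  have hw : w ≠ 0 := h.ne w (by simp)
  have h1 : Ac ℚ (dl ℚ (M • w) * (dl ℚ w * dp ℚ L)) c = 0 := by
    rw [Ac_mul, ← dp_cons, Ac_dl_eq_zero]
    exact fun z => hper w z
  have h2 : Ac ℚ ((dl ℚ (M • w) * dl ℚ (M • w)) * dp ℚ L) c = 0 := by
    refine Ac_kill_of_dvd ?_ h1
    rw [mul_assoc]
    exact mul_dvd_mul_left _ (mul_dvd_mul_right (dl_dvd_nsmul w M) _)
  rw [Ac_mul] at h2
  have h3 := dd_zero (Ac_finite_range (dp ℚ L) hc) (M • w) h2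
  rw [← Ac_mul, ← dp_cons] at h3
  have h4 := h.min ((M • w) ::ₘ L) (by
    intro x hx
    rw [Multiset.mem_cons] at hx
    rcases hx with rfl | hx
    · intro h0
      rcases smul_eq_zero.1 h0 with h5 | h5
      · exact hM.ne' h5
      · exact hw h5
    · exact h.ne x (by simp [hx])) h3
  simp at h4

theorem MinKill.det_ne {c : ℤ × ℤ → ℚ} (hc : (Set.range c).Finite) {u w : ℤ × ℤ}
    {L : Multiset (ℤ × ℤ)} (h : MinKill c (u ::ₘ w ::ₘ L)) : u.1 * w.2 - u.2 * w.1 ≠ 0 := by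
  intro hdet
  have hu : u ≠ 0 := h.ne u (by simp)
  have hw : w ≠ 0 := h.ne w (by simp)
  -- a common multiple
  obtain ⟨m, n, hmn, hne⟩ : ∃ m n : ℤ, m • u = n • w ∧ m • u ≠ 0 := by
    by_cases h0 : w.1 • u = 0
    · have hw1 : w.1 = 0 := by
        by_contra hne
        rcases smul_eq_zero.1 h0 with h | h
        · exact absurd h hne
        · exact hu h
      have hw2 : w.2 ≠ 0 := fun h => hw (Prod.ext hw1 h)
      refine ⟨w.2, u.2, ?_, ?_⟩
      · apply Prod.ext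
        · show w.2 * u.1 = u.2 * w.1
          linarith [mul_comm w.2 u.1]
        · show w.2 * u.2 = u.2 * w.2
          ring
      · intro h
        rcases smul_eq_zero.1 h with h | h
        · exact hw2 h
        · exact hu h
    · refine ⟨w.1, u.1, ?_, h0⟩
      apply Prod.ext
      · show w.1 * u.1 = u.1 * w.1
        ring
      · show w.1 * u.2 = u.1 * w.2
        linarith [mul_comm w.1 u.2]
  have h1 : Ac ℚ ((dl ℚ (m • u) * dl ℚ (m • u)) * dp ℚ L) c = 0 := by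
    have hk := h.kill
    rw [dp_cons, dp_cons, ← mul_assoc] at hk
    refine Ac_kill_of_dvd (mul_dvd_mul_right (mul_dvd_mul (dl_dvd_zsmul u m) ?_) _) hk
    rw [hmn]
    exact dl_dvd_zsmul w n
  rw [Ac_mul] at h1
  have h3 := dd_zero (Ac_finite_range (dp ℚ L) hc) (m • u) h1
  rw [← Ac_mul, ← dp_cons] at h3
  have h4 := h.min ((m • u) ::ₘ L) (by
    intro x hx
    rw [Multiset.mem_cons] at hx
    rcases hx with rfl | hx
    · exact hne
    · exact h.ne x (by simp [hx])) h3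
  simp at h4

theorem MinKill.two_le {c : ℤ × ℤ → ℚ} (hn : ¬ Per c) {L : Multiset (ℤ × ℤ)} (h : MinKill c L) :
    2 ≤ L.card := by
  by_contra hlt
  push Not at hlt
  interval_cases hL : L.card
  · rw [Multiset.card_eq_zero] at hL
    subst hL
    have := h.kill
    rw [dp_zero, Ac_one] at this
    subst this
    exact hn ⟨(1, 0), by simp, fun x => rfl⟩
  · rw [Multiset.card_eq_one] at hL
    obtain ⟨u, rfl⟩ := hL
    have hk := h.kill
    have e : ({u} : Multiset (ℤ × ℤ)) = u ::ₘ 0 := rfl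
    rw [e, dp_cons, dp_zero, mul_one, Ac_dl_eq_zero] at hk
    exact hn ⟨u, h.ne u (by simp), hk⟩

/-- A configuration annihilated by the product of two transversal difference operators is a sum of
two periodic configurations. -/
theorem two_periodic {c : ℤ × ℤ → ℚ} {u w : ℤ × ℤ} (hdet : u.1 * w.2 - u.2 * w.1 ≠ 0)
    (h : Ac ℚ (dl ℚ u * dl ℚ w) c = 0) :
    ∃ c₁ c₂ : ℤ × ℤ → ℚ, (∀ z, c z = c₁ z + c₂ z) ∧ (∀ z, c₁ (z + u) = c₁ z) ∧
      ∀ z, c₂ (z + w) = c₂ z := by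
  set Δ : ℤ := u.1 * w.2 - u.2 * w.1 with hΔ
  set q : ℤ × ℤ → ℤ := fun z => (u.1 * z.2 - u.2 * z.1) / Δ with hq
  have hqw : ∀ z, q (z + w) = q z + 1 := by
    intro z
    have e : u.1 * (z + w).2 - u.2 * (z + w).1 = (u.1 * z.2 - u.2 * z.1) + 1 * Δ := by
      rw [hΔ, Prod.fst_add, Prod.snd_add]; ring
    rw [hq]
    show (u.1 * (z + w).2 - u.2 * (z + w).1) / Δ = _
    rw [e, Int.add_mul_ediv_right _ _ hdet]
  have hqu : ∀ z, q (z + u) = q z := by
    intro z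
    have e : u.1 * (z + u).2 - u.2 * (z + u).1 = (u.1 * z.2 - u.2 * z.1) := by
      rw [Prod.fst_add, Prod.snd_add]; ring
    rw [hq]
    show (u.1 * (z + u).2 - u.2 * (z + u).1) / Δ = _
    rw [e]
  have hper : Function.Periodic (Ac ℚ (dl ℚ u) c) w := by
    rw [mul_comm, Ac_mul, Ac_dl_eq_zero] at h
    exact h
  refine ⟨fun z => c z - c (z - q z • w), fun z => c (z - q z • w), fun z => by ring, ?_, ?_⟩
  · intro z
    have h1 := hper.zsmul (-q z) z
    rw [Ac_dl, Ac_dl] at h1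
    have e1 : z + -q z • w + u = z + u - q z • w := by rw [neg_smul]; abel
    have e2 : z + -q z • w = z - q z • w := by rw [neg_smul]; abel
    rw [e1, e2] at h1
    simp only [hqu]
    linarith
  · intro z
    have e1 : z + w - (q z + 1) • w = z - q z • w := by rw [add_smul, one_smul]; abel
    simp only [hqw, e1]

end Pool.Agent.Helper58.Nivat
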