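import Pool.Agent.Helper58.Nivat.Diff

/-!
Line polynomials dividing all annihilators.
-/

open AddMonoidAlgebra

namespace Pool.Agent.Helper58.Nivat

/-- Polynomials in the direction `u`. -/
noncomputable def pol (u : ℤ × ℤ) : Polynomial ℚ →ₐ[ℚ] GR ℚ := Polynomial.aeval (single u 1)

theorem pol_eq_sum (u : ℤ × ℤ) (μ : Polynomial ℚ) :
    pol u μ = ∑ i ∈ Finset.range (μ.natDegree + 1), single (i • u) (μ.coeff i) := by
  unfold pol
  rw [Polynomial.aeval_eq_sum_range]
  refine Finset.sum_congr rfl fun i _ => ?_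
  rw [single_pow, one_pow, smul_single, smul_eq_mul, mul_one]

theorem pol_C_mul_X_pow (u : ℤ × ℤ) (a : ℚ) (n : ℕ) :
    pol u (Polynomial.C a * Polynomial.X ^ n) = single (n • u) a := by
  unfold pol
  rw [← Polynomial.smul_eq_C_mul, map_smul, map_pow, Polynomial.aeval_X, single_pow, one_pow,
    smul_single, smul_eq_mul, mul_one]

theorem Ac_pol (u : ℤ × ℤ) (μ : Polynomial ℚ) (c : ℤ × ℤ → ℚ) (z : ℤ × ℤ) :
    Ac ℚ (pol u μ) c z = ∑ i ∈ Finset.range (μ.natDegree + 1), μ.coeff i * c (z + i • u) := by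
  rw [pol_eq_sum, Ac_sum, Finset.sum_apply]
  exact Finset.sum_congr rfl fun i _ => Ac_single _ _ _ _

theorem row_dep {e e' : ℤ × ℤ → ℚ} {k k' : ℤ} (h : ∀ i, e (i, k) = e' (i, k'))
    (μ : Polynomial ℚ) (i : ℤ) :
    Ac ℚ (pol (1, 0) μ) e (i, k) = Ac ℚ (pol (1, 0) μ) e' (i, k') := by
  rw [Ac_pol, Ac_pol]
  refine Finset.sum_congr rfl fun t _ => ?_
  have e1 : ((i, k) : ℤ × ℤ) + t • ((1, 0) : ℤ × ℤ) = (i + t, k) := by
    apply Prod.ext <;> simp
  have e2 : ((i, k') : ℤ × ℤ) + t • ((1, 0) : ℤ × ℤ) = (i + t, k') := by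
    apply Prod.ext <;> simp
  rw [e1, e2, h]

/-- The rows of a Laurent polynomial. -/
theorem exists_rows (g : GR ℚ) : ∃ (v0 : ℤ × ℤ) (h : ℕ) (F : ℕ → Polynomial ℚ),
    g = single v0 1 * ∑ s ∈ Finset.range (h + 1), pol (1, 0) (F s) * single (0, (s : ℤ)) 1 := by
  classical
  obtain ⟨x0, hx0⟩ := (g.coeff.support.image Prod.fst).bddBelow
  obtain ⟨y0, hy0⟩ := (g.coeff.support.image Prod.snd).bddBelow
  obtain ⟨y1, hy1⟩ := (g.coeff.support.image Prod.snd).bddAbove
  have hx : ∀ d ∈ g.coeff.support, x0 ≤ d.1 := fun d hd =>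
    hx0 (Finset.mem_coe.2 (Finset.mem_image_of_mem _ hd))
  have hy : ∀ d ∈ g.coeff.support, y0 ≤ d.2 := fun d hd =>
    hy0 (Finset.mem_coe.2 (Finset.mem_image_of_mem _ hd))
  have hy' : ∀ d ∈ g.coeff.support, d.2 ≤ y1 := fun d hd =>
    hy1 (Finset.mem_coe.2 (Finset.mem_image_of_mem _ hd))
  refine ⟨(x0, y0), (y1 - y0).toNat, fun s =>
    ∑ d ∈ g.coeff.support.filter (fun d => d.2 = y0 + s),
      Polynomial.C (g.coeff d) * Polynomial.X ^ (d.1 - x0).toNat, ?_⟩
  conv_lhs => rw [eq_sum_single g]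
  rw [Finset.mul_sum, ← Finset.sum_fiberwise_of_maps_to (s := g.coeff.support)
    (t := Finset.range ((y1 - y0).toNat + 1)) (g := fun d => (d.2 - y0).toNat) (fun d hd => by
      have h1 := hy d hd
      have h2 := hy' d hd
      rw [Finset.mem_range]
      omega)]
  refine Finset.sum_congr rfl fun s hs => ?_
  have hfil : g.coeff.support.filter (fun d => d.2 = y0 + s) =
      g.coeff.support.filter (fun d => (d.2 - y0).toNat = s) := by
    apply Finset.filter_congr
    intro d hd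
    have := hy d hd
    constructor
    · intro h; omega
    · intro h; omega
  show _ = single (x0, y0) 1 * (pol (1, 0) (∑ d ∈ g.coeff.support.filter (fun d => d.2 = y0 + s),
      Polynomial.C (g.coeff d) * Polynomial.X ^ (d.1 - x0).toNat) * single (0, (s : ℤ)) 1)
  rw [hfil, map_sum, Finset.sum_mul, Finset.mul_sum]
  refine Finset.sum_congr rfl fun d hd => ?_
  rw [Finset.mem_filter] at hd
  have h1 := hy d hd.1
  have h2 := hx d hd.1
  have h3 := hd.2
  rw [pol_C_mul_X_pow, single_mul_single, single_mul_single, one_mul, mul_one]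
  congr 1
  apply Prod.ext
  · simp only [Prod.fst_add, Prod.smul_mk, nsmul_eq_mul]
    rw [Int.toNat_of_nonneg (by omega)]
    ring
  · simp only [Prod.snd_add, Prod.smul_mk, nsmul_eq_mul]
    omega

theorem DP.of_two {c : ℤ × ℤ → ℚ} {N M : ℕ} (hN : 0 < N) (hM : 0 < M)
    (h1 : ∀ z, c (z + ((N : ℤ), 0)) = c z) (h2 : ∀ z, c (z + (0, (M : ℤ))) = c z) : DP c := by
  refine ⟨N * M, Nat.mul_pos hN hM, fun v z => ?_⟩
  have p1 : Function.Periodic c ((N : ℤ), 0) := h1
  have p2 : Function.Periodic c (0, (M : ℤ)) := h2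
  have e : z + (N * M) • v = z + ((M * v.1 : ℤ) • ((N : ℤ), (0 : ℤ))) +
      ((N * v.2 : ℤ) • ((0 : ℤ), (M : ℤ))) := by
    apply Prod.ext
    · simp only [Prod.fst_add, Prod.smul_fst]
      simp only [nsmul_eq_mul, zsmul_eq_mul]
      push_cast
      ring
    · simp only [Prod.snd_add, Prod.smul_snd]
      simp only [nsmul_eq_mul, zsmul_eq_mul]
      push_cast
      ring
  rw [e, p2.zsmul, p1.zsmul]

theorem DP.add {c d : ℤ × ℤ → ℚ} (hc : DP c) (hd : DP d) : DP (c + d) := by
  obtain ⟨M, hM, h1⟩ := hc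
  obtain ⟨N, hN, h2⟩ := hd
  refine ⟨M * N, Nat.mul_pos hM hN, fun v z => ?_⟩
  have e1 : (M * N) • v = M • (N • v) := mul_smul _ _ _
  have e2 : (M * N) • v = N • (M • v) := by rw [mul_comm, mul_smul]
  rw [Pi.add_apply, Pi.add_apply]
  congr 1
  · rw [e1, h1]
  · rw [e2, h2]

theorem DP.zero : DP 0 := ⟨1, one_pos, fun _ _ => rfl⟩

theorem Ac_per {f : GR ℚ} {c : ℤ × ℤ → ℚ} {v : ℤ × ℤ} (h : ∀ z, c (z + v) = c z) (z : ℤ × ℤ) :
    Ac ℚ f c (z + v) = Ac ℚ f c z := by
  have h1 : Ac ℚ (dl ℚ v) (Ac ℚ f c) = 0 := by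
    rw [Ac_comm, (Ac_dl_eq_zero v c).2 h, map_zero]
  exact (Ac_dl_eq_zero v _).1 h1 z

theorem DP.Ac {c : ℤ × ℤ → ℚ} (hc : DP c) (f : GR ℚ) : DP (Ac ℚ f c) := by
  obtain ⟨M, hM, h⟩ := hc
  exact ⟨M, hM, fun v z => Ac_per (h v) z⟩

/-- The key divisibility, in horizontal direction. -/
theorem dvd_of_dp {e : ℤ × ℤ → ℚ} (he : (Set.range e).Finite) {N : ℕ} (hN : 0 < N)
    (hper : ∀ z, e (z + ((N : ℤ), 0)) = e z) {π : Polynomial ℚ} (hπ : Irreducible π)
    (hD : DP (Ac ℚ (pol (1, 0) π) e)) (hnd : ¬ DP e) {g : GR ℚ} (hg : DP (Ac ℚ g e)) :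
    pol (1, 0) π ∣ g := by
  classical
  obtain ⟨v0, h, F, hgF⟩ := exists_rows g
  by_cases hall : ∀ s ≤ h, π ∣ F s
  · rw [hgF]
    refine (Finset.dvd_sum fun s hs => ?_).mul_left _
    rw [Finset.mem_range] at hs
    exact (map_dvd (pol (1, 0)) (hall s (by omega))).mul_right _
  · exfalso
    push Not at hall
    -- the top row which is not divisible
    obtain ⟨s1, hs1, hF1, htop⟩ : ∃ s1 ≤ h, ¬ π ∣ F s1 ∧ ∀ s, s1 < s → s ≤ h → π ∣ F s := by
      obtain ⟨s, hs, hs'⟩ := hall
      refine ⟨Nat.findGreatest (fun s => ¬ π ∣ F s) h, Nat.findGreatest_le h,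
        Nat.findGreatest_spec (P := fun s => ¬ π ∣ F s) hs hs', fun t ht1 ht2 => ?_⟩
      have := Nat.findGreatest_is_greatest (P := fun s => ¬ π ∣ F s) ht1 ht2
      simpa using this
    have hq : ∀ s, ∃ Q, s1 < s → s ≤ h → F s = π * Q := by
      intro s
      by_cases hs : s1 < s ∧ s ≤ h
      · obtain ⟨Q, hQ⟩ := htop s hs.1 hs.2
        exact ⟨Q, fun _ _ => hQ⟩
      · exact ⟨0, fun h1 h2 => absurd ⟨h1, h2⟩ hs⟩
    choose Q hQ using hq
    obtain ⟨α, β, hαβ⟩ : IsCoprime (F s1) π := by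
      have := (hπ.coprime_iff_not_dvd).2 hF1
      exact this.symm
    obtain ⟨M1, hM1, hMper1⟩ := hD
    obtain ⟨M2, hM2, hMper2⟩ := hg
    set M : ℕ := M1 * M2 with hMdef
    have hM : 0 < M := Nat.mul_pos hM1 hM2
    set E := Ac ℚ (pol (1, 0) π) e with hE
    set G := Ac ℚ g e with hG
    have hMper : ∀ v z : ℤ × ℤ, E (z + M • v) = E z := by
      intro v z
      rw [hMdef, mul_smul]
      exact hMper1 _ z
    have hMperG : ∀ v z : ℤ × ℤ, G (z + M • v) = G z := by
      intro v z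
      rw [hMdef, mul_comm, mul_smul]
      exact hMper2 _ z
    -- the relation
    have hrel : ∀ i j : ℤ, ∑ s ∈ Finset.range (h + 1), Ac ℚ (pol (1, 0) (F s)) e (i, j + s) =
        G ((i, j) - v0) := by
      intro i j
      rw [hG, hgF, Ac_mul, Ac_single, sub_add_cancel, one_mul, Ac_sum,
        Finset.sum_apply]
      refine Finset.sum_congr rfl fun s _ => ?_
      have e1 : ((i, j) : ℤ × ℤ) + (0, (s : ℤ)) = (i, j + s) := by
        apply Prod.ext <;> simp
      rw [mul_comm, Ac_mul, Ac_single, one_mul, e1]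
    -- determinism
    have hEper : ∀ (i j j' : ℤ), j % M = j' % M → E (i, j) = E (i, j') := by
      intro i j j' hjj
      have h1 : j' ≡ j [ZMOD M] := hjj.symm
      obtain ⟨q, hq⟩ := h1.dvd
      have h2 := hMper (0, q) (i, j')
      rw [← h2]
      congr 1
      apply Prod.ext
      · simp
      · simp only [Prod.snd_add, Prod.smul_snd]
        simp only [nsmul_eq_mul]
        linarith
    have hGper : ∀ (i j j' : ℤ), j % M = j' % M → G ((i, j) - v0) = G ((i, j') - v0) := by
      intro i j j' hjj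
      have h1 : j' ≡ j [ZMOD M] := hjj.symm
      obtain ⟨q, hq⟩ := h1.dvd
      have h2 := hMperG (0, q) ((i, j') - v0)
      rw [← h2]
      congr 1
      apply Prod.ext
      · simp
      · simp only [Prod.snd_add, Prod.smul_snd, Prod.snd_sub]
        simp only [nsmul_eq_mul]
        linarith
    have hdet : ∀ j j' : ℤ, j % M = j' % M →
        (∀ s : ℕ, s < s1 → ∀ i, e (i, j + s) = e (i, j' + s)) →
        ∀ i, e (i, j + s1) = e (i, j' + s1) := by
      intro j j' hjj hrows
      have hF : ∀ i, Ac ℚ (pol (1, 0) (F s1)) e (i, j + s1) =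
          Ac ℚ (pol (1, 0) (F s1)) e (i, j' + s1) := by
        intro i
        have hmem : s1 ∈ Finset.range (h + 1) := Finset.mem_range.2 (by omega)
        have h1 := hrel i j
        have h2 := hrel i j'
        rw [← Finset.add_sum_erase _ _ hmem] at h1 h2
        have h3 : ∑ s ∈ (Finset.range (h + 1)).erase s1, Ac ℚ (pol (1, 0) (F s)) e (i, j + s) =
            ∑ s ∈ (Finset.range (h + 1)).erase s1, Ac ℚ (pol (1, 0) (F s)) e (i, j' + s) := by
          refine Finset.sum_congr rfl fun s hs => ?_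
          rw [Finset.mem_erase, Finset.mem_range] at hs
          rcases lt_or_gt_of_ne hs.1 with hlt | hlt
          · exact row_dep (hrows s hlt) (F s) i
          · rw [hQ s hlt (by omega), mul_comm, map_mul, Ac_mul]
            refine row_dep (fun i => ?_) (Q s) i
            apply hEper
            rw [Int.add_emod, hjj, ← Int.add_emod]
        have h4 := hGper i j j' hjj
        rw [h3] at h1
        linarith
      have hsplit : ∀ z, e z = Ac ℚ (pol (1, 0) α) (Ac ℚ (pol (1, 0) (F s1)) e) z +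
          Ac ℚ (pol (1, 0) β) E z := by
        intro z
        rw [hE, ← Ac_mul, ← Ac_mul, ← Pi.add_apply, ← Ac_add, ← map_mul, ← map_mul, ← map_add,
          hαβ, map_one, Ac_one]
      intro i
      rw [hsplit, hsplit]
      congr 1
      · exact row_dep hF α i
      · refine row_dep (fun i => ?_) β i
        apply hEper
        rw [Int.add_emod, hjj, ← Int.add_emod]
    -- states
    set R : ℤ → ℤ → ℚ := fun j i => e (i, j) with hR
    have hRper : ∀ (j i m : ℤ), e (i + m * N, j) = e (i, j) := by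
      intro j i m
      have hp : Function.Periodic e ((N : ℤ), 0) := hper
      have := hp.zsmul m (i, j)
      rw [← this]
      congr 1
      apply Prod.ext
      · rfl
      · show j = j + m * 0
        ring
    have hfin : (Set.range R).Finite := by
      have : Finite (Set.range e) := he
      refine finite_range_of_factor (T := Fin N → Set.range e) _
        (fun j => fun i : Fin N => ⟨e (((i : ℕ) : ℤ), j), _, rfl⟩) ?_
      intro j j' hjj
      funext i
      have hN' : (0 : ℤ) < N := by exact_mod_cast hN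
      have hi : i = (i % N) + (i / N) * N := by
        have := Int.emod_add_mul_ediv i N
        linarith [mul_comm (N : ℤ) (i / N)]
      have h5 := congrFun hjj ⟨(i % N).toNat, by
        have h3 : 0 ≤ i % N := Int.emod_nonneg _ hN'.ne'
        have h4 : i % N < N := Int.emod_lt_of_pos _ hN'
        omega⟩
      have h6 := congrArg Subtype.val h5
      have e5 : ((((i % (N : ℤ)).toNat : ℕ)) : ℤ) = i % N :=
        Int.toNat_of_nonneg (Int.emod_nonneg _ hN'.ne')
      simp only [e5] at h6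
      show e (i, j) = e (i, j')
      rw [hi, hRper, hRper]
      exact h6
    have hM' : (0 : ℤ) < M := by exact_mod_cast hM
    set S : Set (ℤ × (Fin (s1 + 1) → (ℤ → ℚ))) :=
      (Set.Ico (0 : ℤ) M) ×ˢ {w | ∀ s, w s ∈ Set.range R} with hS
    have hSf : S.Finite := (Set.finite_Ico 0 (M : ℤ)).prod (Set.Finite.pi' fun _ => hfin)
    set x : ℤ → ℤ × (Fin (s1 + 1) → (ℤ → ℚ)) := fun j => (j % M, fun s => R (j + (s : ℕ))) with hx
    obtain ⟨L, hL, hLper⟩ := det_periodic S hSf
    have hxS : ∀ j, x j ∈ S := by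
      intro j
      refine ⟨⟨Int.emod_nonneg _ hM'.ne', Int.emod_lt_of_pos _ hM'⟩, fun s => ⟨_, rfl⟩⟩
    have hxdet : ∀ j j', x j = x j' → x (j + 1) = x (j' + 1) := by
      intro j j' hjj
      have h1 : j % M = j' % M := congrArg Prod.fst hjj
      have h2 : (fun s : Fin (s1 + 1) => R (j + (s : ℕ))) =
        fun s : Fin (s1 + 1) => R (j' + (s : ℕ)) := congrArg Prod.snd hjj
      have h3 : ∀ s : ℕ, s ≤ s1 → R (j + s) = R (j' + s) := fun s hs => congrFun h2 ⟨s, by omega⟩
      have h1' : (j + 1) % M = (j' + 1) % M := by rw [Int.add_emod, h1, ← Int.add_emod]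
      have h4 : ∀ s : ℕ, s < s1 → ∀ i, e (i, j + 1 + s) = e (i, j' + 1 + s) := by
        intro s hs i
        have := congrFun (h3 (s + 1) (by omega)) i
        simp only [hR] at this
        push_cast at this
        have e1 : j + 1 + (s : ℤ) = j + (s + 1) := by ring
        have e2 : j' + 1 + (s : ℤ) = j' + (s + 1) := by ring
        rw [e1, e2]
        exact this
      apply Prod.ext
      · exact h1'
      · funext s i
        show e (i, j + 1 + (s : ℕ)) = e (i, j' + 1 + (s : ℕ))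
        by_cases hs : (s : ℕ) < s1
        · exact h4 s hs i
        · have : (s : ℕ) = s1 := by omega
          rw [this]
          exact hdet (j + 1) (j' + 1) h1' h4 i
    have hfinal := hLper x hxS hxdet
    apply hnd
    refine DP.of_two hN hL hper ?_
    rintro ⟨i, j⟩
    have h1 := congrFun (congrFun (congrArg Prod.snd (hfinal j)) (0 : Fin (s1 + 1))) i
    have h2 : e (i, j + L + ((0 : ℕ) : ℤ)) = e (i, j + ((0 : ℕ) : ℤ)) := h1
    rw [Nat.cast_zero, add_zero, add_zero] at h2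
    have e3 : ((i, j) : ℤ × ℤ) + (0, (L : ℤ)) = (i, j + L) := by
      apply Prod.ext <;> simp
    rw [e3]
    exact h2

theorem dvd_of_kill {e : ℤ × ℤ → ℚ} (he : (Set.range e).Finite) {N : ℕ} (hN : 0 < N)
    (hper : ∀ z, e (z + ((N : ℤ), 0)) = e z) {π : Polynomial ℚ} (hπ : Irreducible π)
    (hD : DP (Ac ℚ (pol (1, 0) π) e)) (hnd : ¬ DP e) {g : GR ℚ} (hg : Ac ℚ g e = 0) :
    pol (1, 0) π ∣ g :=
  dvd_of_dp he hN hper hπ hD hnd (by rw [hg]; exact DP.zero)

end Pool.Agent.Helper58.Nivat
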