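import Pool.Agent.Helper58.Nivat.Block

/-!
The Sander–Tijdeman conjecture (Nivat's conjecture for all convex windows).
-/

open AddMonoidAlgebra Module

namespace Pool.Agent.Helper58.Nivat

/-- The dimension count. -/
theorem count {c : ℤ × ℤ → ℚ} (hc : (Set.range c).Finite) {D : Finset (ℤ × ℤ)}
    (hD : LatConvex D) (S : List ((ℤ × ℤ) × Polynomial ℚ))
    (hS : ∀ s ∈ S, s.1 ≠ 0 ∧ s.2.coeff 0 ≠ 0)
    (hW : ∀ f : GR ℚ, BI (Ac ℚ (PS S) c) (Ac ℚ f c) → PS S ∣ f) :
    D.card + (patSet (Ac ℚ (PS S) c) (er S D)).ncard ≤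
      (patSet c D).ncard + (er S D).card := by
  classical
  set e := Ac ℚ (PS S) c with he
  have hef : (Set.range e).Finite := Ac_finite_range _ hc
  set D' := er S D with hD'
  have hXfin := patSetQ_finite hc D
  have hYfin := patSetQ_finite hef D'
  have iX : Fintype (patSet c D) := hXfin.fintype
  have iY : Fintype (patSet e D') := hYfin.fintype
  have hcX : Fintype.card (patSet c D) = (patSet c D).ncard := by
    rw [Set.ncard_eq_toFinset_card', Set.toFinset_card]
  have hcY : Fintype.card (patSet e D') = (patSet e D').ncard := by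
    rw [Set.ncard_eq_toFinset_card', Set.toFinset_card]
  -- the projection of the patterns
  have hτ : ∀ x : patSet c D, ∃ t : ℤ × ℤ, (fun d : D => c (t + (d : ℤ × ℤ))) = x.1 := fun x => x.2
  choose τ hτ using hτ
  set p : patSet c D → patSet e D' := fun x => ⟨fun d => e (τ x + (d : ℤ × ℤ)), τ x, rfl⟩ with hp
  have hpt : ∀ t : ℤ × ℤ, p ⟨fun d => c (t + (d : ℤ × ℤ)), t, rfl⟩ =
      ⟨fun d => e (t + (d : ℤ × ℤ)), t, rfl⟩ := by
    intro t
    apply Subtype.ext
    funext d
    have h1 := hτ ⟨fun d => c (t + (d : ℤ × ℤ)), t, rfl⟩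
    exact er_pat S (fun s hs => (hS s hs).1) c hD _ _ (fun d hd => congrFun h1 ⟨d, hd⟩) d d.2
  have hpsurj : Function.Surjective p := by
    rintro ⟨_, t, rfl⟩
    exact ⟨_, hpt t⟩
  -- the linear map
  set Λ : ((D → ℚ) × (patSet e D' → ℚ)) →ₗ[ℚ] (patSet c D → ℚ) :=
    { toFun := fun x w => ∑ d : D, x.1 d * w.1 d + x.2 (p w)
      map_add' := by
        intro x y
        funext w
        show ∑ d : D, (x.1 d + y.1 d) * w.1 d + (x.2 (p w) + y.2 (p w)) =
          (∑ d : D, x.1 d * w.1 d + x.2 (p w)) + (∑ d : D, y.1 d * w.1 d + y.2 (p w))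
        simp only [add_mul, Finset.sum_add_distrib]
        ring
      map_smul' := by
        intro a x
        funext w
        show ∑ d : D, (a * x.1 d) * w.1 d + (a * x.2 (p w)) =
          a * (∑ d : D, x.1 d * w.1 d + x.2 (p w))
        rw [mul_add, Finset.mul_sum]
        congr 1
        exact Finset.sum_congr rfl fun d _ => by ring } with hΛ
  have hΛ_apply : ∀ x w, Λ x w = ∑ d : D, x.1 d * w.1 d + x.2 (p w) := fun x w => rfl
  have h1 := LinearMap.finrank_range_add_finrank_ker Λ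
  have h2 : finrank ℚ ((D → ℚ) × (patSet e D' → ℚ)) = D.card + (patSet e D').ncard := by
    rw [finrank_prod, finrank_fintype_fun_eq_card, finrank_fintype_fun_eq_card, Fintype.card_coe,
      hcY]
  have h3 : finrank ℚ (LinearMap.range Λ) ≤ (patSet c D).ncard := by
    have := Submodule.finrank_le (LinearMap.range Λ)
    rwa [finrank_fintype_fun_eq_card, hcX] at this
  -- the kernel
  set Ψ : ((D → ℚ) × (patSet e D' → ℚ)) →ₗ[ℚ] GR ℚ :=
    { toFun := fun x => ∑ d : D, single (d : ℤ × ℤ) (x.1 d)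
      map_add' := by
        intro x y
        rw [← Finset.sum_add_distrib]
        refine Finset.sum_congr rfl fun d _ => ?_
        rw [← single_add]
        rfl
      map_smul' := by
        intro a x
        rw [RingHom.id_apply, Finset.smul_sum]
        refine Finset.sum_congr rfl fun d _ => ?_
        rw [smul_single]
        rfl } with hΨ
  have hΨ_apply : ∀ x, Ψ x = ∑ d : D, single (d : ℤ × ℤ) (x.1 d) := fun x => rfl
  have hΨ_coeff : ∀ x (s : ℤ × ℤ), (Ψ x).coeff s = ∑ d : D, if (d : ℤ × ℤ) = s then x.1 d else 0 := by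
    intro x s
    rw [hΨ_apply, coeff_sum, Finsupp.finsetSum_apply]
    refine Finset.sum_congr rfl fun d _ => ?_
    rw [coeff_single, Finsupp.single_apply]
  have hΨ_coeff' : ∀ x (d : D), (Ψ x).coeff d = x.1 d := by
    intro x d
    rw [hΨ_coeff, Finset.sum_eq_single d]
    · rw [if_pos rfl]
    · intro b _ hb
      rw [if_neg]
      intro h
      exact hb (Subtype.ext h)
    · intro h; exact absurd (Finset.mem_univ d) h
  have hΨ_supp : ∀ x (s : ℤ × ℤ), (Ψ x).coeff s ≠ 0 → s ∈ D := by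
    intro x s hs
    by_contra hcon
    apply hs
    rw [hΨ_coeff]
    refine Finset.sum_eq_zero fun d _ => ?_
    rw [if_neg]
    rintro rfl
    exact hcon d.2
  have hker : ∀ x ∈ LinearMap.ker Λ, ∀ t : ℤ × ℤ, Ac ℚ (Ψ x) c t =
      -x.2 ⟨fun d => e (t + (d : ℤ × ℤ)), t, rfl⟩ := by
    intro x hx t
    have h4 := congrFun (LinearMap.mem_ker.1 hx) ⟨fun d => c (t + (d : ℤ × ℤ)), t, rfl⟩
    rw [hΛ_apply, hpt] at h4
    rw [hΨ_apply, Ac_sum, Finset.sum_apply]
    have h5 : ∑ d : D, Ac ℚ (single (d : ℤ × ℤ) (x.1 d)) c t = ∑ d : D, x.1 d * c (t + d) :=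
      Finset.sum_congr rfl fun d _ => Ac_single _ _ _ _
    rw [h5]
    have h6 : ∑ d : D, x.1 d * c (t + d) + x.2 ⟨fun d => e (t + (d : ℤ × ℤ)), t, rfl⟩ = 0 := h4
    linarith
  -- multiplication by the product
  set Μ : (D' → ℚ) →ₗ[ℚ] GR ℚ :=
    { toFun := fun x => PS S * ∑ d : D', single (d : ℤ × ℤ) (x d)
      map_add' := by
        intro x y
        rw [← mul_add, ← Finset.sum_add_distrib]
        congr 1
        refine Finset.sum_congr rfl fun d _ => ?_
        rw [← single_add]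
        rfl
      map_smul' := by
        intro a x
        rw [RingHom.id_apply, ← mul_smul_comm, Finset.smul_sum]
        congr 1
        refine Finset.sum_congr rfl fun d _ => ?_
        rw [smul_single]
        rfl } with hΜ
  have hle : (LinearMap.ker Λ).map Ψ ≤ LinearMap.range Μ := by
    rintro _ ⟨x, hx, rfl⟩
    obtain ⟨g, hg⟩ := hW (Ψ x) ⟨D', fun t t' htt => by
      have h5 : (⟨fun d => e (t + (d : ℤ × ℤ)), t, rfl⟩ : patSet e D') =
          ⟨fun d => e (t' + (d : ℤ × ℤ)), t', rfl⟩ :=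
        Subtype.ext (funext fun d => htt d d.2)
      rw [hker x hx t, hker x hx t', h5]⟩
    have hgs : ∀ z, g.coeff z ≠ 0 → z ∈ D' :=
      er_supp S hS hD g (fun z hz => by rw [← hg] at hz; exact hΨ_supp x z hz)
    refine ⟨fun d => g.coeff d, ?_⟩
    show PS S * ∑ d : D', single (d : ℤ × ℤ) (g.coeff d) = Ψ x
    rw [hg]
    congr 1
    rw [Finset.sum_coe_sort D' (fun d => (single d (g.coeff d) : GR ℚ))]
    conv_rhs => rw [eq_sum_single g]
    symm
    apply Finset.sum_subset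
    · intro z hz
      exact hgs z (Finsupp.mem_support_iff.1 hz)
    · intro z _ hz
      rw [Finsupp.notMem_support_iff.1 hz, single_zero]
  have hinj : Function.Injective (Ψ.domRestrict (LinearMap.ker Λ)) := by
    rw [← LinearMap.ker_eq_bot, LinearMap.ker_eq_bot']
    rintro ⟨x, hx⟩ h
    have h4 : Ψ x = 0 := h
    have h5 : x.1 = 0 := by
      funext d
      rw [← hΨ_coeff' x d, h4, coeff_zero]
      rfl
    have h6 : x.2 = 0 := by
      funext y
      obtain ⟨w, rfl⟩ := hpsurj y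
      have h7 := congrFun (LinearMap.mem_ker.1 hx) w
      rw [hΛ_apply, h5] at h7
      simpa using h7
    apply Subtype.ext
    exact Prod.ext h5 h6
  have h4 : finrank ℚ (LinearMap.ker Λ) ≤ D'.card := by
    have h5 : finrank ℚ (LinearMap.ker Λ) = finrank ℚ ((LinearMap.ker Λ).map Ψ) := by
      have h6 := LinearMap.finrank_range_of_inj hinj
      rw [LinearMap.range_domRestrict] at h6
      exact h6.symm
    rw [h5]
    refine (Submodule.finrank_mono hle).trans ?_
    have h7 := LinearMap.finrank_range_le Μ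
    rwa [finrank_fintype_fun_eq_card, Fintype.card_coe] at h7
  omega

/-- Good line factors with respect to a multiset of vectors. -/
def Good (L : Multiset (ℤ × ℤ)) (s : (ℤ × ℤ) × Polynomial ℚ) : Prop :=
  ∃ x ∈ L, ∃ (Φ : (ℤ × ℤ) ≃+ (ℤ × ℤ)) (N : ℕ), 0 < N ∧ Φ (1, 0) = s.1 ∧ N • s.1 = x ∧
    Irreducible s.2 ∧ s.2 ∣ Polynomial.X ^ N - 1

theorem pol_X_pow_sub_one (v : ℤ × ℤ) (N : ℕ) :
    pol v (Polynomial.X ^ N - 1 : Polynomial ℚ) = dl ℚ (N • v) := by
  unfold pol dl
  rw [map_sub, map_pow, Polynomial.aeval_X, map_one, single_pow, one_pow]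

theorem Good.dvd {L : Multiset (ℤ × ℤ)} {s : (ℤ × ℤ) × Polynomial ℚ} (h : Good L s) :
    ∃ x ∈ L, pol s.1 s.2 ∣ dl ℚ x := by
  obtain ⟨x, hx, Φ, N, hN, h1, h2, h3, h4⟩ := h
  refine ⟨x, hx, ?_⟩
  have := map_dvd (pol s.1) h4
  rw [pol_X_pow_sub_one, h2] at this
  exact this

theorem Good.ne {L : Multiset (ℤ × ℤ)} {s : (ℤ × ℤ) × Polynomial ℚ} (h : Good L s) :
    s.1 ≠ 0 ∧ s.2.coeff 0 ≠ 0 := by
  obtain ⟨x, hx, Φ, N, hN, h1, h2, h3, h4⟩ := h
  constructor
  · rw [← h1]
    intro h0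
    rw [map_eq_zero_iff _ Φ.injective] at h0
    simp at h0
  · intro h0
    rw [← Polynomial.X_dvd_iff] at h0
    have h5 := h0.trans h4
    rw [Polynomial.X_dvd_iff, Polynomial.coeff_sub, Polynomial.coeff_X_pow,
      if_neg (by omega), Polynomial.coeff_one_zero] at h5
    norm_num at h5

theorem exists_good (L : Multiset (ℤ × ℤ)) : (∀ x ∈ L, x ≠ 0) →
    ∃ S : List ((ℤ × ℤ) × Polynomial ℚ), (∀ s ∈ S, Good L s) ∧ dp ℚ L ∣ PS S := by
  classical
  induction L using Multiset.induction_on with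
  | empty =>
    intro _
    exact ⟨[], by simp, by rw [dp_zero]; exact one_dvd _⟩
  | cons x L ih =>
    intro hL
    obtain ⟨S, hS, hdvd⟩ := ih (fun y hy => hL y (Multiset.mem_cons_of_mem hy))
    obtain ⟨N, Φ, hN, hΦ⟩ := exists_equiv (hL x (Multiset.mem_cons_self x L))
    set v := Φ (1, 0) with hv
    have hNv : N • v = x := by
      rw [hv, ← map_nsmul, ← hΦ]
      congr 1
      apply Prod.ext <;> simp
    have hXN0 : (Polynomial.X ^ N - 1 : Polynomial ℚ) ≠ 0 := by
      have := Polynomial.X_pow_sub_C_ne_zero hN (1 : ℚ)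
      rwa [Polynomial.C_1] at this
    obtain ⟨F, hF, hFprod⟩ := WfDvdMonoid.exists_factors (Polynomial.X ^ N - 1 : Polynomial ℚ) hXN0
    refine ⟨F.toList.map (fun π => (v, π)) ++ S, ?_, ?_⟩
    · intro s hs
      rw [List.mem_append] at hs
      rcases hs with hs | hs
      · rw [List.mem_map] at hs
        obtain ⟨π, hπ, rfl⟩ := hs
        rw [Multiset.mem_toList] at hπ
        exact ⟨x, Multiset.mem_cons_self x L, Φ, N, hN, rfl, hNv, hF π hπ,
          (Multiset.dvd_prod hπ).trans hFprod.dvd⟩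
      · obtain ⟨y, hy, h⟩ := hS s hs
        exact ⟨y, Multiset.mem_cons_of_mem hy, h⟩
    · rw [PS_append, dp_cons]
      refine mul_dvd_mul ?_ hdvd
      have h1 : PS (F.toList.map (fun π => (v, π))) = pol v F.prod := by
        unfold PS
        rw [List.map_map]
        have h2 : F.prod = F.toList.prod := by rw [Multiset.prod_toList]
        rw [h2, map_list_prod]
        rfl
      rw [h1, ← hNv, ← pol_X_pow_sub_one]
      exact map_dvd (pol v) hFprod.symm.dvd

/-- Two transversal difference operators. -/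
theorem rat_two' {e : ℤ × ℤ → ℚ} (he : (Set.range e).Finite) (hn : ¬ Per e) {u w : ℤ × ℤ}
    (hu : u ≠ 0) (hw : w ≠ 0) (hdet : u.1 * w.2 - u.2 * w.1 ≠ 0)
    (hk : Ac ℚ (dl ℚ u * dl ℚ w) e = 0) {D : Finset (ℤ × ℤ)} (hD : LatConvex D) :
    D.card + 1 ≤ (patSet e D).ncard := by
  by_contra hcon
  obtain ⟨c₁, c₂, hsum, h1, h2⟩ := two_periodic hdet hk
  have : Finite (Set.range e) := he
  have hpat := patSet_comp (A := Set.range e) Subtype.val Subtype.val_injective
    (fun z => ⟨e z, z, rfl⟩) D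
  have hp := sum_of_two (A := Set.range e) (fun z => ⟨e z, z, rfl⟩) Subtype.val
    Subtype.val_injective c₁ c₂ hsum ⟨u, hu, h1⟩ ⟨w, hw, h2⟩ D hD (by
      rw [← hpat]
      show (patSet e D).ncard ≤ D.card
      omega)
  obtain ⟨p, hp0, hp1⟩ := hp
  exact hn ⟨p, hp0, fun x => congrArg Subtype.val (hp1 x)⟩

/-- Repeated factors can be removed. -/
theorem collapse {c : ℤ × ℤ → ℚ} (hc : (Set.range c).Finite) (L : Multiset (ℤ × ℤ))
    (S : List ((ℤ × ℤ) × Polynomial ℚ)) : (∀ s ∈ S, Good L s) → ∀ r : GR ℚ,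
      Ac ℚ (r * PS S) c = 0 → Ac ℚ (r * dp ℚ L) c = 0 := by
  classical
  induction S with
  | nil =>
    intro _ r h
    rw [PS_nil, mul_one] at h
    exact Ac_kill_of_dvd (dvd_mul_right _ _) h
  | cons s S ih =>
    intro hS r h
    rw [PS_cons, ← mul_assoc] at h
    have h1 := ih (fun s' hs' => hS s' (List.mem_cons_of_mem _ hs')) _ h
    obtain ⟨x, hx, hdvd⟩ := (hS s List.mem_cons_self).dvd
    obtain ⟨L', rfl⟩ : ∃ L', L = x ::ₘ L' := ⟨L.erase x, (Multiset.cons_erase hx).symm⟩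
    have h2 : Ac ℚ ((dl ℚ x * dl ℚ x) * (r * dp ℚ L')) c = 0 := by
      refine Ac_kill_of_dvd ?_ h1
      rw [dp_cons]
      have e1 : r * pol s.1 s.2 * (dl ℚ x * dp ℚ L') = pol s.1 s.2 * (dl ℚ x * (r * dp ℚ L')) := by
        ring
      have e2 : dl ℚ x * dl ℚ x * (r * dp ℚ L') = dl ℚ x * (dl ℚ x * (r * dp ℚ L')) := by ring
      rw [e1, e2]
      exact mul_dvd_mul_right hdvd _
    rw [Ac_mul] at h2
    have h3 := dd_zero (Ac_finite_range _ hc) x h2
    rw [← Ac_mul] at h3
    have e3 : r * dp ℚ (x ::ₘ L') = dl ℚ x * (r * dp ℚ L') := by rw [dp_cons]; ring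
    rw [e3]
    exact h3

/-- The Sander–Tijdeman conjecture for rational configurations. -/
theorem nivat_rat {c : ℤ × ℤ → ℚ} (hc : (Set.range c).Finite) (hn : ¬ Per c)
    {D : Finset (ℤ × ℤ)} (hD : LatConvex D) : D.card + 1 ≤ (patSet c D).ncard := by
  classical
  by_contra hcon
  -- an annihilator
  have hlow := rel_lower hc D
  have hbot : Rel c D ≠ ⊥ := by
    intro hbot
    rw [hbot, finrank_bot] at hlow
    omega
  obtain ⟨f, hf, hf0⟩ := Submodule.exists_mem_ne_zero_of_ne_bot hbot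
  obtain ⟨hfs, κ, hκ⟩ := mem_Rel.1 hf
  have hdl : dl ℚ (1, 0) ≠ 0 := by
    intro h0
    have h1 := congrArg (fun g : GR ℚ => g.coeff (0 : ℤ × ℤ)) h0
    simp only [dl] at h1
    rw [coeff_sub, one_def, coeff_single, coeff_single, Finsupp.sub_apply,
      Finsupp.single_apply, Finsupp.single_apply, coeff_zero] at h1
    simp at h1
  obtain ⟨L, hL⟩ := exists_minKill (ks_rat (dl ℚ (1, 0) * f) (mul_ne_zero hdl hf0) hc (by
    rw [Ac_mul, Ac_dl_eq_zero]
    intro z
    rw [hκ, hκ]))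
  have hL2 := hL.two_le hn
  obtain ⟨u, L1, rfl⟩ : ∃ u L1, L = u ::ₘ L1 := by
    obtain ⟨u, hu⟩ := Multiset.card_pos_iff_exists_mem.1 (by omega : 0 < L.card)
    exact ⟨u, L.erase u, (Multiset.cons_erase hu).symm⟩
  rw [Multiset.card_cons] at hL2
  obtain ⟨w, L2, rfl⟩ : ∃ w L2, L1 = w ::ₘ L2 := by
    obtain ⟨w, hw⟩ := Multiset.card_pos_iff_exists_mem.1 (by omega : 0 < L1.card)
    exact ⟨w, L1.erase w, (Multiset.cons_erase hw).symm⟩
  have hu : u ≠ 0 := hL.ne u (by simp)
  have hw : w ≠ 0 := hL.ne w (by simp)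
  have hdet : u.1 * w.2 - u.2 * w.1 ≠ 0 := hL.det_ne hc
  have hdetx : ∀ x ∈ L2, u.1 * x.2 - u.2 * x.1 ≠ 0 ∧ x.1 * w.2 - x.2 * w.1 ≠ 0 := by
    intro x hx
    obtain ⟨L3, rfl⟩ : ∃ L3, L2 = x ::ₘ L3 := ⟨L2.erase x, (Multiset.cons_erase hx).symm⟩
    have e1 : u ::ₘ w ::ₘ x ::ₘ L3 = u ::ₘ x ::ₘ w ::ₘ L3 := by
      rw [Multiset.cons_swap w x]
    have e2 : u ::ₘ w ::ₘ x ::ₘ L3 = x ::ₘ w ::ₘ u ::ₘ L3 := by
      rw [Multiset.cons_swap u w, Multiset.cons_swap u x, Multiset.cons_swap w x]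
    exact ⟨(e1 ▸ hL : MinKill c (u ::ₘ x ::ₘ w ::ₘ L3)).det_ne hc,
      (e2 ▸ hL : MinKill c (x ::ₘ w ::ₘ u ::ₘ L3)).det_ne hc⟩
  -- the line factors
  have hex : ∃ n : ℕ, ∃ S : List ((ℤ × ℤ) × Polynomial ℚ), S.length = n ∧ (∀ s ∈ S, Good L2 s) ∧
      ∃ M : ℕ, 0 < M ∧ Ac ℚ (dl ℚ (M • u) * dl ℚ (M • w) * PS S) c = 0 := by
    obtain ⟨S, hS, hdvd⟩ := exists_good L2 (fun x hx => hL.ne x (by simp [hx]))
    refine ⟨_, S, rfl, hS, 1, one_pos, ?_⟩
    rw [one_smul, one_smul]
    refine Ac_kill_of_dvd (mul_dvd_mul_left _ hdvd) ?_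
    have := hL.kill
    rw [dp_cons, dp_cons, ← mul_assoc] at this
    exact this
  obtain ⟨S, hSlen, hSgood, M, hM, hkill⟩ := Nat.find_spec hex
  have hmin : ∀ T : List ((ℤ × ℤ) × Polynomial ℚ), T.length < S.length → (∀ s ∈ T, Good L2 s) →
      ∀ M' : ℕ, 0 < M' → Ac ℚ (dl ℚ (M' • u) * dl ℚ (M' • w) * PS T) c ≠ 0 := by
    intro T hT hgood M' hM' h0
    have := Nat.find_min' hex ⟨T, rfl, hgood, M', hM', h0⟩
    omega
  set e := Ac ℚ (PS S) c with he
  have hef : (Set.range e).Finite := Ac_finite_range _ hc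
  have hMu : M • u ≠ 0 := by
    intro h
    rcases smul_eq_zero.1 h with h | h
    · exact hM.ne' h
    · exact hu h
  have hMw : M • w ≠ 0 := by
    intro h
    rcases smul_eq_zero.1 h with h | h
    · exact hM.ne' h
    · exact hw h
  have hek : Ac ℚ (dl ℚ (M • u) * dl ℚ (M • w)) e = 0 := by
    rw [he, ← Ac_mul]
    exact hkill
  have hMZ : (M : ℤ) ≠ 0 := by exact_mod_cast hM.ne'
  have hsm1 : ∀ x : ℤ × ℤ, (M • x).1 = M * x.1 := fun x => by
    rw [Prod.smul_fst, nsmul_eq_mul]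
  have hsm2 : ∀ x : ℤ × ℤ, (M • x).2 = M * x.2 := fun x => by
    rw [Prod.smul_snd, nsmul_eq_mul]
  have hdetM : (M • u).1 * (M • w).2 - (M • u).2 * (M • w).1 ≠ 0 := by
    rw [hsm1, hsm2, hsm1, hsm2]
    have e1 : (M : ℤ) * u.1 * (M * w.2) - M * u.2 * (M * w.1) =
        M * M * (u.1 * w.2 - u.2 * w.1) := by ring
    rw [e1]
    exact mul_ne_zero (mul_ne_zero hMZ hMZ) hdet
  -- nonperiodicity
  have hen : ¬ Per e := by
    rintro ⟨p, hp, hper⟩
    have h1 : Ac ℚ (dl ℚ p * PS S) c = 0 := by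
      rw [Ac_mul, ← he, Ac_dl_eq_zero]
      exact hper
    have h2 := collapse hc L2 S hSgood (dl ℚ p) h1
    rw [← dp_cons] at h2
    have h3 := hL.min (p ::ₘ L2) (by
      intro x hx
      rw [Multiset.mem_cons] at hx
      rcases hx with rfl | hx
      · exact hp
      · exact hL.ne x (by simp [hx])) h2
    simp only [Multiset.card_cons] at h3
    omega
  -- divisibility
  have hW : ∀ f : GR ℚ, BI (Ac ℚ (PS S) c) (Ac ℚ f c) → PS S ∣ f := by
    intro f hf
    have key : ∀ T R : List ((ℤ × ℤ) × Polynomial ℚ), T ++ R = S → PS T ∣ f := by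
      intro T
      induction T using List.reverseRecOn with
      | nil => intro R _; rw [PS_nil]; exact one_dvd _
      | append_singleton T s ih =>
        intro R hTR
        have hTR' : T ++ (s :: R) = S := by
          rw [← hTR]; simp
        obtain ⟨f1, hf1⟩ := ih (s :: R) hTR'
        have hsS : s ∈ S := by rw [← hTR']; simp
        obtain ⟨x, hx, Φ, N, hN, hΦ, hNx, hirr, hsdvd⟩ := hSgood s hsS
        set e'' := Ac ℚ (dl ℚ (M • u) * dl ℚ (M • w) * PS (T ++ R)) c with he''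
        have he''f : (Set.range e'').Finite := Ac_finite_range _ hc
        have hkill'' : Ac ℚ (pol s.1 s.2) e'' = 0 := by
          rw [he'', ← Ac_mul]
          have e1 : pol s.1 s.2 * (dl ℚ (M • u) * dl ℚ (M • w) * PS (T ++ R)) =
              dl ℚ (M • u) * dl ℚ (M • w) * PS S := by
            rw [← hTR', PS_append, PS_append, PS_cons]
            ring
          rw [e1]
          exact hkill
        have hper'' : ∀ z, e'' (z + x) = e'' z := by
          rw [← Ac_dl_eq_zero]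
          refine Ac_kill_of_dvd ?_ hkill''
          have := map_dvd (pol s.1) hsdvd
          rwa [pol_X_pow_sub_one, hNx] at this
        have hTRlen : (T ++ R).length < S.length := by
          rw [← hTR']
          simp
        have hTRgood : ∀ s ∈ T ++ R, Good L2 s := by
          intro s' hs'
          apply hSgood
          rw [← hTR']
          rw [List.mem_append] at hs' ⊢
          rcases hs' with h | h
          · exact Or.inl h
          · exact Or.inr (List.mem_cons_of_mem _ h)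
        have hnd : ¬ DP e'' := by
          rintro ⟨Q, hQ, hper⟩
          -- the period `Q • M • u`
          have h1 : Ac ℚ (dl ℚ (Q • (M • u)) * (dl ℚ (M • u) * (dl ℚ (M • w) * PS (T ++ R)))) c
              = 0 := by
            rw [Ac_mul, ← mul_assoc, ← he'', Ac_dl_eq_zero]
            exact fun z => hper _ z
          have h2 : Ac ℚ ((dl ℚ (Q • (M • u)) * dl ℚ (Q • (M • u))) *
              (dl ℚ (M • w) * PS (T ++ R))) c = 0 := by
            refine Ac_kill_of_dvd ?_ h1
            rw [mul_assoc]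
            exact mul_dvd_mul_left _ (mul_dvd_mul_right (dl_dvd_nsmul _ _) _)
          rw [Ac_mul] at h2
          have h3 := dd_zero (Ac_finite_range _ hc) _ h2
          rw [← Ac_mul] at h3
          have h4 : Ac ℚ (dl ℚ ((Q * M) • u) * dl ℚ ((Q * M) • w) * PS (T ++ R)) c = 0 := by
            rw [mul_smul, mul_smul, mul_assoc]
            refine Ac_kill_of_dvd ?_ h3
            exact mul_dvd_mul_left _ (mul_dvd_mul_right (dl_dvd_nsmul _ _) _)
          exact hmin _ hTRlen hTRgood (Q * M) (Nat.mul_pos hQ hM) h4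
        -- the block image
        have hg : DP (Ac ℚ f1 e'') := by
          have e1 : Ac ℚ f1 e'' = Ac ℚ (dl ℚ (M • u) * dl ℚ (M • w) * PS R) (Ac ℚ f c) := by
            rw [he'', ← Ac_mul, ← Ac_mul, hf1, PS_append]
            congr 1
            ring
          have hbi : BI e (Ac ℚ f1 e'') := by
            rw [e1]
            exact BI.Ac hf _
          have hd := hdetx x hx
          refine BI.dp hef (u := M • u) (w := M • w) (v := x) ?_ ?_ hek hbi
            (fun z => Ac_per hper'' z)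
          · rw [hsm1, hsm2]
            have e2 : (M : ℤ) * u.1 * x.2 - M * u.2 * x.1 = M * (u.1 * x.2 - u.2 * x.1) := by ring
            rw [e2]
            exact mul_ne_zero hMZ hd.1
          · rw [hsm1, hsm2]
            have e2 : x.1 * (M * w.2) - x.2 * (M * w.1) = M * (x.1 * w.2 - x.2 * w.1) := by ring
            rw [e2]
            exact mul_ne_zero hMZ hd.2
        have hdvd := dvd_dir he''f Φ hΦ hN (by rw [hNx]; exact hper'') hirr hkill'' hnd hg
        rw [PS_append, PS_cons, PS_nil, mul_one, hf1]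
        exact mul_dvd_mul_left _ hdvd
    exact key S [] (List.append_nil S)
  have h1 := count hc hD S (fun s hs => (hSgood s hs).ne) hW
  have h2 := rat_two' hef hen hMu hMw hdetM hek (er_convex S hD)
  rw [← he] at h1
  omega

/-- The Sander–Tijdeman conjecture. -/
theorem nivat {A : Type*} [Finite A] (c : ℤ × ℤ → A) (D : Finset (ℤ × ℤ)) (hD : LatConvex D)
    (hc : (patSet c D).ncard ≤ D.card) : Per c := by
  by_contra hn
  obtain ⟨e, he⟩ : ∃ e : A → ℚ, Function.Injective e := by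
    obtain ⟨n, ⟨e⟩⟩ := Finite.exists_equiv_fin A
    refine ⟨fun a => ((e a : ℕ) : ℚ), fun a b hab => e.injective (Fin.ext ?_)⟩
    have hab' : ((e a : ℕ) : ℚ) = ((e b : ℕ) : ℚ) := hab
    exact_mod_cast hab'
  have hfin : (Set.range fun z => e (c z)).Finite :=
    (Set.finite_range e).subset (by rintro _ ⟨z, rfl⟩; exact ⟨c z, rfl⟩)
  have hn' : ¬ Per (fun z => e (c z)) := by
    rintro ⟨p, hp, h⟩
    exact hn ⟨p, hp, fun x => he (h x)⟩
  have hpat := patSet_comp e he c D
  have h1 := nivat_rat hfin hn' hD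
  omega

end Pool.Agent.Helper58.Nivat
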