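import Pool.Agent.Helper58.Nivat.Two

/-!
Convex windows contained in two adjacent lattice lines: change of coordinates.
-/

namespace Pool.Agent.Helper58.Nivat

/-- A finite set of integers without gaps is an interval. -/
theorem interval_of_noGap (T : Finset ℤ)
    (h : ∀ t1 t2 t3 : ℤ, t1 ∈ T → t3 ∈ T → t1 ≤ t2 → t2 ≤ t3 → t2 ∈ T) :
    ∃ (α : ℤ) (a : ℕ), ∀ t, t ∈ T ↔ α ≤ t ∧ t < α + a := by
  rcases T.eq_empty_or_nonempty with rfl | hne
  · exact ⟨0, 0, fun t => by simp⟩
  · refine ⟨T.min' hne, (T.max' hne - T.min' hne + 1).toNat, fun t => ?_⟩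
    have hle : T.min' hne ≤ T.max' hne := Finset.min'_le _ _ (Finset.max'_mem _ _)
    rw [Int.toNat_of_nonneg (by omega)]
    constructor
    · intro ht
      have h1 := Finset.min'_le _ _ ht
      have h2 := Finset.le_max' _ _ ht
      exact ⟨h1, by omega⟩
    · rintro ⟨h1, h2⟩
      exact h _ t _ (Finset.min'_mem _ _) (Finset.max'_mem _ _) h1 (by omega)

/-- The points of a convex window on a lattice line form an interval. -/
theorem line_interval (D : Finset (ℤ × ℤ)) (K : Set (ℝ × ℝ)) (hK : Convex ℝ K)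
    (hD : ∀ z : ℤ × ℤ, z ∈ D ↔ ((z.1 : ℝ), (z.2 : ℝ)) ∈ K) {p q : ℤ} (hpq : p ≠ 0 ∨ q ≠ 0)
    (z : ℤ × ℤ) :
    ∃ (α : ℤ) (a : ℕ), ∀ t : ℤ, (z.1 + t * q, z.2 - t * p) ∈ D ↔ α ≤ t ∧ t < α + a := by
  classical
  have hinj : Function.Injective fun t : ℤ => ((z.1 + t * q, z.2 - t * p) : ℤ × ℤ) := by
    intro t s hts
    simp only [Prod.mk.injEq] at hts
    rcases hpq with h | h
    · exact mul_right_cancel₀ h (by linarith [hts.2])
    · exact mul_right_cancel₀ h (by linarith [hts.1])
  set T : Finset ℤ := D.preimage (fun t : ℤ => ((z.1 + t * q, z.2 - t * p) : ℤ × ℤ))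
    hinj.injOn with hT
  have hmem : ∀ t, t ∈ T ↔ (z.1 + t * q, z.2 - t * p) ∈ D := fun t => Finset.mem_preimage
  obtain ⟨α, a, h⟩ := interval_of_noGap T (by
    intro t1 t2 t3 h1 h3 h12 h23
    rw [hmem, hD] at *
    rcases eq_or_lt_of_le (h12.trans h23) with heq | hlt
    · have : t2 = t1 := by omega
      rw [this]; exact h1
    · have hlt' : (0 : ℝ) < (t3 : ℝ) - t1 := by
        have : (t1 : ℝ) < t3 := by exact_mod_cast hlt
        linarith
      have hc := hK h1 h3 (a := ((t3 : ℝ) - t2) / (t3 - t1)) (b := ((t2 : ℝ) - t1) / (t3 - t1))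
        (by
          apply div_nonneg _ hlt'.le
          have : (t2 : ℝ) ≤ t3 := by exact_mod_cast h23
          linarith)
        (by
          apply div_nonneg _ hlt'.le
          have : (t1 : ℝ) ≤ t2 := by exact_mod_cast h12
          linarith)
        (by field_simp; ring)
      convert hc using 1
      apply Prod.ext
      · simp only [Prod.smul_mk, Prod.mk_add_mk, smul_eq_mul]
        push_cast
        field_simp
        ring
      · simp only [Prod.smul_mk, Prod.mk_add_mk, smul_eq_mul]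
        push_cast
        field_simp
        ring)
  exact ⟨α, a, fun t => by rw [← hmem, h]⟩

/-- If the number of `D`-patterns of `c` is at most the number of points of the convex window `D`
on two adjacent parallel lattice lines, then `c` is periodic. -/
theorem two_lines {A : Type*} [Finite A] (D : Finset (ℤ × ℤ)) (K : Set (ℝ × ℝ))
    (hK : Convex ℝ K) (hD : ∀ z : ℤ × ℤ, z ∈ D ↔ ((z.1 : ℝ), (z.2 : ℝ)) ∈ K)
    (p q m : ℤ) (hpq : IsCoprime p q) (c : ℤ × ℤ → A)
    (hc : (Set.range (fun t : ℤ × ℤ => fun d : D => c (t + (d : ℤ × ℤ)))).ncard ≤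
      (D.filter fun z => p * z.1 + q * z.2 = m ∨ p * z.1 + q * z.2 = m + 1).card) :
    ∃ v : ℤ × ℤ, v ≠ 0 ∧ ∀ x : ℤ × ℤ, c (x + v) = c x := by
  classical
  obtain ⟨α', β', hαβ⟩ := hpq
  have hne : p ≠ 0 ∨ q ≠ 0 := by
    by_contra hcon
    push Not at hcon
    rw [hcon.1, hcon.2] at hαβ
    simp at hαβ
  -- the points of a line
  have hker : ∀ (x y : ℤ), p * x + q * y = 0 → ∃ t : ℤ, x = t * q ∧ y = -(t * p) := by
    intro x y hxy
    refine ⟨β' * x - α' * y, ?_, ?_⟩
    · have : (β' * x - α' * y) * q = (α' * p + β' * q) * x - α' * (p * x + q * y) := by ring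
      rw [this, hxy, hαβ]; ring
    · have : -((β' * x - α' * y) * p) = (α' * p + β' * q) * y - β' * (p * x + q * y) := by ring
      rw [this, hxy, hαβ]; ring
  -- base points of the two lines
  obtain ⟨α, a, ha⟩ := line_interval D K hK hD hne (m * α', m * β')
  obtain ⟨β, b, hb⟩ := line_interval D K hK hD hne ((m + 1) * α', (m + 1) * β')
  -- origins of the two intervals
  set z0 : ℤ × ℤ := (m * α' + α * q, m * β' - α * p) with hz0
  set z1 : ℤ × ℤ := ((m + 1) * α' + β * q, (m + 1) * β' - β * p) with hz1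
  set e1 : ℤ × ℤ := (q, -p) with he1
  set e2 : ℤ × ℤ := z1 - z0 with he2
  have ha' : ∀ s : ℤ, z0 + s • e1 ∈ D ↔ 0 ≤ s ∧ s < a := by
    intro s
    have h1 := ha (α + s)
    have h2 : z0 + s • e1 = (m * α' + (α + s) * q, m * β' - (α + s) * p) := by
      apply Prod.ext <;> simp [hz0, he1] <;> ring
    rw [h2, h1]
    constructor <;> rintro ⟨h3, h4⟩ <;> constructor <;> omega
  have hb' : ∀ s : ℤ, z1 + s • e1 ∈ D ↔ 0 ≤ s ∧ s < b := by
    intro s
    have h1 := hb (β + s)
    have h2 : z1 + s • e1 = ((m + 1) * α' + (β + s) * q, (m + 1) * β' - (β + s) * p) := by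
      apply Prod.ext <;> simp [hz1, he1] <;> ring
    rw [h2, h1]
    constructor <;> rintro ⟨h3, h4⟩ <;> constructor <;> omega
  have hφ0 : p * z0.1 + q * z0.2 = m := by
    have : p * z0.1 + q * z0.2 = m * (α' * p + β' * q) := by simp only [hz0]; ring
    rw [this, hαβ, mul_one]
  have hφ1 : p * z1.1 + q * z1.2 = m + 1 := by
    have : p * z1.1 + q * z1.2 = (m + 1) * (α' * p + β' * q) := by simp only [hz1]; ring
    rw [this, hαβ, mul_one]
  have hφe2 : p * e2.1 + q * e2.2 = 1 := by
    simp only [he2, Prod.fst_sub, Prod.snd_sub]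
    linarith
  -- the cardinality of the window
  have hcard : (D.filter fun z => p * z.1 + q * z.2 = m ∨ p * z.1 + q * z.2 = m + 1).card ≤
      a + b := by
    have hsub : (D.filter fun z => p * z.1 + q * z.2 = m ∨ p * z.1 + q * z.2 = m + 1) ⊆ (Finset.univ : Finset (Fin a)).image (fun s : Fin a => z0 + ((s : ℕ) : ℤ) • e1) ∪
        (Finset.univ : Finset (Fin b)).image (fun s : Fin b => z1 + ((s : ℕ) : ℤ) • e1) := by
      intro z hz
      obtain ⟨hz, hw⟩ := Finset.mem_filter.1 hz
      rw [Finset.mem_union]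
      rcases hw with h | h
      · left
        obtain ⟨t, ht1, ht2⟩ := hker (z.1 - z0.1) (z.2 - z0.2) (by linarith)
        have h1 : z = z0 + t • e1 := by
          apply Prod.ext
          · simp only [he1, Prod.fst_add, Prod.smul_fst, smul_eq_mul]; linarith
          · simp only [he1, Prod.snd_add, Prod.smul_snd, smul_eq_mul]; linarith
        rw [h1, ha'] at hz
        rw [Finset.mem_image]
        refine ⟨(⟨t.toNat, by omega⟩ : Fin a), Finset.mem_univ _, ?_⟩
        simp only [Int.toNat_of_nonneg hz.1]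
        exact h1.symm
      · right
        obtain ⟨t, ht1, ht2⟩ := hker (z.1 - z1.1) (z.2 - z1.2) (by linarith)
        have h1 : z = z1 + t • e1 := by
          apply Prod.ext
          · simp only [he1, Prod.fst_add, Prod.smul_fst, smul_eq_mul]; linarith
          · simp only [he1, Prod.snd_add, Prod.smul_snd, smul_eq_mul]; linarith
        rw [h1, hb'] at hz
        rw [Finset.mem_image]
        refine ⟨(⟨t.toNat, by omega⟩ : Fin b), Finset.mem_univ _, ?_⟩
        simp only [Int.toNat_of_nonneg hz.1]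
        exact h1.symm
    calc _ ≤ _ := Finset.card_le_card hsub
      _ ≤ _ := Finset.card_union_le _ _
      _ ≤ a + b := by
        refine Nat.add_le_add ?_ ?_
        · exact Finset.card_image_le.trans (by simp)
        · exact Finset.card_image_le.trans (by simp)
  -- the sheared configuration
  set c' : ℤ → ℤ → A := fun i j => c (i • e1 + j • e2) with hc'
  have hmem0 : ∀ s : Fin a, z0 + ((s : ℕ) : ℤ) • e1 ∈ D := fun s =>
    (ha' _).2 ⟨Int.natCast_nonneg _, by exact_mod_cast s.2⟩
  have hmem1 : ∀ s : Fin b, z1 + ((s : ℕ) : ℤ) • e1 ∈ D := fun s =>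
    (hb' _).2 ⟨Int.natCast_nonneg _, by exact_mod_cast s.2⟩
  have hle : (pats c' a b).ncard ≤
      (Set.range (fun t : ℤ × ℤ => fun d : D => c (t + (d : ℤ × ℤ)))).ncard := by
    set Ψ : (D → A) → (Fin a → A) × (Fin b → A) := fun w =>
      (fun s => w ⟨_, hmem0 s⟩, fun s => w ⟨_, hmem1 s⟩) with hΨ
    have hfin : (Set.range (fun t : ℤ × ℤ => fun d : D => c (t + (d : ℤ × ℤ)))).Finite :=
      Set.toFinite _
    refine (Set.ncard_le_ncard ?_ (hfin.image Ψ)).trans (Set.ncard_image_le hfin)
    rintro _ ⟨⟨i, j⟩, rfl⟩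
    refine ⟨_, ⟨i • e1 + j • e2 - z0, rfl⟩, ?_⟩
    apply Prod.ext
    · funext s
      show c (i • e1 + j • e2 - z0 + (z0 + ((s : ℕ) : ℤ) • e1)) =
        c ((i + ((s : ℕ) : ℤ)) • e1 + j • e2)
      congr 1
      rw [add_smul]
      abel
    · funext s
      show c (i • e1 + j • e2 - z0 + (z1 + ((s : ℕ) : ℤ) • e1)) =
        c ((i + ((s : ℕ) : ℤ)) • e1 + (j + 1) • e2)
      congr 1
      rw [add_smul, add_smul, one_smul, he2]
      abel
  obtain ⟨u, w, huw, hper⟩ := two_rows c' a b (hle.trans (hc.trans hcard))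
  refine ⟨u • e1 + w • e2, ?_, ?_⟩
  · intro h0
    have h1 : p * (u • e1 + w • e2).1 + q * (u • e1 + w • e2).2 = 0 := by rw [h0]; simp
    have h2 : p * (u • e1 + w • e2).1 + q * (u • e1 + w • e2).2 =
        w * (p * e2.1 + q * e2.2) := by
      simp only [Prod.fst_add, Prod.snd_add, Prod.smul_fst, Prod.smul_snd, smul_eq_mul, he1]
      ring
    rw [h2, hφe2, mul_one] at h1
    subst h1
    rcases huw with h | h
    · rw [zero_smul, add_zero] at h0
      have h3 : u * q = 0 := congrArg Prod.fst h0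
      have h4 : u * -p = 0 := congrArg Prod.snd h0
      rcases hne with h5 | h5
      · rcases mul_eq_zero.1 h4 with h6 | h6
        · exact h h6
        · exact h5 (by omega)
      · rcases mul_eq_zero.1 h3 with h6 | h6
        · exact h h6
        · exact h5 h6
    · exact h rfl
  · intro x
    obtain ⟨i, j, hij⟩ : ∃ i j : ℤ, x = i • e1 + j • e2 := by
      set j := p * x.1 + q * x.2 with hj
      obtain ⟨t, ht1, ht2⟩ := hker (x.1 - j * e2.1) (x.2 - j * e2.2) (by
        have : p * (x.1 - j * e2.1) + q * (x.2 - j * e2.2) =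
          (p * x.1 + q * x.2) - j * (p * e2.1 + q * e2.2) := by ring
        rw [this, hφe2, ← hj]; ring)
      refine ⟨t, j, ?_⟩
      apply Prod.ext
      · simp only [he1, Prod.fst_add, Prod.smul_fst, smul_eq_mul]; linarith
      · simp only [he1, Prod.snd_add, Prod.smul_snd, smul_eq_mul]; linarith
    have h1 := hper i j
    simp only [hc'] at h1
    rw [hij, ← h1]
    congr 1
    rw [add_smul, add_smul]
    abel

end Pool.Agent.Helper58.Nivat
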