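import Pool.Agent.Helper58.Nivat.Factor

/-!
The half bound for all convex windows.
-/

open AddMonoidAlgebra

namespace Pool.Agent.Helper58.Nivat

/-- A basis adapted to a nonzero vector. -/
theorem exists_equiv {u : ℤ × ℤ} (hu : u ≠ 0) :
    ∃ (N : ℕ) (Φ : (ℤ × ℤ) ≃+ (ℤ × ℤ)), 0 < N ∧ Φ ((N : ℤ), 0) = u := by
  have hg : 0 < Int.gcd u.1 u.2 := by
    rw [Int.gcd_pos_iff]
    by_contra hcon
    push Not at hcon
    exact hu (Prod.ext hcon.1 hcon.2)
  obtain ⟨a, ha⟩ := Int.gcd_dvd_left u.1 u.2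
  obtain ⟨b, hb⟩ := Int.gcd_dvd_right u.1 u.2
  set g : ℤ := (Int.gcd u.1 u.2 : ℤ) with hgdef
  have hg' : 0 < g := Int.natCast_pos.2 hg
  obtain ⟨α, β, hαβ⟩ : ∃ α β : ℤ, a * α + b * β = 1 := by
    refine ⟨Int.gcdA u.1 u.2, Int.gcdB u.1 u.2, ?_⟩
    have h1 := Int.gcd_eq_gcd_ab u.1 u.2
    apply mul_left_cancel₀ hg'.ne'
    calc g * (a * Int.gcdA u.1 u.2 + b * Int.gcdB u.1 u.2)
        = (g * a) * Int.gcdA u.1 u.2 + (g * b) * Int.gcdB u.1 u.2 := by ring
      _ = u.1 * Int.gcdA u.1 u.2 + u.2 * Int.gcdB u.1 u.2 := by rw [← ha, ← hb]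
      _ = g := h1.symm
      _ = g * 1 := by ring
  let Φ : (ℤ × ℤ) ≃+ (ℤ × ℤ) :=
    { toFun := fun z => (a * z.1 - β * z.2, b * z.1 + α * z.2)
      invFun := fun z => (α * z.1 + β * z.2, -b * z.1 + a * z.2)
      left_inv := by
        intro z
        apply Prod.ext
        · show α * (a * z.1 - β * z.2) + β * (b * z.1 + α * z.2) = z.1
          linear_combination z.1 * hαβ
        · show -b * (a * z.1 - β * z.2) + a * (b * z.1 + α * z.2) = z.2
          linear_combination z.2 * hαβ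
      right_inv := by
        intro z
        apply Prod.ext
        · show a * (α * z.1 + β * z.2) - β * (-b * z.1 + a * z.2) = z.1
          linear_combination z.1 * hαβ
        · show b * (α * z.1 + β * z.2) + α * (-b * z.1 + a * z.2) = z.2
          linear_combination z.2 * hαβ
      map_add' := by
        intro x y
        apply Prod.ext
        · show a * (x.1 + y.1) - β * (x.2 + y.2) = (a * x.1 - β * x.2) + (a * y.1 - β * y.2)
          ring
        · show b * (x.1 + y.1) + α * (x.2 + y.2) = (b * x.1 + α * x.2) + (b * y.1 + α * y.2)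
          ring }
  refine ⟨Int.gcd u.1 u.2, Φ, hg, ?_⟩
  apply Prod.ext
  · show a * g - β * 0 = u.1
    rw [ha]; ring
  · show b * g + α * 0 = u.2
    rw [hb]; ring

/-- Transport of Laurent polynomials. -/
noncomputable def trm (Φ : (ℤ × ℤ) →+ (ℤ × ℤ)) : GR ℚ →+* GR ℚ := mapDomainRingHom ℚ Φ

theorem trm_single (Φ : (ℤ × ℤ) →+ (ℤ × ℤ)) (v : ℤ × ℤ) (a : ℚ) :
    trm Φ (single v a) = single (Φ v) a := by
  unfold trm
  simp

theorem Ac_trm (Φ : (ℤ × ℤ) →+ (ℤ × ℤ)) (g : GR ℚ) (c : ℤ × ℤ → ℚ) (z : ℤ × ℤ) :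
    Ac ℚ (trm Φ g) c (Φ z) = Ac ℚ g (fun z => c (Φ z)) z := by
  induction g using AddMonoidAlgebra.induction_linear with
  | zero => rw [map_zero (trm Φ), Ac_zero, Ac_zero]; rfl
  | add f g hf hg =>
    rw [map_add (trm Φ), Ac_add, Ac_add, Pi.add_apply, Pi.add_apply, hf, hg]
  | single v a => rw [trm_single, Ac_single, Ac_single, map_add]

theorem trm_pol (Φ : (ℤ × ℤ) →+ (ℤ × ℤ)) (u : ℤ × ℤ) (μ : Polynomial ℚ) :
    trm Φ (pol u μ) = pol (Φ u) μ := by
  rw [pol_eq_sum, pol_eq_sum, map_sum]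
  refine Finset.sum_congr rfl fun i _ => ?_
  rw [trm_single, map_nsmul]

theorem trm_symm (Φ : (ℤ × ℤ) ≃+ (ℤ × ℤ)) (g : GR ℚ) :
    trm Φ.toAddMonoidHom (trm Φ.symm.toAddMonoidHom g) = g := by
  induction g using AddMonoidAlgebra.induction_linear with
  | zero => rw [map_zero, map_zero]
  | add f g hf hg => rw [map_add, map_add, hf, hg]
  | single v a =>
    rw [trm_single, trm_single]
    congr 1
    exact Φ.apply_symm_apply v

/-- A line polynomial dividing all annihilators. -/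
theorem exists_factor {e : ℤ × ℤ → ℚ} (he : (Set.range e).Finite) {u : ℤ × ℤ} (hu : u ≠ 0)
    (hper : Ac ℚ (dl ℚ u) e = 0) (hnd : ¬ DP e) :
    ∃ (v : ℤ × ℤ) (π : Polynomial ℚ), v ≠ 0 ∧ 1 ≤ π.natDegree ∧ π.coeff 0 ≠ 0 ∧
      pol v π ∣ dl ℚ u ∧ ∀ g, Ac ℚ g e = 0 → pol v π ∣ g := by
  classical
  obtain ⟨N, Φ, hN, hΦ⟩ := exists_equiv hu
  set e1 : ℤ × ℤ → ℚ := fun z => e (Φ z) with he1
  have he1f : (Set.range e1).Finite := he.subset (by
    rintro _ ⟨z, rfl⟩; exact ⟨Φ z, rfl⟩)
  have hper1 : ∀ z, e1 (z + ((N : ℤ), 0)) = e1 z := by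
    intro z
    show e (Φ (z + ((N : ℤ), 0))) = e (Φ z)
    rw [map_add, hΦ]
    exact (Ac_dl_eq_zero u e).1 hper (Φ z)
  have hnd1 : ¬ DP e1 := by
    rintro ⟨M, hM, h⟩
    apply hnd
    refine ⟨M, hM, fun v z => ?_⟩
    have := h (Φ.symm v) (Φ.symm z)
    simp only [he1, map_add, map_nsmul, AddEquiv.apply_symm_apply] at this
    exact this
  -- the ideal
  let I : Ideal (Polynomial ℚ) :=
    { carrier := {μ | DP (Ac ℚ (pol (1, 0) μ) e1)}
      add_mem' := by
        intro a b ha hb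
        show DP (Ac ℚ (pol (1, 0) (a + b)) e1)
        rw [map_add, Ac_add]
        exact DP.add ha hb
      zero_mem' := by
        show DP (Ac ℚ (pol (1, 0) 0) e1)
        rw [map_zero, Ac_zero]
        exact DP.zero
      smul_mem' := by
        intro a b hb
        show DP (Ac ℚ (pol (1, 0) (a * b)) e1)
        rw [map_mul, Ac_mul]
        exact DP.Ac hb _ }
  have hImem : ∀ μ, μ ∈ I ↔ DP (Ac ℚ (pol (1, 0) μ) e1) := fun μ => Iff.rfl
  have hXN : (Polynomial.X ^ N - 1 : Polynomial ℚ) ∈ I := by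
    rw [hImem]
    have e2 : pol (1, 0) (Polynomial.X ^ N - 1 : Polynomial ℚ) = dl ℚ ((N : ℤ), 0) := by
      unfold pol dl
      rw [map_sub, map_pow, Polynomial.aeval_X, map_one, single_pow, one_pow]
      congr 2
      apply Prod.ext <;> simp
    rw [e2, (Ac_dl_eq_zero _ _).2 hper1]
    exact DP.zero
  have hXN0 : (Polynomial.X ^ N - 1 : Polynomial ℚ) ≠ 0 := by
    have := Polynomial.X_pow_sub_C_ne_zero hN (1 : ℚ)
    rwa [Polynomial.C_1] at this
  set γ := Submodule.IsPrincipal.generator I with hγ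
  have hγI : ∀ μ, μ ∈ I ↔ γ ∣ μ := fun μ => Submodule.IsPrincipal.mem_iff_generator_dvd I
  have hγ0 : γ ≠ 0 := by
    intro h0
    have := (hγI _).1 hXN
    rw [h0, zero_dvd_iff] at this
    exact hXN0 this
  have hγu : ¬ IsUnit γ := by
    intro hun
    have h1 : (1 : Polynomial ℚ) ∈ I := (hγI _).2 hun.dvd
    rw [hImem, map_one, Ac_one] at h1
    exact hnd1 h1
  obtain ⟨π, hπ, ν, hν⟩ := WfDvdMonoid.exists_irreducible_factor hγu hγ0
  have hνI : ν ∉ I := by
    intro hmem
    obtain ⟨κ, hκ⟩ := (hγI _).1 hmem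
    have hν0 : ν ≠ 0 := by
      rintro rfl
      rw [mul_zero] at hν
      exact hγ0 hν
    have h1 : ν * 1 = ν * (π * κ) := by
      calc ν * 1 = ν := mul_one _
        _ = γ * κ := hκ
        _ = ν * (π * κ) := by rw [hν]; ring
    have h2 := mul_left_cancel₀ hν0 h1
    exact hπ.not_isUnit (IsUnit.of_mul_eq_one κ h2.symm)
  set e' := Ac ℚ (pol (1, 0) ν) e1 with he'
  have he'f : (Set.range e').Finite := Ac_finite_range _ he1f
  have hper' : ∀ z, e' (z + ((N : ℤ), 0)) = e' z := fun z => Ac_per hper1 z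
  have hD : DP (Ac ℚ (pol (1, 0) π) e') := by
    rw [he', ← Ac_mul, ← map_mul, ← hν]
    exact (hImem _).1 ((hγI _).2 dvd_rfl)
  have hπX : π ∣ Polynomial.X ^ N - 1 := by
    have h1 := (hγI _).1 hXN
    rw [hν] at h1
    exact (dvd_mul_right π ν).trans h1
  refine ⟨Φ (1, 0), π, ?_, ?_, ?_, ?_, ?_⟩
  · intro h0
    rw [map_eq_zero_iff _ Φ.injective] at h0
    simp at h0
  · exact hπ.natDegree_pos
  · intro h0
    rw [← Polynomial.X_dvd_iff] at h0
    have h1 := h0.trans hπX
    rw [Polynomial.X_dvd_iff, Polynomial.coeff_sub, Polynomial.coeff_X_pow,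
      if_neg (by omega), Polynomial.coeff_one_zero] at h1
    norm_num at h1
  · have h1 := map_dvd (pol (Φ (1, 0))) hπX
    have e2 : pol (Φ (1, 0)) (Polynomial.X ^ N - 1 : Polynomial ℚ) = dl ℚ u := by
      unfold pol dl
      rw [map_sub, map_pow, Polynomial.aeval_X, map_one, single_pow, one_pow]
      congr 2
      rw [← map_nsmul, ← hΦ]
      congr 1
      apply Prod.ext <;> simp
    rwa [e2] at h1
  · intro g hg
    have h1 : Ac ℚ (trm Φ.symm.toAddMonoidHom g) e1 = 0 := by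
      funext z
      have h2 := Ac_trm Φ.toAddMonoidHom (trm Φ.symm.toAddMonoidHom g) e z
      rw [trm_symm, hg] at h2
      exact h2.symm
    have h2 : Ac ℚ (trm Φ.symm.toAddMonoidHom g) e' = 0 := by
      rw [he', Ac_comm, h1, map_zero]
    have h3 := dvd_of_kill he'f hN hper' hπ hD ((hImem ν).not.1 hνI) h2
    have h4 := map_dvd (trm Φ.toAddMonoidHom) h3
    rw [trm_symm, trm_pol] at h4
    exact h4

/-- Coefficients of the product with a line polynomial. -/
theorem coeff_pol_mul (u : ℤ × ℤ) (π : Polynomial ℚ) (g : GR ℚ) (z : ℤ × ℤ) :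
    (pol u π * g).coeff z =
      ∑ i ∈ Finset.range (π.natDegree + 1), π.coeff i * g.coeff (z - i • u) := by
  rw [pol_eq_sum, Finset.sum_mul, coeff_sum, Finsupp.finsetSum_apply]
  refine Finset.sum_congr rfl fun i _ => ?_
  rw [coeff_single_mul_eq_mul_coeff (z - i • u)]
  intro m _
  constructor
  · intro h; rw [← h]; abel
  · intro h; rw [h]; abel

/-- Segments in a convex window. -/
theorem segment_mem {D : Finset (ℤ × ℤ)} (hD : LatConvex D) {u : ℤ × ℤ} (hu : u ≠ 0) {z : ℤ × ℤ}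
    {n : ℕ} (h0 : z ∈ D) (h1 : z + n • u ∈ D) {i : ℕ} (hi : i ≤ n) : z + i • u ∈ D := by
  obtain ⟨K, hK, hDK⟩ := hD
  obtain ⟨α, a, h⟩ := line_interval D K hK hDK (p := -u.2) (q := u.1) (by
    by_contra hcon
    push Not at hcon
    exact hu (Prod.ext hcon.2 (neg_eq_zero.1 hcon.1))) z
  have e : ∀ t : ℕ, z + t • u = (z.1 + (t : ℤ) * u.1, z.2 - (t : ℤ) * -u.2) := by
    intro t
    apply Prod.ext
    · simp only [Prod.fst_add, Prod.smul_fst]
      simp only [nsmul_eq_mul]
    · simp only [Prod.snd_add, Prod.smul_snd]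
      simp only [nsmul_eq_mul]
      ring
  have k0 := (h 0).1 (by simpa using h0)
  rw [e] at h1
  have k1 := (h n).1 h1
  rw [e, h]
  constructor
  · omega
  · omega

/-- The support of a quotient by a line polynomial. -/
theorem line_mink {D : Finset (ℤ × ℤ)} (hD : LatConvex D) {u : ℤ × ℤ} (hu : u ≠ 0)
    {π : Polynomial ℚ} (h0 : π.coeff 0 ≠ 0) {g : GR ℚ}
    (hsupp : ∀ z, (pol u π * g).coeff z ≠ 0 → z ∈ D) {z : ℤ × ℤ} (hz : g.coeff z ≠ 0) :
    z ∈ D ∧ z + π.natDegree • u ∈ D := by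
  classical
  have hπ : π ≠ 0 := by
    rintro rfl
    simp at h0
  -- the two ends
  have hinj : Function.Injective fun t : ℤ => z + t • u := by
    intro s t hst
    have h1 := add_left_cancel hst
    have h2 : (s - t) • u = 0 := by rw [sub_smul, h1, sub_self]
    rcases smul_eq_zero.1 h2 with h | h
    · omega
    · exact absurd h hu
  set T : Finset ℤ := g.coeff.support.preimage (fun t : ℤ => z + t • u) hinj.injOn with hT
  have hTmem : ∀ t, t ∈ T ↔ g.coeff (z + t • u) ≠ 0 := by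
    intro t
    rw [hT, Finset.mem_preimage, Finsupp.mem_support_iff]
  have h0T : (0 : ℤ) ∈ T := by
    rw [hTmem, zero_smul, add_zero]
    exact hz
  have hTne : T.Nonempty := ⟨0, h0T⟩
  set t0 := T.min' hTne with ht0
  set t1 := T.max' hTne with ht1
  have hm0 : g.coeff (z + t0 • u) ≠ 0 := (hTmem _).1 (Finset.min'_mem _ _)
  have hm1 : g.coeff (z + t1 • u) ≠ 0 := (hTmem _).1 (Finset.max'_mem _ _)
  have hle0 : t0 ≤ 0 := Finset.min'_le _ _ h0T
  have hle1 : 0 ≤ t1 := Finset.le_max' _ _ h0T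
  have hlow : ∀ t : ℤ, t < t0 → g.coeff (z + t • u) = 0 := by
    intro t ht
    by_contra hne
    have := Finset.min'_le T t ((hTmem t).2 hne)
    omega
  have hhigh : ∀ t : ℤ, t1 < t → g.coeff (z + t • u) = 0 := by
    intro t ht
    by_contra hne
    have := Finset.le_max' T t ((hTmem t).2 hne)
    omega
  have hD0 : z + t0 • u ∈ D := by
    apply hsupp
    rw [coeff_pol_mul, Finset.sum_eq_single 0]
    · rw [zero_smul, sub_zero]
      exact mul_ne_zero h0 hm0
    · intro i _ hi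
      have e : z + t0 • u - i • u = z + (t0 - i) • u := by
        rw [sub_smul, natCast_zsmul]; abel
      rw [e, hlow _ (by omega), mul_zero]
    · intro hnot
      exact absurd (Finset.mem_range.2 (by omega)) hnot
  have hD1 : z + t1 • u + π.natDegree • u ∈ D := by
    apply hsupp
    rw [coeff_pol_mul, Finset.sum_eq_single π.natDegree]
    · rw [add_sub_cancel_right]
      exact mul_ne_zero (Polynomial.leadingCoeff_ne_zero.2 hπ) hm1
    · intro i hi hne
      rw [Finset.mem_range] at hi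
      have e : z + t1 • u + π.natDegree • u - i • u = z + (t1 + (π.natDegree - i)) • u := by
        rw [add_smul, sub_smul, natCast_zsmul, natCast_zsmul]; abel
      rw [e, hhigh _ (by omega), mul_zero]
    · intro hnot
      exact absurd (Finset.mem_range.2 (by omega)) hnot
  -- the segment
  have hseg : ∀ i : ℕ, i ≤ (t1 - t0).toNat + π.natDegree → z + t0 • u + i • u ∈ D := by
    intro i hi
    refine segment_mem hD hu hD0 ?_ hi
    have e : z + t0 • u + ((t1 - t0).toNat + π.natDegree) • u = z + t1 • u + π.natDegree • u := by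
      rw [add_smul, ← natCast_zsmul (a := u) ((t1 - t0).toNat), Int.toNat_of_nonneg (by omega),
        sub_smul]
      abel
    rw [e]
    exact hD1
  constructor
  · have := hseg (-t0).toNat (by omega)
    rw [← natCast_zsmul, Int.toNat_of_nonneg (by omega), neg_smul] at this
    simpa using this
  · have := hseg ((-t0).toNat + π.natDegree) (by omega)
    rw [add_smul, ← natCast_zsmul (a := u) ((-t0).toNat), Int.toNat_of_nonneg (by omega),
      neg_smul] at this
    have e : z + t0 • u + (-(t0 • u) + π.natDegree • u) = z + π.natDegree • u := by abel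
    rwa [e] at this

end Pool.Agent.Helper58.Nivat
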