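import Pool.Agent.Helper58.Nivat.Act
import Pool.Agent.Helper58.Nivat.Alg

/-!
Low complexity with respect to two adjacent rows implies periodicity.
-/

open Polynomial

namespace Pool.Agent.Helper58.Nivat

/-- The polynomial with the given coefficients. -/
noncomputable def ofCoeff {a : ℕ} (u : Fin a → ℤ) : ℤ[X] := ∑ s : Fin a, C (u s) * X ^ (s : ℕ)

theorem act_ofCoeff {a : ℕ} (u : Fin a → ℤ) (r : ℤ → ℤ) (i : ℤ) :
    act (ofCoeff u) r i = ∑ s : Fin a, u s * r (i + s) := by
  unfold ofCoeff act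
  rw [map_sum, LinearMap.sum_apply, Finset.sum_apply]
  refine Finset.sum_congr rfl fun s _ => ?_
  rw [map_mul, map_pow, aeval_X, aeval_C, Module.End.mul_apply]
  show (u s) * ((sh 1 ^ (s : ℕ)) r i) = _
  rw [sh_pow_apply]
  simp

theorem natDegree_ofCoeff_lt {a : ℕ} (u : Fin a → ℤ) (h : ofCoeff u ≠ 0) :
    (ofCoeff u).natDegree < a := by
  have := degree_sum_fin_lt u
  exact (natDegree_lt_iff_degree_lt h).2 this

theorem ofCoeff_ne_zero {a : ℕ} {u : Fin a → ℤ} {s : Fin a} (h : u s ≠ 0) : ofCoeff u ≠ 0 := by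
  intro h0
  apply h
  have h1 := congrArg (fun f : ℤ[X] => f.coeff s) h0
  simp only [ofCoeff, finsetSum_coeff, coeff_C_mul, coeff_X_pow, coeff_zero] at h1
  rw [Finset.sum_eq_single s] at h1
  · simpa using h1
  · intro b _ hb
    rw [if_neg, mul_zero]
    intro h2
    exact hb (Fin.ext h2.symm)
  · intro h2; exact absurd (Finset.mem_univ s) h2

/-- The set of two-row patterns. -/
def pats {A : Type*} (c : ℤ → ℤ → A) (a b : ℕ) : Set ((Fin a → A) × (Fin b → A)) :=
  Set.range fun v : ℤ × ℤ =>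
    ((fun t : Fin a => c (v.1 + t) v.2), (fun t : Fin b => c (v.1 + t) (v.2 + 1)))

/-- An affine relation between the entries of the patterns. -/
theorem exists_relation {A : Type*} [Finite A] (c : ℤ → ℤ → A) (e : A → ℤ) (a b : ℕ)
    (hP : (pats c a b).ncard ≤ a + b) :
    ∃ (u : Fin a → ℤ) (w : Fin b → ℤ) (κ : ℤ), (u ≠ 0 ∨ w ≠ 0 ∨ κ ≠ 0) ∧
      ∀ i j, act (ofCoeff u) (fun i => e (c i j)) i +
        act (ofCoeff w) (fun i => e (c i (j + 1))) i + κ = 0 := by
  classical
  have hfin : (pats c a b).Finite := Set.toFinite _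
  have : Fintype (pats c a b) := hfin.fintype
  let β := Option (Fin a ⊕ Fin b)
  let M : Matrix (pats c a b) β ℤ := fun w t =>
    match t with
    | none => 1
    | some (Sum.inl s) => e (w.1.1 s)
    | some (Sum.inr s) => e (w.1.2 s)
  have hne : (pats c a b).Nonempty := Set.range_nonempty _
  have hcard : Fintype.card (pats c a b) < Fintype.card β := by
    have h1 : Fintype.card (pats c a b) = (pats c a b).ncard := by
      rw [Set.ncard_eq_toFinset_card', Set.toFinset_card]
    have h2 : Fintype.card β = a + b + 1 := by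
      simp [β]
    omega
  have hpos : 0 < Fintype.card (pats c a b) := by
    have : Nonempty (pats c a b) := hne.to_subtype
    exact Fintype.card_pos
  obtain ⟨t, ht, hMt, _⟩ := Int.Matrix.exists_ne_zero_int_vec_norm_le M hcard hpos
  refine ⟨fun s => t (some (Sum.inl s)), fun s => t (some (Sum.inr s)), t none, ?_, ?_⟩
  · by_contra hcon
    push Not at hcon
    obtain ⟨h1, h2, h3⟩ := hcon
    apply ht
    funext x
    rcases x with _ | (s | s)
    · exact h3
    · exact congrFun h1 s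
    · exact congrFun h2 s
  · intro i j
    have h1 := congrFun hMt ⟨_, ⟨(i, j), rfl⟩⟩
    rw [Matrix.mulVec, dotProduct, Fintype.sum_option, Fintype.sum_sum_type] at h1
    rw [act_ofCoeff, act_ofCoeff]
    simp only [M, Pi.zero_apply, one_mul] at h1
    rw [← h1]
    have e1 : ∀ s : Fin a, t (some (Sum.inl s)) * e (c (i + s) j) =
      e (c (i + s) j) * t (some (Sum.inl s)) := fun s => mul_comm _ _
    have e2 : ∀ s : Fin b, t (some (Sum.inr s)) * e (c (i + s) (j + 1)) =
      e (c (i + s) (j + 1)) * t (some (Sum.inr s)) := fun s => mul_comm _ _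
    simp only [e1, e2]
    ring

/-- Counting. -/
theorem two_fiber {α β : Type*} {S : Set β} (hS : S.Finite) {E : Set α} (π : β → α)
    (h : ∀ w ∈ E, ∃ p1 ∈ S, ∃ p2 ∈ S, π p1 = w ∧ π p2 = w ∧ p1 ≠ p2) :
    2 * E.ncard ≤ S.ncard := by
  classical
  rcases E.eq_empty_or_nonempty with rfl | ⟨w0, hw0⟩
  · simp
  have : Nonempty β := ⟨(h w0 hw0).choose⟩
  choose! f1 hf1 f2 hf2 h1 h2 hne using h
  have i1 : Set.InjOn f1 E := fun x hx y hy hxy => by rw [← h1 x hx, ← h1 y hy, hxy]
  have i2 : Set.InjOn f2 E := fun x hx y hy hxy => by rw [← h2 x hx, ← h2 y hy, hxy]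
  have hd : Disjoint (f1 '' E) (f2 '' E) := by
    rw [Set.disjoint_left]
    rintro _ ⟨x, hx, rfl⟩ ⟨y, hy, hxy⟩
    have : y = x := by rw [← h2 y hy, hxy, h1 x hx]
    subst this
    exact hne y hx hxy.symm
  have s1 : f1 '' E ⊆ S := by rintro _ ⟨x, hx, rfl⟩; exact hf1 x hx
  have s2 : f2 '' E ⊆ S := by rintro _ ⟨x, hx, rfl⟩; exact hf2 x hx
  calc 2 * E.ncard = (f1 '' E).ncard + (f2 '' E).ncard := by
        rw [Set.ncard_image_of_injOn i1, Set.ncard_image_of_injOn i2]; ring
    _ = (f1 '' E ∪ f2 '' E).ncard :=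
        (Set.ncard_union_eq hd (hS.subset s1) (hS.subset s2)).symm
    _ ≤ S.ncard := Set.ncard_le_ncard (Set.union_subset s1 s2) hS

theorem act_shiftX (ε : ℤ) (k : ℕ) (g : ℤ[X]) (r : ℤ → ℤ) (i : ℤ) :
    act (C ε * X ^ k * g) r i = ε * act g r (i + k) := by
  rw [mul_assoc, act_C_mul, act_mul]
  congr 1
  unfold act
  rw [map_pow, aeval_X, sh_pow_apply]
  simp

theorem act_add_right (f : ℤ[X]) (r s : ℤ → ℤ) (i : ℤ) :
    act f (fun i => r i + s i) i = act f r i + act f s i := by
  have : (fun i => r i + s i) = r + s := rfl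
  rw [this, map_add]
  rfl

theorem act_smul_right (f : ℤ[X]) (ε : ℤ) (r : ℤ → ℤ) (i : ℤ) :
    act f (fun i => ε * r i) i = ε * act f r i := by
  have : (fun i => ε * r i) = ε • r := rfl
  rw [this, map_smul]
  rfl

theorem X_sub_one_ne_zero : (X - 1 : ℤ[X]) ≠ 0 := by
  have := X_sub_C_ne_zero (1 : ℤ)
  rwa [C_1] at this

theorem act_hat (f : ℤ[X]) (r : ℤ → ℤ) {κ : ℤ} (h : ∀ i, act f r i = κ) :
    act ((X - 1) * f) r = 0 := by
  funext i
  rw [act_mul, act_X_sub_one, h, h, sub_self]
  rfl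

/-- The reduction: away from horizontal periodicity there are a single polynomial `f`, an integer
`k` and a sign `ε` with `f · (ρ_j + ε S^k ρ_{j+1})` constant. -/
theorem exists_single {ρ : ℤ → ℤ → ℤ} {B : ℤ} (hB : ∀ j i, |ρ j i| ≤ B)
    (hnp : ¬ ∃ T : ℕ, 0 < T ∧ ∀ j i, ρ j (i + T) = ρ j i) {g h : ℤ[X]} {κ : ℤ}
    (hgh : g ≠ 0 ∨ h ≠ 0) (hrel : ∀ i j, act g (ρ j) i + act h (ρ (j + 1)) i + κ = 0) :
    ∃ (f : ℤ[X]) (k ε κ' : ℤ), f ≠ 0 ∧ f.natDegree ≤ g.natDegree ∧ f.natDegree ≤ h.natDegree ∧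
      g ≠ 0 ∧ h ≠ 0 ∧ (ε = 1 ∨ ε = -1) ∧
      ∀ j i, act f (ρ j) i + ε * act f (ρ (j + 1)) (i + k) = κ' := by
  have hB0 : 0 ≤ B := (abs_nonneg _).trans (hB 0 0)
  -- a recurrence common to all rows is impossible
  have hno : ∀ F : ℤ[X], F ≠ 0 → ¬ ∀ j, act F (ρ j) = 0 := by
    intro F hF hall
    obtain ⟨L, hL, hper⟩ := recur_periodic F hF B
    exact hnp ⟨L, hL, fun j i => hper (ρ j) (hB j) (hall j) i⟩
  have hg : g ≠ 0 := by
    rintro rfl
    have hh : h ≠ 0 := hgh.resolve_left (fun h => h rfl)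
    apply hno ((X - 1) * h) (mul_ne_zero X_sub_one_ne_zero hh)
    intro j
    apply act_hat (κ := -κ)
    intro i
    have := hrel i (j - 1)
    rw [sub_add_cancel] at this
    unfold act at this
    rw [map_zero, LinearMap.zero_apply, Pi.zero_apply] at this
    unfold act
    linarith
  have hh : h ≠ 0 := by
    rintro rfl
    apply hno ((X - 1) * g) (mul_ne_zero X_sub_one_ne_zero hg)
    intro j
    apply act_hat (κ := -κ)
    intro i
    have := hrel i j
    unfold act at this
    rw [map_zero, LinearMap.zero_apply, Pi.zero_apply] at this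
    unfold act
    linarith
  set G := (X - 1) * g with hG
  set H := (X - 1) * h with hH
  have hGH : ∀ j, act G (ρ j) + act H (ρ (j + 1)) = 0 := by
    intro j
    funext i
    rw [Pi.add_apply, hG, hH, act_mul, act_mul, act_X_sub_one, act_X_sub_one]
    have h1 := hrel (i + 1) j
    have h2 := hrel i j
    rw [Pi.zero_apply]
    linarith
  obtain ⟨p, hpge, hp⟩ := Nat.exists_infinite_primes
    (g.natDegree + h.natDegree + 3 + ((nrm G + nrm H) * B).toNat + 1)
  have hpfact : Fact p.Prime := ⟨hp⟩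
  have hodd : Odd p := hp.odd_of_ne_two (by omega)
  -- iterate
  have hiter : ∀ (n : ℕ) (j : ℤ),
      act (H ^ n) (ρ (j + n)) = (-1 : ℤ) ^ n • act (G ^ n) (ρ j) := by
    intro n
    induction n with
    | zero =>
      intro j
      simp [act]
    | succ n ih =>
      intro j
      have e1 : j + ((n + 1 : ℕ) : ℤ) = (j + n) + 1 := by push_cast; ring
      have h1 : act H (ρ (j + n + 1)) = -act G (ρ (j + n)) := by
        have := hGH (j + n)
        rw [add_comm] at this
        exact eq_neg_of_add_eq_zero_left this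
      rw [e1, pow_succ, act_mul, h1, map_neg, act_comm, ih, map_smul, ← act_mul, pow_succ, pow_succ,
        mul_comm G]
      rw [mul_neg_one, neg_smul]
  have hzero : ∀ j, act (expand ℤ p G) (ρ j) + act (expand ℤ p H) (ρ (j + p)) = 0 := by
    intro j
    funext i
    rw [Pi.add_apply, Pi.zero_apply]
    obtain ⟨q1, hq1⟩ := exists_frob p G
    obtain ⟨q2, hq2⟩ := exists_frob p H
    have h1 := congrFun (hiter p j) i
    rw [hodd.neg_one_pow, neg_one_smul, Pi.neg_apply, hq1, hq2, act_add, act_add, Pi.add_apply,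
      Pi.add_apply, act_C_mul, act_C_mul] at h1
    apply Int.eq_zero_of_abs_lt_dvd (m := (p : ℤ))
    · refine ⟨-(act q1 (ρ j) i + act q2 (ρ (j + p)) i), ?_⟩
      linarith
    · have b1 := act_expand_bound p G (hB j) i
      have b2 := act_expand_bound p H (hB (j + p)) i
      have b3 := abs_add_le (act (expand ℤ p G) (ρ j) i) (act (expand ℤ p H) (ρ (j + p)) i)
      have b4 : (nrm G + nrm H) * B ≤ (((nrm G + nrm H) * B).toNat : ℤ) := Int.self_le_toNat _
      have b5 : (((nrm G + nrm H) * B).toNat : ℤ) < p := by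
        have : ((nrm G + nrm H) * B).toNat < p := by omega
        exact_mod_cast this
      calc _ ≤ nrm G * B + nrm H * B := by linarith
        _ = (nrm G + nrm H) * B := by ring
        _ < p := by linarith
  have hF : expand ℤ p G * H ^ p - expand ℤ p H * G ^ p = 0 := by
    by_contra hne
    apply hno _ hne
    intro j
    have h1 := congrArg (act (H ^ p)) (hzero j)
    rw [map_add, map_zero, act_comm, act_comm _ (expand ℤ p H), hiter, hodd.neg_one_pow,
      neg_one_smul, map_neg, ← act_mul, ← act_mul] at h1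
    rw [act_sub, sub_eq_add_neg]
    exact h1
  have hid : expand ℤ p g * h ^ p = expand ℤ p h * g ^ p := by
    have hc0 : expand ℤ p (X - 1) * (X - 1) ^ p ≠ 0 :=
      mul_ne_zero ((expand_ne_zero hp.pos).2 X_sub_one_ne_zero) (pow_ne_zero _ X_sub_one_ne_zero)
    apply mul_left_cancel₀ hc0
    rw [sub_eq_zero, hG, hH, map_mul, map_mul, mul_pow, mul_pow] at hF
    calc expand ℤ p (X - 1) * (X - 1) ^ p * (expand ℤ p g * h ^ p)
        = expand ℤ p (X - 1) * expand ℤ p g * ((X - 1) ^ p * h ^ p) := by ring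
      _ = expand ℤ p (X - 1) * expand ℤ p h * ((X - 1) ^ p * g ^ p) := hF
      _ = _ := by ring
  obtain ⟨k, ε, hε, hk⟩ := shift_of_identity hg hh (by omega) (by omega) hid
  have hεC : C ε ≠ 0 := by
    rw [C_ne_zero]; rcases hε with rfl | rfl <;> norm_num
  have hεε : ε * ε = 1 := by rcases hε with rfl | rfl <;> norm_num
  rcases hk with hk | hk
  · refine ⟨g, k, ε, -κ, hg, le_rfl, ?_, hg, hh, hε, fun j i => ?_⟩
    · rw [hk, natDegree_mul (mul_ne_zero hεC (pow_ne_zero _ X_ne_zero)) hg]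
      omega
    · have := hrel i j
      rw [hk, act_shiftX] at this
      linarith
  · refine ⟨h, -k, ε, -(ε * κ), hh, ?_, le_rfl, hg, hh, hε, fun j i => ?_⟩
    · rw [hk, natDegree_mul (mul_ne_zero hεC (pow_ne_zero _ X_ne_zero)) hh]
      omega
    · have := hrel (i + -k) j
      rw [hk, act_shiftX] at this
      have e1 : i + -(k : ℤ) + k = i := by ring
      rw [e1] at this
      have h2 : ε * (ε * act h (ρ j) i + act h (ρ (j + 1)) (i + -k) + κ) = 0 := by
        rw [this, mul_zero]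
      have h3 : (ε * ε) * act h (ρ j) i + ε * act h (ρ (j + 1)) (i + -k) + ε * κ = 0 := by
        rw [← h2]; ring
      rw [hεε, one_mul] at h3
      linarith

end Pool.Agent.Helper58.Nivat
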