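import Mathlib

/-!
One-dimensional facts: deterministic sequences in a finite set are periodic, and the
Morse–Hedlund bound for families of rows.
-/

namespace Pool.Agent.Helper58.Nivat

theorem det_step {X : Type*} {x : ℤ → X} (h : ∀ i i', x i = x i' → x (i + 1) = x (i' + 1))
    {p q : ℤ} (hpq : x p = x q) (n : ℕ) : x (p + n) = x (q + n) := by
  induction n with
  | zero => simpa using hpq
  | succ n ih =>
    have := h _ _ ih
    push_cast
    rw [← add_assoc, ← add_assoc]
    exact this

/-- A deterministic two-sided sequence in a finite set is periodic, with a period depending only on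
the number of elements. -/
theorem det_periodic {X : Type*} (S : Set X) (hS : S.Finite) :
    ∃ L : ℕ, 0 < L ∧ ∀ x : ℤ → X, (∀ i, x i ∈ S) →
      (∀ i i', x i = x i' → x (i + 1) = x (i' + 1)) → ∀ i, x (i + L) = x i := by
  classical
  refine ⟨Nat.factorial S.ncard, Nat.factorial_pos _, fun x hx h i => ?_⟩
  set M := S.ncard with hM
  -- pigeonhole on the window `i - M, …, i`
  have hcard : (hS.toFinset).card < (Finset.range (M + 1)).card := by
    rw [Finset.card_range, ← Set.ncard_eq_toFinset_card S hS]
    omega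
  obtain ⟨u, hu, v, hv, huv, he⟩ := Finset.exists_ne_map_eq_of_card_lt_of_maps_to hcard
    (f := fun n : ℕ => x (i - M + n)) (fun n _ => by
      rw [Finset.mem_coe, Set.Finite.mem_toFinset]; exact hx _)
  rw [Finset.mem_range] at hu hv
  -- the period
  obtain ⟨p, δ, hp, hδ, hδM, hpδ, he'⟩ : ∃ (p : ℤ) (δ : ℕ), p ≤ i ∧ 0 < δ ∧ δ ≤ M ∧ p + δ ≤ i ∧
      x p = x (p + δ) := by
    rcases lt_or_gt_of_ne huv with hlt | hlt
    · refine ⟨i - M + u, v - u, by omega, by omega, by omega, by omega, ?_⟩
      rw [he]
      congr 1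
      push_cast [Nat.cast_sub hlt.le]
      ring
    · refine ⟨i - M + v, u - v, by omega, by omega, by omega, by omega, ?_⟩
      rw [← he]
      congr 1
      push_cast [Nat.cast_sub hlt.le]
      ring
  have hper : ∀ t : ℤ, p ≤ t → x (t + δ) = x t := by
    intro t ht
    have := det_step h he' (t - p).toNat
    have e : (((t - p).toNat : ℕ) : ℤ) = t - p := Int.toNat_of_nonneg (by omega)
    rw [e] at this
    have e1 : p + (t - p) = t := by ring
    have e2 : p + δ + (t - p) = t + δ := by ring
    rw [e1, e2] at this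
    exact this.symm
  have hmul : ∀ n : ℕ, x (i + n * δ) = x i := by
    intro n
    induction n with
    | zero => simp
    | succ n ih =>
      have : i + ((n + 1 : ℕ) : ℤ) * δ = (i + n * δ) + δ := by push_cast; ring
      rw [this, hper _ (by
        have : (0 : ℤ) ≤ (n : ℤ) * δ := by positivity
        omega), ih]
  obtain ⟨n, hn⟩ : δ ∣ Nat.factorial M := Nat.dvd_factorial hδ hδM
  have := hmul n
  rw [hn]
  push_cast
  rw [mul_comm]
  exact this

/-- The backward version. -/
theorem det_periodic_back {X : Type*} (S : Set X) (hS : S.Finite) :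
    ∃ L : ℕ, 0 < L ∧ ∀ x : ℤ → X, (∀ i, x i ∈ S) →
      (∀ i i', x i = x i' → x (i - 1) = x (i' - 1)) → ∀ i, x (i + L) = x i := by
  obtain ⟨L, hL, h⟩ := det_periodic S hS
  refine ⟨L, hL, fun x hx hd i => ?_⟩
  have := h (fun i => x (-i)) (fun i => hx _) (fun i i' hii => by
    have := hd _ _ hii
    have e1 : -(i + 1) = -i - 1 := by ring
    have e2 : -(i' + 1) = -i' - 1 := by ring
    simp only [e1, e2]
    exact this) (-(i + L))
  have e1 : -(-(i + (L : ℤ)) + L) = i := by ring
  have e2 : -(-(i + (L : ℤ))) = i + L := by ring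
  simp only [e1, e2] at this
  exact this.symm

/-- The words of length `n` in a family of rows. -/
def words {A J : Type*} (c : ℤ → J → A) (n : ℕ) : Set (Fin n → A) :=
  Set.range fun v : ℤ × J => fun t : Fin n => c (v.1 + t) v.2

theorem words_finite {A J : Type*} [Finite A] (c : ℤ → J → A) (n : ℕ) : (words c n).Finite :=
  Set.toFinite _

/-- Morse–Hedlund for families of rows. -/
theorem morse_hedlund {A J : Type*} [Finite A] [Nonempty J] (c : ℤ → J → A)
    (hc : ¬ ∃ T : ℕ, 0 < T ∧ ∀ i j, c (i + T) j = c i j) (n : ℕ) :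
    n + 1 ≤ (words c n).ncard := by
  induction n with
  | zero =>
    have : (words c 0).Nonempty := Set.range_nonempty _
    have := (Set.ncard_pos (words_finite c 0)).2 this
    omega
  | succ n ih =>
    by_contra hcon
    have hle : (words c (n + 1)).ncard ≤ (words c n).ncard := by omega
    -- the truncation map
    set tr : (Fin (n + 1) → A) → (Fin n → A) := fun w t => w t.castSucc with htr
    have himg : tr '' (words c (n + 1)) = words c n := by
      ext w
      constructor
      · rintro ⟨_, ⟨v, rfl⟩, rfl⟩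
        exact ⟨v, rfl⟩
      · rintro ⟨v, rfl⟩
        exact ⟨_, ⟨v, rfl⟩, rfl⟩
    have hinj : Set.InjOn tr (words c (n + 1)) := by
      rw [← Set.ncard_image_iff (words_finite c (n + 1)), himg]
      exact le_antisymm (by rw [← himg]; exact Set.ncard_image_le (words_finite c (n + 1))) hle
    have hdet : ∀ v v' : ℤ × J,
        (fun t : Fin n => c (v.1 + t) v.2) = (fun t : Fin n => c (v'.1 + t) v'.2) →
        (fun t : Fin (n + 1) => c (v.1 + t) v.2) =
          (fun t : Fin (n + 1) => c (v'.1 + t) v'.2) := by
      intro v v' h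
      apply hinj ⟨v, rfl⟩ ⟨v', rfl⟩
      exact h
    obtain ⟨L, hL, hper⟩ := det_periodic (words c n) (words_finite c n)
    apply hc
    refine ⟨L, hL, fun i j => ?_⟩
    have h1 := hper (fun i => fun t : Fin n => c (i + t) j) (fun i => ⟨(i, j), rfl⟩)
      (fun i i' h => by
        have h2 := hdet (i, j) (i', j) h
        funext t
        have h3 := congrFun h2 t.succ
        simp only [Fin.val_succ, Nat.cast_add, Nat.cast_one] at h3
        have e1 : i + 1 + (t : ℤ) = i + (t + 1) := by ring
        have e2 : i' + 1 + (t : ℤ) = i' + (t + 1) := by ring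
        simp only [e1, e2]
        exact h3) i
    have h2 := hdet (i + L, j) (i, j) h1
    have h3 := congrFun h2 0
    simpa using h3

/-- Morse–Hedlund for one sequence. -/
theorem morse_hedlund_one {A : Type*} [Finite A] (r : ℤ → A)
    (hr : ¬ ∃ T : ℕ, 0 < T ∧ ∀ i, r (i + T) = r i) (n : ℕ) :
    n + 1 ≤ (Set.range fun i : ℤ => fun t : Fin n => r (i + t)).ncard := by
  have h := morse_hedlund (J := Unit) (fun i _ => r i) (by
    rintro ⟨T, hT, h⟩
    exact hr ⟨T, hT, fun i => h i ()⟩) n
  have e : words (J := Unit) (fun i _ => r i) n = Set.range fun i : ℤ => fun t : Fin n => r (i + t) := by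
    ext w
    constructor
    · rintro ⟨v, rfl⟩; exact ⟨v.1, rfl⟩
    · rintro ⟨i, rfl⟩; exact ⟨(i, ()), rfl⟩
  rwa [e] at h

end Pool.Agent.Helper58.Nivat
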