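import Pool.Agent.Helper58.Nivat.Full

/-!
Rectangular windows.
-/

namespace Pool.Agent.Helper58.Nivat

/-- The rectangle. -/
noncomputable def rect (n m : ℕ) : Finset (ℤ × ℤ) := Finset.Ico (0 : ℤ) n ×ˢ Finset.Ico (0 : ℤ) m

theorem mem_rect {n m : ℕ} {z : ℤ × ℤ} :
    z ∈ rect n m ↔ (0 ≤ z.1 ∧ z.1 < n) ∧ (0 ≤ z.2 ∧ z.2 < m) := by
  unfold rect
  rw [Finset.mem_product, Finset.mem_Ico, Finset.mem_Ico]

theorem card_rect (n m : ℕ) : (rect n m).card = n * m := by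
  unfold rect
  rw [Finset.card_product, Int.card_Ico, Int.card_Ico]
  simp

theorem convex_rect (n m : ℕ) : LatConvex (rect n m) := by
  refine ⟨Set.Ico (0 : ℝ) n ×ˢ Set.Ico (0 : ℝ) m, (convex_Ico _ _).prod (convex_Ico _ _),
    fun z => ?_⟩
  rw [mem_rect, Set.mem_prod, Set.mem_Ico, Set.mem_Ico]
  have h1 : (0 : ℝ) ≤ (z.1 : ℝ) ↔ 0 ≤ z.1 := by exact_mod_cast Iff.rfl
  have h2 : (z.1 : ℝ) < (n : ℝ) ↔ z.1 < n := by exact_mod_cast Iff.rfl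
  have h3 : (0 : ℝ) ≤ (z.2 : ℝ) ↔ 0 ≤ z.2 := by exact_mod_cast Iff.rfl
  have h4 : (z.2 : ℝ) < (m : ℝ) ↔ z.2 < m := by exact_mod_cast Iff.rfl
  show _ ↔ ((0 : ℝ) ≤ (z.1 : ℝ) ∧ (z.1 : ℝ) < (n : ℝ)) ∧ ((0 : ℝ) ≤ (z.2 : ℝ) ∧ (z.2 : ℝ) < (m : ℝ))
  rw [h1, h2, h3, h4]

/-- Nivat's conjecture. -/
theorem nivat_rect {A : Type*} [Finite A] (c : ℤ × ℤ → A) (n m : ℕ)
    (hc : (Set.range fun v : ℤ × ℤ => fun q : Fin n × Fin m =>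
      c (v.1 + ((q.1 : ℕ) : ℤ), v.2 + ((q.2 : ℕ) : ℤ))).ncard ≤ n * m) : Per c := by
  classical
  apply nivat c (rect n m) (convex_rect n m)
  rw [card_rect]
  refine le_trans ?_ hc
  set Ψ : (Fin n × Fin m → A) → (rect n m → A) := fun w d =>
    w (⟨(d : ℤ × ℤ).1.toNat, by have := mem_rect.1 d.2; omega⟩,
      ⟨(d : ℤ × ℤ).2.toNat, by have := mem_rect.1 d.2; omega⟩) with hΨ
  have hfin : (Set.range fun v : ℤ × ℤ => fun q : Fin n × Fin m =>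
      c (v.1 + ((q.1 : ℕ) : ℤ), v.2 + ((q.2 : ℕ) : ℤ))).Finite := Set.toFinite _
  refine (Set.ncard_le_ncard ?_ (hfin.image Ψ)).trans (Set.ncard_image_le hfin)
  rintro _ ⟨t, rfl⟩
  refine ⟨_, ⟨t, rfl⟩, ?_⟩
  funext d
  have hd := mem_rect.1 d.2
  show c (t.1 + (((d : ℤ × ℤ).1.toNat : ℕ) : ℤ), t.2 + (((d : ℤ × ℤ).2.toNat : ℕ) : ℤ)) =
    c (t + (d : ℤ × ℤ))
  congr 1
  apply Prod.ext
  · show t.1 + (((d : ℤ × ℤ).1.toNat : ℕ) : ℤ) = t.1 + (d : ℤ × ℤ).1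
    omega
  · show t.2 + (((d : ℤ × ℤ).2.toNat : ℕ) : ℤ) = t.2 + (d : ℤ × ℤ).2
    omega

end Pool.Agent.Helper58.Nivat
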