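import Mathlib

/-!
The action of Laurent polynomials in two variables on configurations with values in a ring, and
annihilation by products of difference operators (Kari–Szabados) by an elementary elimination.
-/

open AddMonoidAlgebra

namespace Pool.Agent.Helper58.Nivat

/-- Laurent polynomials in two variables. -/
abbrev GR (K : Type*) [CommRing K] := AddMonoidAlgebra K (ℤ × ℤ)

/-- Translation of configurations. -/
def shiftHom (K : Type*) [CommRing K] : Multiplicative (ℤ × ℤ) →* Module.End K (ℤ × ℤ → K) where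
  toFun v := LinearMap.funLeft K K (fun z => z + v.toAdd)
  map_one' := by
    refine LinearMap.ext fun c => ?_
    funext z
    show c (z + 0) = c z
    rw [add_zero]
  map_mul' := by
    intro v w
    refine LinearMap.ext fun c => ?_
    funext z
    show c (z + (v.toAdd + w.toAdd)) = c (z + v.toAdd + w.toAdd)
    rw [add_assoc]

/-- The action. -/
noncomputable def Ac (K : Type*) [CommRing K] : GR K →ₐ[K] Module.End K (ℤ × ℤ → K) :=
  AddMonoidAlgebra.lift K _ _ (shiftHom K)

section basic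

variable {K : Type*} [CommRing K]

theorem Ac_single (v : ℤ × ℤ) (a : K) (c : ℤ × ℤ → K) (z : ℤ × ℤ) :
    Ac K (single v a) c z = a * c (z + v) := by
  unfold Ac
  rw [lift_single]
  rfl

theorem Ac_mul (f g : GR K) (c : ℤ × ℤ → K) : Ac K (f * g) c = Ac K f (Ac K g c) := by
  rw [map_mul]; rfl

theorem Ac_comm (f g : GR K) (c : ℤ × ℤ → K) : Ac K f (Ac K g c) = Ac K g (Ac K f c) := by
  rw [← Ac_mul, mul_comm, Ac_mul]

theorem Ac_add (f g : GR K) (c : ℤ × ℤ → K) : Ac K (f + g) c = Ac K f c + Ac K g c := by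
  rw [map_add]; rfl

theorem Ac_sub (f g : GR K) (c : ℤ × ℤ → K) : Ac K (f - g) c = Ac K f c - Ac K g c := by
  rw [map_sub]; rfl

theorem Ac_one (c : ℤ × ℤ → K) : Ac K 1 c = c := by
  rw [map_one]; rfl

theorem Ac_zero (c : ℤ × ℤ → K) : Ac K 0 c = 0 := by
  rw [map_zero]; rfl

theorem Ac_smul (a : K) (f : GR K) (c : ℤ × ℤ → K) : Ac K (a • f) c = a • Ac K f c := by
  rw [map_smul]; rfl

theorem Ac_sum {ι : Type*} (s : Finset ι) (f : ι → GR K) (c : ℤ × ℤ → K) :
    Ac K (∑ i ∈ s, f i) c = ∑ i ∈ s, Ac K (f i) c := by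
  rw [map_sum, LinearMap.sum_apply]

theorem eq_sum_single (f : GR K) : f = ∑ s ∈ f.coeff.support, single s (f.coeff s) := by
  conv_lhs => rw [← sum_coeff_single f]
  rfl

theorem Ac_apply (f : GR K) (c : ℤ × ℤ → K) (z : ℤ × ℤ) :
    Ac K f c z = ∑ s ∈ f.coeff.support, f.coeff s * c (z + s) := by
  conv_lhs => rw [eq_sum_single f]
  rw [Ac_sum, Finset.sum_apply]
  exact Finset.sum_congr rfl fun s _ => Ac_single _ _ _ _

/-- Difference operators. -/
noncomputable def dl (K : Type*) [CommRing K] (v : ℤ × ℤ) : GR K := single v 1 - 1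

theorem Ac_dl (v : ℤ × ℤ) (c : ℤ × ℤ → K) (z : ℤ × ℤ) : Ac K (dl K v) c z = c (z + v) - c z := by
  unfold dl
  rw [Ac_sub, Ac_one, Pi.sub_apply, Ac_single, one_mul]

theorem Ac_dl_eq_zero (v : ℤ × ℤ) (c : ℤ × ℤ → K) :
    Ac K (dl K v) c = 0 ↔ ∀ z, c (z + v) = c z := by
  constructor
  · intro h z
    have := congrFun h z
    rw [Ac_dl, Pi.zero_apply, sub_eq_zero] at this
    exact this
  · intro h
    funext z
    rw [Ac_dl, h, sub_self]
    rfl

/-- Products of difference operators. -/
noncomputable def dp (K : Type*) [CommRing K] (L : Multiset (ℤ × ℤ)) : GR K :=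
  (L.map (dl K)).prod

theorem dp_cons (v : ℤ × ℤ) (L : Multiset (ℤ × ℤ)) : dp K (v ::ₘ L) = dl K v * dp K L := by
  unfold dp
  rw [Multiset.map_cons, Multiset.prod_cons]

theorem dp_zero : dp K 0 = 1 := by
  unfold dp
  rw [Multiset.map_zero, Multiset.prod_zero]

/-- Elimination. -/
theorem elim {ι : Type*} (S : Finset ι) (c : ℤ × ℤ → K) : ∀ (b w : GR K) (bs ws : ι → GR K),
    (∀ k : ℕ, Ac K (b * w ^ k + ∑ i ∈ S, bs i * ws i ^ k) c = 0) →
    Ac K (b * ∏ i ∈ S, (w - ws i)) c = 0 := by
  classical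
  induction S using Finset.induction_on with
  | empty =>
    intro b w bs ws h
    have := h 0
    simpa using this
  | insert j S hj ih =>
    intro b w bs ws h
    have h1 := ih (b * (w - ws j)) w (fun i => bs i * (ws i - ws j)) ws (by
      intro k
      have e : b * (w - ws j) * w ^ k + ∑ i ∈ S, bs i * (ws i - ws j) * ws i ^ k =
          (b * w ^ (k + 1) + ∑ i ∈ insert j S, bs i * ws i ^ (k + 1)) -
            ws j * (b * w ^ k + ∑ i ∈ insert j S, bs i * ws i ^ k) := by
        rw [Finset.sum_insert hj, Finset.sum_insert hj]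
        have e1 : ∑ i ∈ S, bs i * (ws i - ws j) * ws i ^ k =
            ∑ i ∈ S, bs i * ws i ^ (k + 1) - ws j * ∑ i ∈ S, bs i * ws i ^ k := by
          rw [Finset.mul_sum, ← Finset.sum_sub_distrib]
          refine Finset.sum_congr rfl fun i _ => ?_
          ring
        rw [e1]
        ring
      rw [e, Ac_sub, h, Ac_mul, h, map_zero, sub_zero])
    rw [Finset.prod_insert hj, ← mul_assoc]
    exact h1

end basic

/-! ### Dilations -/

/-- The dilation. -/
noncomputable def dil (m : ℕ) : GR ℤ →+* GR ℤ :=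
  mapDomainRingHom ℤ (nsmulAddMonoidHom (α := ℤ × ℤ) m)

theorem dil_single (m : ℕ) (v : ℤ × ℤ) (a : ℤ) : dil m (single v a) = single (m • v) a := by
  unfold dil
  simp

theorem dil_eq_sum (m : ℕ) (f : GR ℤ) :
    dil m f = ∑ s ∈ f.coeff.support, single (m • s) (f.coeff s) := by
  conv_lhs => rw [eq_sum_single f]
  rw [map_sum]
  exact Finset.sum_congr rfl fun s _ => dil_single _ _ _

theorem dil_dil (m n : ℕ) (f : GR ℤ) : dil m (dil n f) = dil (m * n) f := by
  induction f using AddMonoidAlgebra.induction_linear with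
  | zero => simp
  | add f g hf hg => rw [map_add, map_add, map_add, hf, hg]
  | single v a => rw [dil_single, dil_single, dil_single, mul_smul]

theorem dil_one (f : GR ℤ) : dil 1 f = f := by
  induction f using AddMonoidAlgebra.induction_linear with
  | zero => simp
  | add f g hf hg => rw [map_add, hf, hg]
  | single v a => rw [dil_single, one_smul]

/-- The `ℓ¹`-norm. -/
def nrm2 (f : GR ℤ) : ℤ := ∑ s ∈ f.coeff.support, |f.coeff s|

theorem Ac_dil_bound (m : ℕ) (f : GR ℤ) {c : ℤ × ℤ → ℤ} {B : ℤ} (hB : ∀ z, |c z| ≤ B)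
    (z : ℤ × ℤ) : |Ac ℤ (dil m f) c z| ≤ nrm2 f * B := by
  rw [dil_eq_sum, Ac_sum, Finset.sum_apply]
  refine (Finset.abs_sum_le_sum_abs _ _).trans ?_
  unfold nrm2
  rw [Finset.sum_mul]
  refine Finset.sum_le_sum fun s _ => ?_
  rw [Ac_single, abs_mul]
  exact mul_le_mul_of_nonneg_left (hB _) (abs_nonneg _)

/-- Frobenius. -/
theorem exists_frob2 (p : ℕ) [hp : Fact p.Prime] (f : GR ℤ) :
    ∃ q : GR ℤ, f ^ p = dil p f + (p : GR ℤ) * q := by
  induction f using AddMonoidAlgebra.induction_linear with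
  | zero => exact ⟨0, by rw [map_zero, mul_zero, zero_pow hp.out.ne_zero, add_zero]⟩
  | add f g hf hg =>
    obtain ⟨q1, h1⟩ := hf
    obtain ⟨q2, h2⟩ := hg
    obtain ⟨r, hr⟩ := exists_add_pow_prime_eq hp.out f g
    refine ⟨q1 + q2 + f * g * r, ?_⟩
    rw [hr, h1, h2, map_add]
    ring
  | single v a =>
    obtain ⟨k, hk⟩ : ∃ k, a ^ p = a + p * k := by
      have h1 : (p : ℤ) ∣ a ^ p - a := by
        rw [← ZMod.intCast_zmod_eq_zero_iff_dvd]
        push_cast
        rw [ZMod.pow_card, sub_self]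
      obtain ⟨k, hk⟩ := h1
      exact ⟨k, by linarith⟩
    refine ⟨single (p • v) k, ?_⟩
    rw [single_pow, dil_single, hk, single_add]
    congr 1
    have e : (p : GR ℤ) * single (p • v) k = p • single (p • v) k := (nsmul_eq_mul _ _).symm
    rw [e, smul_single, nsmul_eq_mul]
    rfl

theorem Ac_dil_step (f : GR ℤ) {c : ℤ × ℤ → ℤ} {B : ℤ} (hB : ∀ z, |c z| ≤ B) {p m : ℕ}
    (hp : p.Prime) (hlt : nrm2 f * B < p) (h : Ac ℤ (dil m f) c = 0) :
    Ac ℤ (dil (p * m) f) c = 0 := by
  have : Fact p.Prime := ⟨hp⟩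
  obtain ⟨q, hq⟩ := exists_frob2 p (dil m f)
  rw [dil_dil] at hq
  have h1 : Ac ℤ (dil m f ^ p) c = 0 := by
    obtain ⟨n, hn⟩ : ∃ n, p = n + 1 := ⟨p - 1, by have := hp.pos; omega⟩
    rw [hn, pow_succ, Ac_mul, h, map_zero]
  funext z
  rw [Pi.zero_apply]
  apply Int.eq_zero_of_abs_lt_dvd (m := (p : ℤ))
  · have h2 := congrFun h1 z
    rw [hq, Ac_add, Pi.add_apply, Pi.zero_apply, ← nsmul_eq_mul, map_nsmul] at h2
    refine ⟨-(Ac ℤ q c z), ?_⟩
    have h3 : (p • Ac ℤ q) c z = (p : ℤ) * Ac ℤ q c z := by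
      rw [LinearMap.smul_apply, Pi.smul_apply, nsmul_eq_mul]
    rw [h3] at h2
    linarith
  · exact (Ac_dil_bound _ _ hB z).trans_lt hlt

theorem Ac_dil_all (f : GR ℤ) {c : ℤ × ℤ → ℤ} {B : ℤ} (hB : ∀ z, |c z| ≤ B) {C : ℕ}
    (hC : nrm2 f * B ≤ C) (h : Ac ℤ f c = 0) (m : ℕ) : (∀ q : ℕ, q.Prime → q ∣ m → C < q) →
    m ≠ 0 → Ac ℤ (dil m f) c = 0 := by
  induction m using induction_on_primes with
  | zero => intro _ h0; exact absurd rfl h0
  | one => intro _ _; rw [dil_one]; exact h
  | prime_mul p a hp ih =>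
    intro hq h0
    apply Ac_dil_step f hB hp
    · have := hq p hp (dvd_mul_right _ _)
      have h2 : (C : ℤ) < p := by exact_mod_cast this
      linarith
    · exact ih (fun q hq1 hq2 => hq q hq1 (hq2.mul_left p)) (by
        rintro rfl
        exact h0 (mul_zero _))

/-- Kari–Szabados over the integers. -/
theorem ks_int (f : GR ℤ) (hf : f ≠ 0) {c : ℤ × ℤ → ℤ} {B : ℤ} (hB : ∀ z, |c z| ≤ B)
    (h : Ac ℤ f c = 0) : ∃ L : Multiset (ℤ × ℤ), (∀ u ∈ L, u ≠ 0) ∧ Ac ℤ (dp ℤ L) c = 0 := by
  classical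
  set C : ℕ := (nrm2 f * B).toNat with hC
  have hC' : nrm2 f * B ≤ C := Int.self_le_toNat _
  set r : ℕ := C.factorial with hr
  have hall : ∀ k : ℕ, Ac ℤ (dil (1 + k * r) f) c = 0 := by
    intro k
    apply Ac_dil_all f hB hC' h
    · intro q hq hdvd
      by_contra hcon
      push Not at hcon
      have h1 : q ∣ r := Nat.dvd_factorial hq.pos hcon
      have h2 : q ∣ 1 := (Nat.dvd_add_left (h1.mul_left k)).1 hdvd
      exact hq.one_lt.ne' (Nat.dvd_one.1 h2)
    · omega
  obtain ⟨s0, hs0⟩ : f.coeff.support.Nonempty := by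
    rw [Finsupp.support_nonempty_iff]
    intro h0
    exact hf (coeff_eq_zero.1 h0)
  have h1 := elim (f.coeff.support.erase s0) c (single s0 (f.coeff s0)) (single (r • s0) 1)
    (fun s => single s (f.coeff s)) (fun s => single (r • s) 1) (by
      intro k
      have e : single s0 (f.coeff s0) * single (r • s0) 1 ^ k +
          ∑ s ∈ f.coeff.support.erase s0, single s (f.coeff s) * single (r • s) 1 ^ k =
          dil (1 + k * r) f := by
        rw [Finset.add_sum_erase f.coeff.support
          (fun s => (single s (f.coeff s) * single (r • s) 1 ^ k : GR ℤ)) hs0, dil_eq_sum]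
        refine Finset.sum_congr rfl fun s _ => ?_
        rw [single_pow, single_mul_single, one_pow, mul_one]
        congr 1
        rw [add_smul, one_smul, mul_smul]
      rw [e]
      exact hall k)
  set L : Multiset (ℤ × ℤ) := (f.coeff.support.erase s0).val.map (fun s => r • (s0 - s)) with hL
  have hr0 : r ≠ 0 := Nat.factorial_ne_zero _
  refine ⟨L, ?_, ?_⟩
  · intro u hu
    rw [hL, Multiset.mem_map] at hu
    obtain ⟨s, hs, rfl⟩ := hu
    have hs' : s ∈ f.coeff.support.erase s0 := hs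
    rw [Finset.mem_erase] at hs'
    intro h0
    rcases smul_eq_zero.1 h0 with h2 | h2
    · exact hr0 h2
    · exact hs'.1 (sub_eq_zero.1 h2).symm
  · -- the monomial factor
    have e : single s0 (f.coeff s0) * ∏ s ∈ f.coeff.support.erase s0,
        (single (r • s0) 1 - single (r • s) 1 : GR ℤ) =
        single (s0 + ∑ s ∈ f.coeff.support.erase s0, r • s) (f.coeff s0) * dp ℤ L := by
      have e1 : ∀ s, (single (r • s0) 1 - single (r • s) 1 : GR ℤ) =
          single (r • s) 1 * dl ℤ (r • (s0 - s)) := by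
        intro s
        unfold dl
        rw [mul_sub, single_mul_single, mul_one, mul_one]
        congr 2
        rw [← smul_add]
        congr 1
        abel
      have e2 : dp ℤ L = ∏ s ∈ f.coeff.support.erase s0, dl ℤ (r • (s0 - s)) := by
        unfold dp
        rw [hL, Multiset.map_map]
        rfl
      have e3 : (∏ s ∈ f.coeff.support.erase s0, (single (r • s) 1 : GR ℤ)) =
          single (∑ s ∈ f.coeff.support.erase s0, r • s) 1 := by
        induction (f.coeff.support.erase s0) using Finset.induction_on with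
        | empty => simp [one_def]
        | insert j S hj ih =>
          rw [Finset.prod_insert hj, ih, Finset.sum_insert hj, single_mul_single, one_mul]
      rw [Finset.prod_congr rfl (fun s _ => e1 s), Finset.prod_mul_distrib, e3, e2, ← mul_assoc,
        single_mul_single, mul_one]
    rw [e, Ac_mul] at h1
    funext z
    have h2 := congrFun h1 (z - (s0 + ∑ s ∈ f.coeff.support.erase s0, r • s))
    rw [Ac_single, sub_add_cancel, Pi.zero_apply] at h2
    rcases mul_eq_zero.1 h2 with h3 | h3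
    · exact absurd h3 (Finsupp.mem_support_iff.1 hs0)
    · exact h3

end Pool.Agent.Helper58.Nivat
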