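import Pool.Agent.Helper58.Nivat.Main

/-!
Nivat's conjecture for windows consisting of two intervals in adjacent rows, both starting in
column `0` (the general case follows by a change of coordinates).
-/

open Polynomial

namespace Pool.Agent.Helper58.Nivat

theorem int_two_sided {P : ℤ → Prop} (j0 : ℤ) (h0 : P j0) (hup : ∀ j, P j → P (j + 1))
    (hdown : ∀ j, P j → P (j - 1)) (j : ℤ) : P j := by
  have h1 : ∀ n : ℕ, P (j0 + n) := by
    intro n
    induction n with
    | zero => simpa using h0
    | succ n ih =>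
      have := hup _ ih
      have e : j0 + ((n + 1 : ℕ) : ℤ) = j0 + n + 1 := by push_cast; ring
      rw [e]; exact this
  have h2 : ∀ n : ℕ, P (j0 - n) := by
    intro n
    induction n with
    | zero => simpa using h0
    | succ n ih =>
      have := hdown _ ih
      have e : j0 - ((n + 1 : ℕ) : ℤ) = j0 - n - 1 := by push_cast; ring
      rw [e]; exact this
  rcases le_total j0 j with h | h
  · have := h1 (j - j0).toNat
    rw [Int.toNat_of_nonneg (by omega)] at this
    have e : j0 + (j - j0) = j := by ring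
    rwa [e] at this
  · have := h2 (j0 - j).toNat
    rw [Int.toNat_of_nonneg (by omega)] at this
    have e : j0 - (j0 - j) = j := by ring
    rwa [e] at this

theorem periodic_mul {r : ℤ → ℤ} {T : ℕ} (h : ∀ i, r (i + T) = r i) (n : ℕ) (i : ℤ) :
    r (i + ((T * n : ℕ) : ℤ)) = r i := by
  induction n with
  | zero => simp
  | succ n ih =>
    have e : i + ((T * (n + 1) : ℕ) : ℤ) = (i + ((T * n : ℕ) : ℤ)) + T := by push_cast; ring
    rw [e, h, ih]

/-- The bounded `L`-periodic sequences form a finite set. -/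
theorem finite_periodic (L : ℕ) (hL : 0 < L) (M : ℤ) :
    {V : ℤ → ℤ | (∀ i, V (i + L) = V i) ∧ ∀ i, |V i| ≤ M}.Finite := by
  classical
  have hS : {w : Fin L → ℤ | ∀ t, w t ∈ Set.Icc (-M) M}.Finite :=
    Set.Finite.pi' fun _ => Set.finite_Icc _ _
  refine Set.Finite.of_finite_image (f := fun V : ℤ → ℤ => fun t : Fin L => V t) (hS.subset ?_) ?_
  · rintro _ ⟨V, hV, rfl⟩ t
    have := hV.2 t
    rw [abs_le] at this
    exact ⟨this.1, this.2⟩
  · intro V hV W hW hVW
    funext i
    have key : ∀ U : ℤ → ℤ, (∀ i, U (i + L) = U i) → U i = U (i % L) := by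
      intro U hU
      have h1 : ∀ m : ℤ, U (i % L + m * L) = U (i % L) := by
        intro m
        refine int_two_sided (P := fun m => U (i % L + m * L) = U (i % L)) 0 (by simp) ?_ ?_ m
        · intro m hm
          have e : i % L + (m + 1) * L = (i % L + m * L) + L := by ring
          rw [e, hU, hm]
        · intro m hm
          have e : i % L + m * L = (i % L + (m - 1) * L) + L := by ring
          rw [e, hU] at hm
          exact hm
      have h2 := h1 (i / L)
      have e : i % L + i / L * L = i := Int.emod_add_ediv_mul i L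
      rw [e] at h2
      exact h2
    rw [key V hV.1, key W hW.1]
    have hlt : (i % L).toNat < L := by
      have h1 := Int.emod_lt_of_pos i (show (0 : ℤ) < L by exact_mod_cast hL)
      have h2 := Int.emod_nonneg i (show (L : ℤ) ≠ 0 by omega)
      omega
    have h3 := congrFun hVW ⟨(i % L).toNat, hlt⟩
    have e : (((i % L).toNat : ℕ) : ℤ) = i % L :=
      Int.toNat_of_nonneg (Int.emod_nonneg i (by omega))
    simp only [e] at h3
    exact h3

theorem two_rows {A : Type*} [Finite A] (c : ℤ → ℤ → A) (a b : ℕ)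
    (hP : (pats c a b).ncard ≤ a + b) :
    ∃ u w : ℤ, (u ≠ 0 ∨ w ≠ 0) ∧ ∀ i j, c (i + u) (j + w) = c i j := by
  classical
  by_contra hno
  push Not at hno
  -- integer coding
  obtain ⟨N, ⟨eq⟩⟩ := Finite.exists_equiv_fin A
  set e : A → ℤ := fun x => ((eq x : ℕ) : ℤ) with he
  have heinj : Function.Injective e := by
    intro x y hxy
    have : ((eq x : ℕ) : ℤ) = ((eq y : ℕ) : ℤ) := hxy
    exact eq.injective (Fin.ext (by exact_mod_cast this))
  set ρ : ℤ → ℤ → ℤ := fun j i => e (c i j) with hρ
  have hB : ∀ j i, |ρ j i| ≤ (N : ℤ) := by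
    intro j i
    have h1 : ((eq (c i j) : ℕ) : ℤ) < N := by exact_mod_cast (eq (c i j)).2
    have h2 : (0 : ℤ) ≤ ((eq (c i j) : ℕ) : ℤ) := Int.natCast_nonneg _
    show |((eq (c i j) : ℕ) : ℤ)| ≤ N
    rw [abs_of_nonneg h2]
    exact h1.le
  have hnp : ¬ ∃ T : ℕ, 0 < T ∧ ∀ j i, ρ j (i + T) = ρ j i := by
    rintro ⟨T, hT, h⟩
    obtain ⟨i, j, hij⟩ := hno T 0 (Or.inl (by omega))
    rw [add_zero] at hij
    exact hij (heinj (h j i))
  obtain ⟨u, w, κ, hne, hrel⟩ := exists_relation c e a b hP
  have hgh : ofCoeff u ≠ 0 ∨ ofCoeff w ≠ 0 := by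
    by_contra hcon
    push Not at hcon
    have hu : u = 0 := by
      funext s
      by_contra h
      exact ofCoeff_ne_zero h hcon.1
    have hw : w = 0 := by
      funext s
      by_contra h
      exact ofCoeff_ne_zero h hcon.2
    have hκ : κ = 0 := by
      have := hrel 0 0
      rw [hcon.1, hcon.2] at this
      unfold act at this
      rw [map_zero, LinearMap.zero_apply, LinearMap.zero_apply, Pi.zero_apply] at this
      linarith
    rcases hne with h | h | h
    · exact h hu
    · exact h hw
    · exact h hκ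
  obtain ⟨f, k, ε, κ', hf, hfg, hfh, hg0, hh0, hε, hfrel⟩ :=
    exists_single hB hnp hgh (fun i j => hrel i j)
  have hfa : f.natDegree ≤ a := (hfg.trans_lt (natDegree_ofCoeff_lt u hg0)).le
  have hfb : f.natDegree ≤ b := (hfh.trans_lt (natDegree_ofCoeff_lt w hh0)).le
  have hεε : ε * ε = 1 := by rcases hε with rfl | rfl <;> norm_num
  -- sheared rows
  set R : ℤ → ℤ → ℤ := fun j i => ρ j (i + k * j) with hR
  have hRB : ∀ j i, |R j i| ≤ (N : ℤ) := fun j i => hB _ _
  have hRrel : ∀ j i, act f (R j) i + ε * act f (R (j + 1)) i = κ' := by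
    intro j i
    have h1 := hfrel j (i + k * j)
    have e1 : act f (R j) i = act f (ρ j) (i + k * j) := act_shift f (k * j) (ρ j) i
    have e2 : act f (R (j + 1)) i = act f (ρ (j + 1)) (i + k * (j + 1)) :=
      act_shift f (k * (j + 1)) (ρ (j + 1)) i
    rw [e1, e2]
    have e3 : i + k * (j + 1) = i + k * j + k := by ring
    rw [e3]
    exact h1
  -- the sums `R_j + ε R_{j+1}` are `L`-periodic
  obtain ⟨L, hL, hper⟩ := recur_periodic ((X - 1) * f) (mul_ne_zero X_sub_one_ne_zero hf)
    (2 * (N : ℤ))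
  have hQ : ∀ j i, R j (i + L) + ε * R (j + 1) (i + L) = R j i + ε * R (j + 1) i := by
    intro j i
    refine hper (fun i => R j i + ε * R (j + 1) i) ?_ ?_ i
    · intro i
      have h1 := abs_add_le (R j i) (ε * R (j + 1) i)
      have h2 : |ε * R (j + 1) i| = |R (j + 1) i| := by
        rcases hε with rfl | rfl <;> simp
      have h3 := hRB j i
      have h4 := hRB (j + 1) i
      rw [h2] at h1
      linarith
    · apply act_hat (κ := κ')
      intro i
      rw [act_add_right, act_smul_right]
      exact hRrel j i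
  -- no row is periodic
  have hRnp : ∀ j, ¬ ∃ T : ℕ, 0 < T ∧ ∀ i, R j (i + T) = R j i := by
    rintro j0 ⟨T, hT, hTper⟩
    have hall : ∀ j, ∀ i, R j (i + ((T * L : ℕ) : ℤ)) = R j i := by
      intro j
      refine int_two_sided (P := fun j => ∀ i, R j (i + ((T * L : ℕ) : ℤ)) = R j i) j0 ?_ ?_ ?_ j
      · exact periodic_mul hTper L
      · intro j hj i
        have h1 : R j (i + ((T * L : ℕ) : ℤ)) + ε * R (j + 1) (i + ((T * L : ℕ) : ℤ)) =
            R j i + ε * R (j + 1) i := by
          have := periodic_mul (r := fun i => R j i + ε * R (j + 1) i) (T := L)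
            (fun i => hQ j i) T i
          rw [mul_comm T L]
          exact this
        rw [hj i] at h1
        have h2 : ε * (ε * R (j + 1) (i + ((T * L : ℕ) : ℤ))) = ε * (ε * R (j + 1) i) := by
          rw [add_left_cancel h1]
        rw [← mul_assoc, ← mul_assoc, hεε, one_mul, one_mul] at h2
        exact h2
      · intro j hj i
        have h1 : R (j - 1) (i + ((T * L : ℕ) : ℤ)) + ε * R (j - 1 + 1) (i + ((T * L : ℕ) : ℤ)) =
            R (j - 1) i + ε * R (j - 1 + 1) i := by
          have := periodic_mul (r := fun i => R (j - 1) i + ε * R (j - 1 + 1) i) (T := L)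
            (fun i => hQ (j - 1) i) T i
          rw [mul_comm T L]
          exact this
        rw [sub_add_cancel, hj i] at h1
        exact add_right_cancel h1
    apply hnp
    refine ⟨T * L, Nat.mul_pos hT hL, fun j i => ?_⟩
    have := hall j (i - k * j)
    simp only [hR] at this
    have e1 : i - k * j + ((T * L : ℕ) : ℤ) + k * j = i + ((T * L : ℕ) : ℤ) := by ring
    have e2 : i - k * j + k * j = i := by ring
    rw [e1, e2] at this
    exact this
  -- finitely many rows
  set 𝒱 : Set (ℤ → ℤ) := {V | (∀ i, V (i + L) = V i) ∧ ∀ i, |V i| ≤ 2 * (N : ℤ)} with h𝒱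
  have h𝒱fin : 𝒱.Finite := finite_periodic L hL _
  have hrow : ∀ j, ∃ σ : ℤ, (σ = 1 ∨ σ = -1) ∧ (fun i => R j i - σ * R 0 i) ∈ 𝒱 := by
    have hbd : ∀ (j σ : ℤ), (σ = 1 ∨ σ = -1) → ∀ i, |R j i - σ * R 0 i| ≤ 2 * (N : ℤ) := by
      intro j σ hσ i
      have h1 := abs_sub (R j i) (σ * R 0 i)
      have h2 : |σ * R 0 i| = |R 0 i| := by rcases hσ with rfl | rfl <;> simp
      have h3 := hRB j i
      have h4 := hRB 0 i
      rw [h2] at h1
      linarith
    intro j
    refine int_two_sided
      (P := fun j => ∃ σ : ℤ, (σ = 1 ∨ σ = -1) ∧ (fun i => R j i - σ * R 0 i) ∈ 𝒱) 0 ?_ ?_ ?_ j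
    · refine ⟨1, Or.inl rfl, fun i => ?_, hbd 0 1 (Or.inl rfl)⟩
      simp
    · rintro j ⟨σ, hσ, hσV, _⟩
      have hσ' : -(ε * σ) = 1 ∨ -(ε * σ) = -1 := by
        rcases hε with rfl | rfl <;> rcases hσ with rfl | rfl <;> simp
      refine ⟨-(ε * σ), hσ', fun i => ?_, hbd _ _ hσ'⟩
      have h1 := hQ j i
      have h2 : R j (i + L) - σ * R 0 (i + L) = R j i - σ * R 0 i := hσV i
      have h3 : ε * R (j + 1) (i + L) - ε * R (j + 1) i =
          -(σ * R 0 (i + L)) + σ * R 0 i := by linarith
      have h4 : ε * (ε * R (j + 1) (i + L) - ε * R (j + 1) i) =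
          ε * (-(σ * R 0 (i + L)) + σ * R 0 i) := by rw [h3]
      have h5 : ε * (ε * R (j + 1) (i + L) - ε * R (j + 1) i) =
          (ε * ε) * R (j + 1) (i + L) - (ε * ε) * R (j + 1) i := by ring
      rw [h5, hεε, one_mul, one_mul] at h4
      linarith
    · rintro j ⟨σ, hσ, hσV, _⟩
      have hσ' : -(ε * σ) = 1 ∨ -(ε * σ) = -1 := by
        rcases hε with rfl | rfl <;> rcases hσ with rfl | rfl <;> simp
      refine ⟨-(ε * σ), hσ', fun i => ?_, hbd _ _ hσ'⟩
      have h1 := hQ (j - 1) i
      rw [sub_add_cancel] at h1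
      have h2 : R j (i + L) - σ * R 0 (i + L) = R j i - σ * R 0 i := hσV i
      have h3 : ε * R j (i + L) - ε * R j i = (ε * σ) * R 0 (i + L) - (ε * σ) * R 0 i := by
        have : ε * (R j (i + L) - σ * R 0 (i + L)) = ε * (R j i - σ * R 0 i) := by rw [h2]
        linarith
      linarith
  set 𝒮 : Set (ℤ → ℤ) := Set.range R with h𝒮
  have h𝒮fin : 𝒮.Finite := by
    have hi : (Set.image2 (fun (σ : ℤ) (V : ℤ → ℤ) => fun i => σ * R 0 i + V i)
        ({1, -1} : Set ℤ) 𝒱).Finite := Set.Finite.image2 _ (Set.toFinite _) h𝒱fin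
    refine hi.subset ?_
    rintro _ ⟨j, rfl⟩
    obtain ⟨σ, hσ, hV⟩ := hrow j
    refine ⟨σ, ?_, _, hV, ?_⟩
    · rcases hσ with rfl | rfl <;> simp
    · funext i; ring
  -- the sequence of rows is neither forward nor backward deterministic
  have hvert : ∀ T : ℕ, 0 < T → ¬ ∀ j, R (j + T) = R j := by
    intro T hT h
    obtain ⟨i, j, hij⟩ := hno (k * T) T (Or.inr (by omega))
    apply hij
    apply heinj
    have h1 := congrFun (h j) (i - k * j)
    simp only [hR, hρ] at h1
    have e1 : i - k * j + k * (j + T) = i + k * T := by ring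
    have e2 : i - k * j + k * j = i := by ring
    rw [e1, e2] at h1
    exact h1
  obtain ⟨j, j', hjj, hjj'⟩ : ∃ j j', R j = R j' ∧ R (j + 1) ≠ R (j' + 1) := by
    by_contra hcon
    push Not at hcon
    obtain ⟨T, hT, hdet⟩ := det_periodic 𝒮 h𝒮fin
    exact hvert T hT (hdet R (fun i => ⟨i, rfl⟩) hcon)
  obtain ⟨l, l', hll, hll'⟩ : ∃ l l', R l = R l' ∧ R (l - 1) ≠ R (l' - 1) := by
    by_contra hcon
    push Not at hcon
    obtain ⟨T, hT, hdet⟩ := det_periodic_back 𝒮 h𝒮fin
    exact hvert T hT (hdet R (fun i => ⟨i, rfl⟩) hcon)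
  have hPfin : (pats c a b).Finite := Set.toFinite _
  -- differences of rows which vanish on a long interval
  have hdiff : ∀ {m m' : ℤ} {n : ℕ}, R m ≠ R m' → act f (R m) = act f (R m') → f.natDegree ≤ n →
      ∀ x : ℤ, ∃ t : ℕ, t < n ∧ R m (x + t) ≠ R m' (x + t) := by
    intro m m' n hmm hact hn x
    by_contra hcon
    push Not at hcon
    apply hmm
    have h0 : R m - R m' = 0 := by
      refine recur_zero f hf (B := 2 * (N : ℤ)) ?_ ?_ hn x ?_
      · intro i
        have h1 := abs_sub (R m i) (R m' i)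
        have h2 := hRB m i
        have h3 := hRB m' i
        rw [Pi.sub_apply]
        linarith
      · rw [map_sub, hact, sub_self]
      · intro t ht
        rw [Pi.sub_apply, hcon t ht, sub_self]
    exact sub_eq_zero.1 h0
  have hcnt1 : 2 * (a + 1) ≤ (pats c a b).ncard := by
    set E : Set (Fin a → A) := Set.range fun i : ℤ => fun t : Fin a => c (i + t + k * j) j with hE
    have hEcard : a + 1 ≤ E.ncard := by
      refine morse_hedlund_one (fun i => c (i + k * j) j) ?_ a
      rintro ⟨T, hT, h⟩
      exact hRnp j ⟨T, hT, fun i => congrArg e (h i)⟩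
    refine (Nat.mul_le_mul_left 2 hEcard).trans ?_
    refine two_fiber hPfin Prod.fst ?_
    rintro _ ⟨x, rfl⟩
    refine ⟨_, ⟨(x + k * j, j), rfl⟩, _, ⟨(x + k * j', j'), rfl⟩, ?_, ?_, ?_⟩
    · funext t
      show c (x + k * j + t) j = c (x + t + k * j) j
      congr 1; ring
    · funext t
      show c (x + k * j' + t) j' = c (x + t + k * j) j
      apply heinj
      have h1 := congrFun hjj (x + t)
      simp only [hR, hρ] at h1
      rw [h1]
      congr 2; ring
    · intro heq
      have hact : act f (R (j + 1)) = act f (R (j' + 1)) := by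
        funext i
        have h1 := hRrel j i
        have h2 := hRrel j' i
        rw [← hjj] at h2
        have h3 : ε * act f (R (j + 1)) i = ε * act f (R (j' + 1)) i := by linarith
        have h4 : ε ≠ 0 := by rcases hε with rfl | rfl <;> norm_num
        exact mul_left_cancel₀ h4 h3
      obtain ⟨t, ht, htne⟩ := hdiff hjj' hact hfb (x - k)
      apply htne
      have h1 := congrFun (congrArg Prod.snd heq) ⟨t, ht⟩
      simp only at h1
      have h2 : e (c (x + k * j + t) (j + 1)) = e (c (x + k * j' + t) (j' + 1)) := congrArg e h1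
      simp only [hR, hρ]
      have e1 : x - k + t + k * (j + 1) = x + k * j + t := by ring
      have e2 : x - k + t + k * (j' + 1) = x + k * j' + t := by ring
      rw [e1, e2]
      exact h2
  have hcnt2 : 2 * (b + 1) ≤ (pats c a b).ncard := by
    set E : Set (Fin b → A) := Set.range fun i : ℤ => fun t : Fin b => c (i + t + k * l) l with hE
    have hEcard : b + 1 ≤ E.ncard := by
      refine morse_hedlund_one (fun i => c (i + k * l) l) ?_ b
      rintro ⟨T, hT, h⟩
      exact hRnp l ⟨T, hT, fun i => congrArg e (h i)⟩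
    refine (Nat.mul_le_mul_left 2 hEcard).trans ?_
    refine two_fiber hPfin Prod.snd ?_
    rintro _ ⟨x, rfl⟩
    refine ⟨_, ⟨(x + k * l, l - 1), rfl⟩, _, ⟨(x + k * l', l' - 1), rfl⟩, ?_, ?_, ?_⟩
    · funext t
      show c (x + k * l + t) (l - 1 + 1) = c (x + t + k * l) l
      rw [sub_add_cancel]
      congr 1; ring
    · funext t
      show c (x + k * l' + t) (l' - 1 + 1) = c (x + t + k * l) l
      rw [sub_add_cancel]
      apply heinj
      have h1 := congrFun hll (x + t)
      simp only [hR, hρ] at h1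
      rw [h1]
      congr 2; ring
    · intro heq
      have hact : act f (R (l - 1)) = act f (R (l' - 1)) := by
        funext i
        have h1 := hRrel (l - 1) i
        have h2 := hRrel (l' - 1) i
        rw [sub_add_cancel] at h1 h2
        rw [← hll] at h2
        linarith
      obtain ⟨t, ht, htne⟩ := hdiff hll' hact hfa (x + k)
      apply htne
      have h1 := congrFun (congrArg Prod.fst heq) ⟨t, ht⟩
      simp only at h1
      have h2 : e (c (x + k * l + t) (l - 1)) = e (c (x + k * l' + t) (l' - 1)) := congrArg e h1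
      simp only [hR, hρ]
      have e1 : x + k + t + k * (l - 1) = x + k * l + t := by ring
      have e2 : x + k + t + k * (l' - 1) = x + k * l' + t := by ring
      rw [e1, e2]
      exact h2
  omega

end Pool.Agent.Helper58.Nivat
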