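import Pool.Agent.Helper58.Nivat.Conf
import Pool.Agent.Helper58.Nivat.Two

/-!
Affine relations between the entries of a window, and the periodicity of the rows.
-/

open Polynomial

namespace Pool.Agent.Helper58.Nivat

theorem periodic_mul' {A : Type*} {r : ℤ → A} {T : ℕ} (h : ∀ i, r (i + T) = r i) (n : ℕ) (i : ℤ) :
    r (i + ((T * n : ℕ) : ℤ)) = r i := by
  induction n with
  | zero => simp
  | succ n ih =>
    have e : i + ((T * (n + 1) : ℕ) : ℤ) = (i + ((T * n : ℕ) : ℤ)) + T := by push_cast; ring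
    rw [e, h, ih]

theorem periodic_dvd {A : Type*} {r : ℤ → A} {T : ℕ} (h : ∀ i, r (i + T) = r i) {M : ℕ}
    (hM : T ∣ M) (i : ℤ) : r (i + (M : ℤ)) = r i := by
  obtain ⟨n, rfl⟩ := hM
  exact periodic_mul' h n i

/-- Finitely many periodic sequences have a common period. -/
theorem common_period {A ι : Type*} (s : Finset ι) (r : ι → ℤ → A)
    (h : ∀ x ∈ s, ∃ T : ℕ, 0 < T ∧ ∀ i, r x (i + T) = r x i) :
    ∃ T : ℕ, 0 < T ∧ ∀ x ∈ s, ∀ i, r x (i + T) = r x i := by
  classical
  choose! T hT hper using h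
  refine ⟨∏ x ∈ s, T x, Finset.prod_pos fun x hx => hT x hx, fun x hx i => ?_⟩
  exact periodic_dvd (hper x hx) (Finset.dvd_prod_of_mem T hx) i

theorem act_Xpow_sub_one (T : ℕ) (r : ℤ → ℤ) (i : ℤ) :
    act (X ^ T - 1) r i = r (i + T) - r i := by
  rw [act_sub]
  unfold act
  rw [map_pow, aeval_X, map_one, Pi.sub_apply, sh_pow_apply, mul_one]
  rfl

theorem Xpow_sub_one_ne_zero {T : ℕ} (hT : 0 < T) : (X ^ T - 1 : ℤ[X]) ≠ 0 := by
  have := X_pow_sub_C_ne_zero hT (1 : ℤ)
  rwa [C_1] at this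

theorem act_periodic (f : ℤ[X]) {r : ℤ → ℤ} {T : ℕ} (h : ∀ i, r (i + T) = r i) (i : ℤ) :
    act f r (i + T) = act f r i := by
  rw [← act_shift]
  have : (fun i => r (i + (T : ℤ))) = r := funext h
  rw [this]

theorem act_zero_poly (r : ℤ → ℤ) (i : ℤ) : act 0 r i = 0 := by
  unfold act
  rw [map_zero]
  rfl

/-- One row from the others. -/
theorem row_of_others {ρ : ℤ → ℤ → ℤ} {B : ℤ} (hB : ∀ j i, |ρ j i| ≤ B) {h : ℕ}
    {F : ℕ → ℤ[X]} {κ : ℤ} {s1 : ℕ} (hs1 : s1 ≤ h) (hF : F s1 ≠ 0)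
    (hrel : ∀ i j, ∑ s ∈ Finset.range (h + 1), act (F s) (ρ (j + s)) i + κ = 0) (j : ℤ)
    (hoth : ∀ s, s ≤ h → s ≠ s1 → F s = 0 ∨
      ∃ T : ℕ, 0 < T ∧ ∀ i, ρ (j + s) (i + T) = ρ (j + s) i) :
    ∃ T : ℕ, 0 < T ∧ ∀ i, ρ (j + s1) (i + T) = ρ (j + s1) i := by
  classical
  obtain ⟨T, hT, hper⟩ := common_period ((Finset.range (h + 1)).erase s1)
    (fun s => act (F s) (ρ (j + s))) (by
      intro s hs
      rw [Finset.mem_erase, Finset.mem_range] at hs
      rcases hoth s (by omega) hs.1 with h0 | ⟨T, hT, hper⟩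
      · refine ⟨1, one_pos, fun i => ?_⟩
        rw [h0, act_zero_poly, act_zero_poly]
      · exact ⟨T, hT, fun i => act_periodic _ hper i⟩)
  have hmem : s1 ∈ Finset.range (h + 1) := Finset.mem_range.2 (by omega)
  have hz : act ((X ^ T - 1) * F s1) (ρ (j + s1)) = 0 := by
    funext i
    rw [act_mul, act_Xpow_sub_one]
    have h1 := hrel (i + T) j
    have h2 := hrel i j
    rw [← Finset.add_sum_erase _ _ hmem] at h1 h2
    have h3 : ∑ s ∈ (Finset.range (h + 1)).erase s1, act (F s) (ρ (j + s)) (i + T) =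
        ∑ s ∈ (Finset.range (h + 1)).erase s1, act (F s) (ρ (j + s)) i :=
      Finset.sum_congr rfl fun s hs => hper s hs i
    rw [h3] at h1
    rw [Pi.zero_apply]
    linarith
  obtain ⟨L, hL, hLp⟩ := recur_periodic _ (mul_ne_zero (Xpow_sub_one_ne_zero hT) hF) B
  exact ⟨L, hL, hLp _ (hB _) hz⟩

/-- If sufficiently many consecutive rows are periodic, then all of them are. -/
theorem rows_of_relation {ρ : ℤ → ℤ → ℤ} {B : ℤ} (hB : ∀ j i, |ρ j i| ≤ B) {h : ℕ}
    {F : ℕ → ℤ[X]} {κ : ℤ} (hF : ∃ s ≤ h, F s ≠ 0)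
    (hrel : ∀ i j, ∑ s ∈ Finset.range (h + 1), act (F s) (ρ (j + s)) i + κ = 0) (j0 : ℤ)
    (hper : ∀ s : ℕ, s < h → ∃ T : ℕ, 0 < T ∧ ∀ i, ρ (j0 + s) (i + T) = ρ (j0 + s) i) :
    ∀ j, ∃ T : ℕ, 0 < T ∧ ∀ i, ρ j (i + T) = ρ j i := by
  classical
  -- the top and the bottom row of the relation
  obtain ⟨s1, hs1, hF1, htop⟩ : ∃ s1 ≤ h, F s1 ≠ 0 ∧ ∀ s, s1 < s → s ≤ h → F s = 0 := by
    obtain ⟨s, hs, hs'⟩ := hF
    refine ⟨Nat.findGreatest (fun s => F s ≠ 0) h, Nat.findGreatest_le h,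
      Nat.findGreatest_spec (P := fun s => F s ≠ 0) hs hs', fun t ht1 ht2 => ?_⟩
    have := Nat.findGreatest_is_greatest (P := fun s => F s ≠ 0) ht1 ht2
    simpa using this
  obtain ⟨s0, hs0, hF0, hbot⟩ : ∃ s0 ≤ h, F s0 ≠ 0 ∧ ∀ s, s < s0 → F s = 0 := by
    have hex : ∃ s, F s ≠ 0 := ⟨s1, hF1⟩
    refine ⟨Nat.find hex, ?_, Nat.find_spec hex, fun t ht => ?_⟩
    · exact (Nat.find_min' hex hF1).trans hs1
    · have := Nat.find_min hex ht
      simpa using this
  have hup : ∀ j : ℤ, (∀ s : ℕ, s < h → ∃ T : ℕ, 0 < T ∧ ∀ i, ρ (j + s) (i + T) = ρ (j + s) i) →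
      ∃ T : ℕ, 0 < T ∧ ∀ i, ρ (j + h) (i + T) = ρ (j + h) i := by
    intro j hj
    have := row_of_others hB hs1 hF1 hrel (j + h - s1) (by
      intro s hs hne
      rcases lt_or_gt_of_ne hne with hlt | hlt
      · right
        have := hj (h - s1 + s) (by omega)
        have e : j + ((h - s1 + s : ℕ) : ℤ) = j + h - s1 + s := by
          push_cast [Nat.cast_sub hs1]; ring
        rw [e] at this
        exact this
      · left
        exact htop s hlt hs)
    have e : j + (h : ℤ) - s1 + s1 = j + h := by ring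
    rw [e] at this
    exact this
  have hdown : ∀ j : ℤ, (∀ s : ℕ, s < h → ∃ T : ℕ, 0 < T ∧ ∀ i, ρ (j + s) (i + T) = ρ (j + s) i) →
      ∃ T : ℕ, 0 < T ∧ ∀ i, ρ (j - 1) (i + T) = ρ (j - 1) i := by
    intro j hj
    have := row_of_others hB hs0 hF0 hrel (j - 1 - s0) (by
      intro s hs hne
      rcases lt_or_gt_of_ne hne with hlt | hlt
      · left
        exact hbot s hlt
      · right
        have := hj (s - s0 - 1) (by omega)
        have e : j + ((s - s0 - 1 : ℕ) : ℤ) = j - 1 - s0 + s := by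
          omega
        rw [e] at this
        exact this)
    have e : j - 1 - (s0 : ℤ) + s0 = j - 1 := by ring
    rw [e] at this
    exact this
  have hall : ∀ j : ℤ, ∀ s : ℕ, s < h → ∃ T : ℕ, 0 < T ∧ ∀ i, ρ (j + s) (i + T) = ρ (j + s) i := by
    intro j
    refine int_two_sided (P := fun j : ℤ => ∀ s : ℕ, s < h →
      ∃ T : ℕ, 0 < T ∧ ∀ i, ρ (j + s) (i + T) = ρ (j + s) i) j0 hper ?_ ?_ j
    · intro j hj s hs
      by_cases h1 : s + 1 < h
      · have := hj (s + 1) h1
        have e : j + ((s + 1 : ℕ) : ℤ) = j + 1 + s := by push_cast; ring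
        rw [e] at this
        exact this
      · have := hup j hj
        have e : j + (h : ℤ) = j + 1 + s := by omega
        rw [e] at this
        exact this
    · intro j hj s hs
      rcases Nat.eq_zero_or_pos s with rfl | h1
      · have := hdown j hj
        simpa using this
      · have := hj (s - 1) (by omega)
        have e : j + ((s - 1 : ℕ) : ℤ) = j - 1 + s := by omega
        rw [e] at this
        exact this
  intro j
  have := hup (j - h) (hall (j - h))
  have e : j - (h : ℤ) + h = j := by ring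
  rw [e] at this
  exact this

/-- An affine relation between the entries of a window of low complexity. -/
theorem exists_relation2 {A : Type*} [Finite A] (c : ℤ × ℤ → A) (e : A → ℤ)
    (D : Finset (ℤ × ℤ)) (hP : (patSet c D).ncard ≤ D.card) :
    ∃ (f : ℤ × ℤ → ℤ) (κ : ℤ), (∃ d ∈ D, f d ≠ 0) ∧
      ∀ z, ∑ d ∈ D, f d * e (c (z + d)) + κ = 0 := by
  classical
  have hfin : (patSet c D).Finite := Set.toFinite _
  have : Fintype (patSet c D) := hfin.fintype
  let β := Option D
  let M : Matrix (patSet c D) β ℤ := fun w t =>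
    match t with
    | none => 1
    | some d => e (w.1 d)
  have hne : (patSet c D).Nonempty := Set.range_nonempty _
  have hcard : Fintype.card (patSet c D) < Fintype.card β := by
    have h1 : Fintype.card (patSet c D) = (patSet c D).ncard := by
      rw [Set.ncard_eq_toFinset_card', Set.toFinset_card]
    have h2 : Fintype.card β = D.card + 1 := by
      simp [β]
    omega
  have hpos : 0 < Fintype.card (patSet c D) := by
    have : Nonempty (patSet c D) := hne.to_subtype
    exact Fintype.card_pos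
  obtain ⟨t, ht, hMt, _⟩ := Int.Matrix.exists_ne_zero_int_vec_norm_le M hcard hpos
  set f : ℤ × ℤ → ℤ := fun d => if h : d ∈ D then t (some ⟨d, h⟩) else 0 with hf
  have hfd : ∀ d : D, f d = t (some d) := fun d => dif_pos d.2
  have hrel : ∀ z, ∑ d ∈ D, f d * e (c (z + d)) + t none = 0 := by
    intro z
    have h1 := congrFun hMt ⟨_, ⟨z, rfl⟩⟩
    rw [Matrix.mulVec, dotProduct, Fintype.sum_option] at h1
    simp only [M, Pi.zero_apply, one_mul] at h1
    rw [← h1, ← Finset.sum_coe_sort D, add_comm]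
    congr 1
    refine Finset.sum_congr rfl fun d _ => ?_
    rw [hfd, mul_comm]
  refine ⟨f, t none, ?_, hrel⟩
  by_contra hcon
  push Not at hcon
  apply ht
  have h0 : t none = 0 := by
    have := hrel 0
    rw [Finset.sum_eq_zero (fun d hd => by rw [hcon d hd, zero_mul]), zero_add] at this
    exact this
  funext x
  rcases x with _ | d
  · exact h0
  · have := hcon d d.2
    rw [hfd] at this
    exact this

end Pool.Agent.Helper58.Nivat
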