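import Pool.Agent.Helper58.Nivat.Rows
import Pool.Agent.Helper58.Nivat.Geo

/-!
Configurations with finitely many rows up to a shear.
-/

open Polynomial

namespace Pool.Agent.Helper58.Nivat

/-- The configuration has a nonzero period. -/
def Per {A : Type*} (c : ℤ × ℤ → A) : Prop := ∃ v : ℤ × ℤ, v ≠ 0 ∧ ∀ x, c (x + v) = c x

/-- The configuration has finitely many rows up to a shear. -/
def Sheared {A : Type*} (c : ℤ × ℤ → A) : Prop :=
  ∃ σ P : ℤ, 0 < P ∧ (Set.range fun j : ℤ => fun i : ℤ => c (i + σ * (j / P), j)).Finite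

theorem row_eq_iff {A : Type*} (c : ℤ × ℤ → A) (σ P : ℤ) (hP : 0 < P) {j j' q : ℤ}
    (hq : j = j' + q * P) :
    (fun i : ℤ => c (i + σ * (j / P), j)) = (fun i : ℤ => c (i + σ * (j' / P), j')) ↔
      ∀ i, c (i + σ * q, j) = c (i, j') := by
  have hdiv : j / P = j' / P + q := by
    rw [hq, Int.add_mul_ediv_right _ _ hP.ne']
  constructor
  · intro h i
    have := congrFun h (i - σ * (j' / P))
    simp only [hdiv] at this
    have e1 : i - σ * (j' / P) + σ * (j' / P + q) = i + σ * q := by ring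
    have e2 : i - σ * (j' / P) + σ * (j' / P) = i := by ring
    rw [e1, e2] at this
    exact this
  · intro h
    funext i
    have := h (i + σ * (j' / P))
    rw [← this, hdiv]
    congr 2
    ring

/-- Nondeterminism of nonperiodic sheared configurations. -/
theorem exists_nondet {A : Type*} (c : ℤ × ℤ → A) (hs : Sheared c) (hn : ¬ Per c) (h : ℕ) :
    ∃ j j' a : ℤ, (∀ s : ℕ, s < h → ∀ i, c (i + a, j + s) = c (i, j' + s)) ∧
      ∃ i, c (i + a, j + h) ≠ c (i, j' + h) := by
  classical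
  by_contra hcon
  push Not at hcon
  obtain ⟨σ, P, hP, hfin⟩ := hs
  set R : ℤ → ℤ → A := fun j i => c (i + σ * (j / P), j) with hR
  set S : Set (ℤ × (Fin (h + 1) → (ℤ → A))) :=
    (Set.Ico (0 : ℤ) P) ×ˢ {w | ∀ s, w s ∈ Set.range R} with hS
  have hSf : S.Finite := (Set.finite_Ico 0 P).prod (Set.Finite.pi' fun _ => hfin)
  set x : ℤ → ℤ × (Fin (h + 1) → (ℤ → A)) := fun j => (j % P, fun s => R (j + (s : ℕ))) with hx
  obtain ⟨L, hL, hper⟩ := det_periodic S hSf
  have hxS : ∀ j, x j ∈ S := by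
    intro j
    refine ⟨⟨Int.emod_nonneg _ hP.ne', Int.emod_lt_of_pos _ hP⟩, fun s => ⟨_, rfl⟩⟩
  have hdet : ∀ j j', x j = x j' → x (j + 1) = x (j' + 1) := by
    intro j j' hjj
    have h1 : j % P = j' % P := congrArg Prod.fst hjj
    have h2 : (fun s : Fin (h + 1) => R (j + (s : ℕ))) = fun s : Fin (h + 1) => R (j' + (s : ℕ)) :=
      congrArg Prod.snd hjj
    have h3 : ∀ s : ℕ, s ≤ h → R (j + s) = R (j' + s) := fun s hs =>
      congrFun h2 ⟨s, by omega⟩
    obtain ⟨q, hq⟩ : ∃ q, j = j' + q * P := by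
      have h1' : j' ≡ j [ZMOD P] := h1.symm
      obtain ⟨q, hq⟩ := h1'.dvd
      exact ⟨q, by linarith [mul_comm P q]⟩
    have h4 : ∀ s : ℕ, s ≤ h → ∀ i, c (i + σ * q, j + s) = c (i, j' + s) := by
      intro s hs
      exact (row_eq_iff c σ P hP (q := q) (by rw [hq]; ring)).1 (h3 s hs)
    have h5 : ∀ i, c (i + σ * q, j + 1 + h) = c (i, j' + 1 + h) := by
      apply hcon
      intro s hs i
      have := h4 (s + 1) (by omega) i
      push_cast at this
      have e1 : j + 1 + (s : ℤ) = j + (s + 1) := by ring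
      have e2 : j' + 1 + (s : ℤ) = j' + (s + 1) := by ring
      rw [e1, e2]
      exact this
    have h6 : ∀ s : ℕ, s ≤ h → R (j + 1 + s) = R (j' + 1 + s) := by
      intro s hs
      rcases eq_or_lt_of_le hs with rfl | hlt
      · exact (row_eq_iff c σ P hP (q := q) (by rw [hq]; ring)).2 h5
      · have := h3 (s + 1) (by omega)
        push_cast at this
        have e1 : j + 1 + (s : ℤ) = j + (s + 1) := by ring
        have e2 : j' + 1 + (s : ℤ) = j' + (s + 1) := by ring
        rw [e1, e2]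
        exact this
    apply Prod.ext
    · show (j + 1) % P = (j' + 1) % P
      rw [Int.add_emod, h1, ← Int.add_emod]
    · funext s
      exact h6 s (by omega)
  have hLx := hper x hxS hdet 0
  have hLall := hper x hxS hdet
  apply hn
  obtain ⟨q, hq⟩ : ∃ q, (L : ℤ) = q * P := by
    have h1 : (0 + (L : ℤ)) % P = 0 % P := congrArg Prod.fst hLx
    rw [zero_add, Int.zero_emod] at h1
    obtain ⟨q, hq⟩ := Int.dvd_of_emod_eq_zero h1
    exact ⟨q, by rw [hq, mul_comm]⟩
  refine ⟨(σ * q, L), ?_, ?_⟩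
  · intro h0
    have : (L : ℤ) = 0 := congrArg Prod.snd h0
    omega
  · rintro ⟨i, j⟩
    have h1 : R (j + L + ((0 : ℕ) : ℤ)) = R (j + ((0 : ℕ) : ℤ)) :=
      congrFun (congrArg Prod.snd (hLall j)) (0 : Fin (h + 1))
    rw [Nat.cast_zero, add_zero, add_zero] at h1
    exact (row_eq_iff c σ P hP (q := q) (by rw [hq])).1 h1 i

/-- If all rows of a sheared configuration are periodic, then it is periodic. -/
theorem per_of_rows {A : Type*} (c : ℤ × ℤ → A) (hs : Sheared c)
    (hr : ∀ j, ∃ T : ℕ, 0 < T ∧ ∀ i, c (i + T, j) = c (i, j)) : Per c := by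
  obtain ⟨σ, P, hP, hfin⟩ := hs
  obtain ⟨T, hT, hper⟩ := common_period hfin.toFinset (fun r : ℤ → A => r) (by
    intro r hr'
    rw [Set.Finite.mem_toFinset] at hr'
    obtain ⟨j, rfl⟩ := hr'
    obtain ⟨T, hT, hper⟩ := hr j
    refine ⟨T, hT, fun i => ?_⟩
    have := hper (i + σ * (j / P))
    show c (i + T + σ * (j / P), j) = c (i + σ * (j / P), j)
    rw [← this]
    congr 2
    ring)
  refine ⟨((T : ℤ), 0), ?_, ?_⟩
  · intro h0
    have : (T : ℤ) = 0 := congrArg Prod.fst h0
    omega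
  · rintro ⟨i, j⟩
    have := hper (fun i => c (i + σ * (j / P), j)) (by
      rw [Set.Finite.mem_toFinset]; exact ⟨j, rfl⟩) (i - σ * (j / P))
    have e1 : i - σ * (j / P) + T + σ * (j / P) = i + T := by ring
    have e2 : i - σ * (j / P) + σ * (j / P) = i := by ring
    simp only [e1, e2] at this
    simpa using this

/-- Reflection in the origin. -/
theorem Sheared.neg {A : Type*} {c : ℤ × ℤ → A} (hs : Sheared c) :
    Sheared fun z => c (-z) := by
  obtain ⟨σ, P, hP, hfin⟩ := hs
  refine ⟨σ, P, hP, ?_⟩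
  have h1 : (Set.range fun j : ℤ => fun i : ℤ => c (-(i + σ * (j / P), j))) ⊆
      ((fun r : ℤ → A => fun i : ℤ => r (-i)) ''
        (Set.range fun j : ℤ => fun i : ℤ => c (i + σ * (j / P), j))) ∪
      ((fun r : ℤ → A => fun i : ℤ => r (-i + σ)) ''
        (Set.range fun j : ℤ => fun i : ℤ => c (i + σ * (j / P), j))) := by
    rintro _ ⟨j, rfl⟩
    by_cases hd : P ∣ j
    · left
      obtain ⟨q, rfl⟩ := hd
      refine ⟨_, ⟨-(P * q), rfl⟩, ?_⟩
      funext i
      have e1 : -(P * q) / P = -q := by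
        rw [← mul_neg, Int.mul_ediv_cancel_left _ hP.ne']
      have e2 : (P * q) / P = q := Int.mul_ediv_cancel_left _ hP.ne'
      show c (-i + σ * (-(P * q) / P), -(P * q)) = c (-(i + σ * (P * q / P)), -(P * q))
      rw [e1, e2]
      congr 2
      ring
    · right
      refine ⟨_, ⟨-j, rfl⟩, ?_⟩
      funext i
      have e1 : (-j) / P = -(j / P) - 1 := by
        have h1 := Int.emod_add_mul_ediv j P
        have h2 : 0 ≤ j % P := Int.emod_nonneg _ hP.ne'
        have h3 : j % P < P := Int.emod_lt_of_pos _ hP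
        have h4 : j % P ≠ 0 := fun h => hd (Int.dvd_of_emod_eq_zero h)
        have h5 : 0 < j % P := lt_of_le_of_ne h2 h4.symm
        rw [Int.ediv_eq_iff_of_pos hP]
        constructor
        · nlinarith
        · nlinarith
      show c (-i + σ + σ * ((-j) / P), -j) = c (-(i + σ * (j / P)), -j)
      rw [e1]
      congr 2
      ring
  exact ((hfin.image _).union (hfin.image _)).subset h1

end Pool.Agent.Helper58.Nivat
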